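import Pool.Agent.W533.U.Asm

set_option autoImplicit false
set_option linter.unusedSectionVars false
set_option linter.unusedSimpArgs false

/-!
Choice of the parameters.
-/

open MeasureTheory Set Finset Filter Topology

namespace Pool.Agent.W533.U

lemma hq1_of {k m : ℕ} (hm : 16 * (2 : ℝ) ^ k ≤ m) :
    qq k m ^ 2 * (2 : ℝ) ^ k * ((2 * 2 ^ k : ℕ) : ℝ) ^ 2 ≤ 1 := by
  have hn : (0 : ℝ) < (2 : ℝ) ^ k := by positivity
  have hm0 : (0 : ℝ) < m := by linarith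
  unfold qq
  push_cast
  rw [div_pow, mul_pow, Real.sq_sqrt hm0.le]
  have e : 2 ^ 2 / ((m : ℝ) * ((2 : ℝ) ^ k) ^ 2) * 2 ^ k * (2 * 2 ^ k) ^ 2 =
      16 * (2 : ℝ) ^ k / m := by
    field_simp
    ring
  rw [e, div_le_one hm0]
  exact hm

lemma hq2_of {k m s : ℕ} {b : ℝ} (hb : 0 < b) (hm : (4 * √s * √((2 : ℝ) ^ k) / b) ^ 2 ≤ m)
    (hm0 : 0 < m) :
    √s * (qq k m * √((2 : ℝ) ^ k) * ((2 * 2 ^ k : ℕ) : ℝ)) ≤ b := by
  have hn : (0 : ℝ) < (2 : ℝ) ^ k := by positivity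
  have hm' : (0 : ℝ) < √m := Real.sqrt_pos.2 (by exact_mod_cast hm0)
  have h1 : 4 * √s * √((2 : ℝ) ^ k) / b ≤ √m := Real.le_sqrt_of_sq_le hm
  rw [div_le_iff₀ hb] at h1
  unfold qq
  push_cast
  have e : √(s : ℝ) * (2 / (√m * (2 : ℝ) ^ k) * √((2 : ℝ) ^ k) * (2 * 2 ^ k)) =
      4 * √s * √((2 : ℝ) ^ k) / √m := by
    field_simp
    ring
  rw [e, div_le_iff₀ hm']
  linarith

/-- the finitely many points that are used -/
lemma exists_P (k m L : ℕ) : ∃ P : Set (((Fin k → Bool) → ℤ) ⊕ ((Fin k → Bool) → ℤ)), P.Finite ∧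
    (∀ x : Fin m × (Fin k → Bool) → Bool, Sum.inl (gg (2 ^ (k - 1)) x) ∈ P) ∧
    (∀ (x : Fin m × (Fin k → Bool) → Bool) (i : Fin k → Bool),
      Sum.inl (gg (2 ^ (k - 1)) x + Pi.single i (2 * 2 ^ (k - 1))) ∈ P) ∧
    (∀ (x : Fin m × (Fin k → Bool) → Bool) (i : Fin k → Bool),
      Sum.inl (gg (2 ^ (k - 1)) x - Pi.single i (2 * 2 ^ (k - 1))) ∈ P) ∧
    (∀ x : Fin m × (Fin k → Bool) → Bool, ∀ u ∈ BoxP (Fin k → Bool) L,
      Sum.inr (gg (2 ^ (k - 1)) x + lin (Wal k) u) ∈ P) ∧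
    (∀ x : Fin m × (Fin k → Bool) → Bool, ∀ u ∈ BoxP (Fin k → Bool) L,
      ∀ j : Fin k → Bool,
      Sum.inr (gg (2 ^ (k - 1)) x + lin (Wal k) u + lin (Wal k) (Pi.single j 1)) ∈ P) := by
  refine ⟨(Set.range fun x : Fin m × (Fin k → Bool) → Bool => Sum.inl (gg (2 ^ (k - 1)) x)) ∪
    (Set.range fun w : (Fin m × (Fin k → Bool) → Bool) × (Fin k → Bool) =>
      Sum.inl (gg (2 ^ (k - 1)) w.1 + Pi.single w.2 (2 * 2 ^ (k - 1)))) ∪
    (Set.range fun w : (Fin m × (Fin k → Bool) → Bool) × (Fin k → Bool) =>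
      Sum.inl (gg (2 ^ (k - 1)) w.1 - Pi.single w.2 (2 * 2 ^ (k - 1)))) ∪
    (Set.range fun w : (Fin m × (Fin k → Bool) → Bool) × (BoxP (Fin k → Bool) L) =>
      Sum.inr (gg (2 ^ (k - 1)) w.1 + lin (Wal k) w.2.1)) ∪
    (Set.range fun w : (Fin m × (Fin k → Bool) → Bool) × (BoxP (Fin k → Bool) L) ×
        (Fin k → Bool) =>
      Sum.inr (gg (2 ^ (k - 1)) w.1 + lin (Wal k) w.2.1.1 +
        lin (Wal k) (Pi.single w.2.2 1))), ?_, ?_, ?_, ?_, ?_, ?_⟩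
  · exact ((((Set.finite_range _).union (Set.finite_range _)).union
      (Set.finite_range _)).union (Set.finite_range _)).union (Set.finite_range _)
  · exact fun x => Or.inl (Or.inl (Or.inl (Or.inl ⟨x, rfl⟩)))
  · exact fun x i => Or.inl (Or.inl (Or.inl (Or.inr ⟨(x, i), rfl⟩)))
  · exact fun x i => Or.inl (Or.inl (Or.inr ⟨(x, i), rfl⟩))
  · exact fun x u hu => Or.inl (Or.inr ⟨(x, ⟨u, hu⟩), rfl⟩)
  · exact fun x u hu j => Or.inr ⟨(x, ⟨u, hu⟩, j), rfl⟩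

/-- the glued space has no embedding of distortion `D` -/
theorem no_embed {p : ℝ} (hp1 : 1 ≤ p) (hp2 : p < 2) {D : ℝ} (hD : 1 ≤ D) :
    ∃ (Lt : Type) (M : MetricSpace (Lt ⊕ Lt)) (φ ψ : Lt → ellp p) (P : Set (Lt ⊕ Lt)),
      P.Finite ∧
      (∀ a b, M.dist (Sum.inl a) (Sum.inl b) = ‖φ a - φ b‖) ∧
      (∀ a b, M.dist (Sum.inr a) (Sum.inr b) = ‖ψ a - ψ b‖) ∧
      ¬ ∃ F : Lt ⊕ Lt → ellp p, (∀ x ∈ P, ∀ y ∈ P, M.dist x y ≤ ‖F x - F y‖) ∧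
        (∀ x ∈ P, ∀ y ∈ P, ‖F x - F y‖ ≤ D * M.dist x y) := by
  have hcp := cp_pos (p := p) (by linarith) hp2
  have hD2 : 1 ≤ D ^ 2 := by nlinarith
  have hD0 : 0 < D ^ 2 := by linarith
  have hDp : 0 < D ^ p := Real.rpow_pos_of_pos (by linarith) _
  have hDp2 : D ^ p ≤ D ^ 2 := by
    have := Real.rpow_le_rpow_of_exponent_le hD hp2.le
    rwa [Real.rpow_two] at this
  have h2p : 0 < 2 - p := by linarith
  set δ : ℝ := 1 / (1600 * D ^ 2) with hδ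
  have hδ0 : 0 < δ := by positivity
  have hδ1 : δ + δ ≤ 1 := by
    have : δ ≤ 1 / 1600 := by
      rw [hδ]
      exact one_div_le_one_div_of_le (by norm_num) (by linarith)
    linarith
  set B0 : ℝ := 28800 * D ^ 2 with hB0
  have hB01 : 1 ≤ B0 := by rw [hB0]; linarith
  obtain ⟨s, hs, hnear⟩ := exists_s hp1 hp2 (M := 16 * B0 ^ 2) hδ0
  have hs' : (0 : ℝ) < s := by exact_mod_cast hs
  set kap : ℝ := 1000 * D ^ 2 with hkap
  have hkap0 : 0 < kap := by positivity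
  set X : ℝ := 9 * (D ^ p * (s : ℝ) ^ (p / 2)) with hX
  have hX0 : 0 < X := by
    have : 0 < (s : ℝ) ^ (p / 2) := Real.rpow_pos_of_pos hs' _
    positivity
  obtain ⟨eps, heps0, heps⟩ := exists_eps hp2 (c := cp p * (2 - p) * 2 / (400 * kap * X))
    (by positivity)
  obtain ⟨k, hk, hkk⟩ := exists_k (gam_pos hp1 hp2)
    (c := cp p / (400 * (8 * eps ^ (-(p - 1 / 2))) * (X + X))) (by positivity)
  obtain ⟨m, hm⟩ := exists_nat_gt (max (16 * (2 : ℝ) ^ k) ((4 * √s * √((2 : ℝ) ^ k) / δ) ^ 2))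
  have hm1 : 16 * (2 : ℝ) ^ k ≤ m := ((le_max_left _ _).trans_lt hm).le
  have hm2 : (4 * √s * √((2 : ℝ) ^ k) / δ) ^ 2 ≤ m := ((le_max_right _ _).trans_lt hm).le
  have hm0 : 0 < m := by
    have : (0 : ℝ) < m := lt_of_lt_of_le (by positivity) hm1
    exact_mod_cast this
  have hq := qq_pos (k := k) hm0
  obtain ⟨M, hM1, hM2, hM3⟩ := glued (k := k) (B0 := B0) hp1 hp2 hs hδ0 hq.ne'
    (fun h h' => hnear k h h')
  obtain ⟨P, hPf, hP1, hP2, hP3, hP4, hP5⟩ := exists_P k m (2 * 2 ^ k)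
  refine ⟨(Fin k → Bool) → ℤ, M, phi p s (qq k m), psi p s (qq k m), P, hPf, hM1, hM2, ?_⟩
  rintro ⟨F, hF1, hF2⟩
  have key := main_ineq hp1 hp2 hD hs hk hm0 (L := 2 * 2 ^ k) rfl hB01 hδ0 hδ0.le hδ1 hkap0 heps0
    (hq1_of hm1) (hq2_of hδ0 hm2 hm0) M hM1 hM2 hM3 P hP1 hP2 hP3 hP4 hP5 F hF1 hF2
  rw [← hX] at key
  have hE : 4 * (δ + δ) + 72 / B0 = 3 / (400 * D ^ 2) := by
    rw [hδ, hB0]
    field_simp
    norm_num
  rw [hE] at key
  have hE1 : 3 / (400 * D ^ 2) ≤ 3 / 400 := by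
    rw [div_le_div_iff₀ (by positivity) (by norm_num)]
    linarith
  have hE2 : D ^ p * (3 / (400 * D ^ 2)) ≤ 3 / 400 := by
    calc D ^ p * (3 / (400 * D ^ 2)) ≤ D ^ 2 * (3 / (400 * D ^ 2)) :=
          mul_le_mul_of_nonneg_right hDp2 (by positivity)
      _ = 3 / 400 := by field_simp
  have hE3 : (4 * kap)⁻¹ * (D ^ p * 10) ≤ 1 / 400 := by
    calc (4 * kap)⁻¹ * (D ^ p * 10) ≤ (4 * kap)⁻¹ * (D ^ 2 * 10) :=
          mul_le_mul_of_nonneg_left (by linarith) (by positivity)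
      _ = 1 / 400 := by rw [hkap]; field_simp; norm_num
  have hE4 : (cp p)⁻¹ * (kap / 2 * (eps ^ (2 - p) / (2 - p)) * X) ≤ 1 / 400 := by
    calc (cp p)⁻¹ * (kap / 2 * (eps ^ (2 - p) / (2 - p)) * X) ≤
          (cp p)⁻¹ * (kap / 2 * ((cp p * (2 - p) * 2 / (400 * kap * X)) / (2 - p)) * X) := by
          refine mul_le_mul_of_nonneg_left ?_ (by positivity)
          refine mul_le_mul_of_nonneg_right ?_ hX0.le
          refine mul_le_mul_of_nonneg_left ?_ (by positivity)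
          exact div_le_div_of_nonneg_right heps h2p.le
      _ = 1 / 400 := by field_simp
  have hE5 : (cp p)⁻¹ * (8 * eps ^ (-(p - 1 / 2)) * ((2 : ℝ) ^ k) ^ (-gam p) * (X + X)) ≤
      1 / 400 := by
    have hY : 0 < 8 * eps ^ (-(p - 1 / 2)) := by positivity
    calc (cp p)⁻¹ * (8 * eps ^ (-(p - 1 / 2)) * ((2 : ℝ) ^ k) ^ (-gam p) * (X + X)) ≤
          (cp p)⁻¹ * (8 * eps ^ (-(p - 1 / 2)) *
            (cp p / (400 * (8 * eps ^ (-(p - 1 / 2))) * (X + X))) * (X + X)) := by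
          refine mul_le_mul_of_nonneg_left ?_ (by positivity)
          refine mul_le_mul_of_nonneg_right ?_ (by positivity)
          exact mul_le_mul_of_nonneg_left hkk hY.le
      _ = 1 / 400 := by
          have hne : eps ^ (-(p - 1 / 2)) ≠ 0 := (Real.rpow_pos_of_pos heps0 _).ne'
          field_simp
  rw [mul_add] at key
  linarith

end Pool.Agent.W533.U
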