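import Pool.Agent.W533.U.Main

set_option autoImplicit false
set_option linter.unusedSectionVars false
set_option linter.unusedSimpArgs false

/-!
Final assembly, second part.
-/

open MeasureTheory Set Finset Filter Topology

namespace Pool.Agent.W533.U

section asm2

variable {k m : ℕ}

lemma lin_sub {ι : Type} [Fintype ι] [DecidableEq ι] (Hm : ι → ι → ℤ) (u w : ι → ℤ) :
    lin Hm (u - w) = lin Hm u - lin Hm w := by
  have := lin_add Hm (u - w) w
  rw [sub_add_cancel] at this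
  rw [this, add_sub_cancel_right]

lemma vec_add_sub {ι : Type} (q : ℝ) (g w : ι → ℤ) :
    (fun i => vec q (g + w) i - vec q g i) = vec q w := by
  funext i
  simp [vec]
  ring

lemma mu2_Uv (h : (Fin k → Bool) → ℝ) :
    (∑ i, Uv k h i ^ 2) / (Fintype.card (Fin k → Bool) : ℝ) =
      (∑ i, h i ^ 2) / (Fintype.card (Fin k → Bool) : ℝ) := by
  rw [sum_Uv_sq]

/-- bound for the distance of the two copies of a point -/
lemma cross_bound {p : ℝ} (hp1 : 1 ≤ p) (hp2 : p < 2) {δ b B0 q : ℝ} {s L : ℕ}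
    (hs : 0 < s) (hB0 : 1 ≤ B0) (hδ : 0 < δ) (hb : 0 ≤ b) (hδb : δ + b ≤ 1) (hq : 0 < q)
    (hq2 : √s * (q * √((2 : ℝ) ^ k) * L) ≤ b)
    (M : MetricSpace (((Fin k → Bool) → ℤ) ⊕ ((Fin k → Bool) → ℤ)))
    (hM3 : ∀ a b, ∀ z, QQ k (vec q z) ≤ B0 ^ 2 → M.dist (Sum.inl a) (Sum.inr b) ≤
        ‖phi p s q a - phi p s q z‖ + ‖psi p s q b - psi p s q z‖ + δ)
    (g u : (Fin k → Bool) → ℤ) (hu : u ∈ Box (Fin k → Bool) L) :
    M.dist (Sum.inl g) (Sum.inr (g + lin (Wal k) u)) ^ p ≤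
      4 * (δ + b) + 12 * QQ k (vec q g) / B0 := by
  haveI : Fact (1 ≤ ENNReal.ofReal p) := ⟨by simpa using hp1⟩
  have hb1 : ‖psi p s q (g + lin (Wal k) u) - psi p s q g‖ ≤ b := by
    have h1 := psi_sub hp1 s q (g + lin (Wal k) u) g
    rw [vec_add_sub] at h1
    have h2 := Np_box_le (k := k) hp1 hs hq.le hq2 hu
    rw [← h1] at h2
    exact (Real.rpow_le_rpow_iff (norm_nonneg _) hb (by linarith)).1 h2
  have hdist : 0 ≤ M.dist (Sum.inl g) (Sum.inr (g + lin (Wal k) u)) :=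
    @dist_nonneg _ M.toPseudoMetricSpace _ _
  have hA : ‖phi p s q g - phi p s q (0 : (Fin k → Bool) → ℤ)‖ ^ p = Np p s (vec q g) := by
    rw [phi_sub hp1]
    congr 1
    funext i
    rw [vec_zero]; ring
  have hB : ‖psi p s q g - psi p s q (0 : (Fin k → Bool) → ℤ)‖ ^ p = Np p s (Uv k (vec q g)) := by
    rw [psi_sub hp1]
    congr 2
    funext i
    rw [vec_zero]; ring
  refine glue_bound hp1 hp2 (δ := δ + b) (A := ‖phi p s q g - phi p s q (0 : (Fin k → Bool) → ℤ)‖)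
    (B := ‖psi p s q g - psi p s q (0 : (Fin k → Bool) → ℤ)‖) (by linarith) (QQ_nonneg _) (by linarith) hδb hdist
    (norm_nonneg _) (norm_nonneg _) ?_ ?_ ?_ ?_
  · intro hQ
    have := hM3 g (g + lin (Wal k) u) g hQ
    rw [sub_self, norm_zero] at this
    linarith
  · have h1 := hM3 g (g + lin (Wal k) u) 0 (by rw [QQ_zero]; positivity)
    have h2 : ‖psi p s q (g + lin (Wal k) u) - psi p s q (0 : (Fin k → Bool) → ℤ)‖ ≤
        ‖psi p s q (g + lin (Wal k) u) - psi p s q g‖ + ‖psi p s q g - psi p s q (0 : (Fin k → Bool) → ℤ)‖ :=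
      norm_sub_le_norm_sub_add_norm_sub _ _ _
    linarith
  · intro hQ
    rw [hA]
    exact (Np_le_two hp1 hp2 hs _).trans (mu2_le _ hB0 hQ)
  · intro hQ
    rw [hB]
    have h1 := Np_le_two hp1 hp2 hs (Uv k (vec q g))
    rw [mu2_Uv] at h1
    exact h1.trans (mu2_le _ hB0 hQ)

/-- bound for distances inside the second copy -/
lemma inner_bound {p : ℝ} (hp1 : 1 ≤ p) (hp2 : p < 2) {q : ℝ} {s L : ℕ} (hs : 0 < s)
    (hq1 : q ^ 2 * (2 : ℝ) ^ k * (L : ℝ) ^ 2 ≤ 1) (g g' u u' : (Fin k → Bool) → ℤ)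
    (hu : u ∈ Box (Fin k → Bool) L) (hu' : u' ∈ Box (Fin k → Bool) L) :
    ‖psi p s q (g + lin (Wal k) u) - psi p s q (g' + lin (Wal k) u')‖ ^ p ≤
      4 + 3 * ((∑ i, vec q g i ^ 2) / (Fintype.card (Fin k → Bool) : ℝ)) +
        3 * ((∑ i, vec q g' i ^ 2) / (Fintype.card (Fin k → Bool) : ℝ)) := by
  have hn : (0 : ℝ) < Fintype.card (Fin k → Bool) := by exact_mod_cast Fintype.card_pos
  have hn2 : (0 : ℝ) < (2 : ℝ) ^ k := by positivity
  rw [psi_sub hp1]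
  refine (Np_le_two hp1 hp2 hs _).trans ?_
  rw [mu2_Uv]
  set V := vec q (lin (Wal k) (u - u')) with hV
  have e1 : ∀ i, vec q (g + lin (Wal k) u) i - vec q (g' + lin (Wal k) u') i =
      vec q g i - vec q g' i + V i := by
    intro i
    rw [hV, lin_sub]
    simp [vec]
    ring
  have h1 : ∑ i, (vec q (g + lin (Wal k) u) i - vec q (g' + lin (Wal k) u') i) ^ 2 ≤
      3 * ∑ i, vec q g i ^ 2 + 3 * ∑ i, vec q g' i ^ 2 + 3 * ∑ i, V i ^ 2 := by
    rw [Finset.mul_sum, Finset.mul_sum, Finset.mul_sum, ← Finset.sum_add_distrib,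
      ← Finset.sum_add_distrib]
    refine Finset.sum_le_sum fun i _ => ?_
    rw [e1]
    nlinarith [sq_nonneg (vec q g i + vec q g' i), sq_nonneg (vec q g i - V i),
      sq_nonneg (vec q g' i + V i)]
  have h2 : ∑ i, V i ^ 2 ≤ Fintype.card (Fin k → Bool) := by
    rw [← sum_Uv_sq, hV, Uv_lin]
    have : ∀ i ∈ (Finset.univ : Finset (Fin k → Bool)),
        (q * √((2 : ℝ) ^ k) * (((u - u') i : ℤ) : ℝ)) ^ 2 ≤ 1 := by
      intro i _
      rw [mul_pow, mul_pow, Real.sq_sqrt hn2.le]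
      refine le_trans ?_ hq1
      have b1 := mem_Box.1 hu i
      have b2 := mem_Box.1 hu' i
      have c1 : (((u - u') i : ℤ) : ℝ) ^ 2 ≤ (L : ℝ) ^ 2 := by
        have d1 : -(L : ℤ) ≤ (u - u') i := by simp only [Pi.sub_apply]; omega
        have d2 : (u - u') i ≤ (L : ℤ) := by simp only [Pi.sub_apply]; omega
        have d1' : -(L : ℝ) ≤ (((u - u') i : ℤ) : ℝ) := by exact_mod_cast d1
        have d2' : (((u - u') i : ℤ) : ℝ) ≤ (L : ℝ) := by exact_mod_cast d2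
        nlinarith
      exact mul_le_mul_of_nonneg_left c1 (by positivity)
    refine (Finset.sum_le_sum this).trans (le_of_eq ?_)
    simp
  have h3 := div_le_div_of_nonneg_right (h1.trans (add_le_add_right
    (mul_le_mul_of_nonneg_left h2 (by norm_num : (0 : ℝ) ≤ 3)) _)) hn.le
  refine (add_le_add_right h3 1).trans (le_of_eq ?_)
  field_simp
  ring

lemma qq_pos (hm : 0 < m) : 0 < qq k m := by
  unfold qq
  have : (0 : ℝ) < √m := Real.sqrt_pos.2 (by exact_mod_cast hm)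
  positivity

lemma sum_const_cube (c : ℝ) : ∑ _x : Fin m × (Fin k → Bool) → Bool, c =
    cN (Fin m × (Fin k → Bool)) * c := by
  rw [← sum_one_cube, Finset.sum_mul]
  simp

lemma sum_const_box {L : ℕ} (c : ℝ) : ∑ _u ∈ Box (Fin k → Bool) L, c =
    (L : ℝ) ^ Fintype.card (Fin k → Bool) * c := by
  rw [Finset.sum_const, card_Box, nsmul_eq_mul]
  push_cast
  rfl

/-- the three averages for an embedding of the glued space -/
theorem three_avg {p : ℝ} (hp1 : 1 ≤ p) (hp2 : p < 2) {D δ b B0 : ℝ} {s L : ℕ}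
    (hD : 1 ≤ D) (hs : 0 < s) (hk : 0 < k) (hm : 0 < m) (hL : 0 < L) (hB0 : 1 ≤ B0)
    (hδ : 0 < δ) (hb : 0 ≤ b) (hδb : δ + b ≤ 1)
    (hq1 : qq k m ^ 2 * (2 : ℝ) ^ k * (L : ℝ) ^ 2 ≤ 1)
    (hq2 : √s * (qq k m * √((2 : ℝ) ^ k) * L) ≤ b)
    (M : MetricSpace (((Fin k → Bool) → ℤ) ⊕ ((Fin k → Bool) → ℤ)))
    (hM1 : ∀ a b, M.dist (Sum.inl a) (Sum.inl b) =
      ‖phi p s (qq k m) a - phi p s (qq k m) b‖)
    (hM2 : ∀ a b, M.dist (Sum.inr a) (Sum.inr b) =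
      ‖psi p s (qq k m) a - psi p s (qq k m) b‖)
    (hM3 : ∀ a b, ∀ z, QQ k (vec (qq k m) z) ≤ B0 ^ 2 → M.dist (Sum.inl a) (Sum.inr b) ≤
        ‖phi p s (qq k m) a - phi p s (qq k m) z‖ +
          ‖psi p s (qq k m) b - psi p s (qq k m) z‖ + δ)
    (P : Set (((Fin k → Bool) → ℤ) ⊕ ((Fin k → Bool) → ℤ)))
    (hP1 : ∀ x : Fin m × (Fin k → Bool) → Bool, Sum.inl (gg (2 ^ (k - 1)) x) ∈ P)
    (hP2 : ∀ x : Fin m × (Fin k → Bool) → Bool, ∀ u ∈ Box (Fin k → Bool) L,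
      Sum.inr (gg (2 ^ (k - 1)) x + lin (Wal k) u) ∈ P)
    (F : ((Fin k → Bool) → ℤ) ⊕ ((Fin k → Bool) → ℤ) → ellp p)
    (hF1 : ∀ x ∈ P, ∀ y ∈ P, M.dist x y ≤ ‖F x - F y‖)
    (hF2 : ∀ x ∈ P, ∀ y ∈ P, ‖F x - F y‖ ≤ D * M.dist x y) :
    1 / 24 - (4 * (δ + b) + 72 / B0) ≤
      (∑ x : Fin m × (Fin k → Bool) → Bool, ∑ y : Fin m × (Fin k → Bool) → Bool,
        ∑ u ∈ Box (Fin k → Bool) L, ‖F (Sum.inl (gg (2 ^ (k - 1)) x)) -
          F (Sum.inr (gg (2 ^ (k - 1)) y + lin (Wal k) u))‖ ^ p) /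
        (cN (Fin m × (Fin k → Bool)) * cN (Fin m × (Fin k → Bool)) *
          (L : ℝ) ^ Fintype.card (Fin k → Bool)) ∧
      (∑ x : Fin m × (Fin k → Bool) → Bool, ∑ u ∈ Box (Fin k → Bool) L,
        ‖F (Sum.inl (gg (2 ^ (k - 1)) x)) -
          F (Sum.inr (gg (2 ^ (k - 1)) x + lin (Wal k) u))‖ ^ p) /
        (cN (Fin m × (Fin k → Bool)) * (L : ℝ) ^ Fintype.card (Fin k → Bool)) ≤
        D ^ p * (4 * (δ + b) + 72 / B0) ∧
      (∑ x : Fin m × (Fin k → Bool) → Bool, ∑ y : Fin m × (Fin k → Bool) → Bool,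
        ∑ u ∈ Box (Fin k → Bool) L, ∑ u' ∈ Box (Fin k → Bool) L,
        ‖F (Sum.inr (gg (2 ^ (k - 1)) x + lin (Wal k) u)) -
          F (Sum.inr (gg (2 ^ (k - 1)) y + lin (Wal k) u'))‖ ^ p) /
        (cN (Fin m × (Fin k → Bool)) * cN (Fin m × (Fin k → Bool)) *
          ((L : ℝ) ^ Fintype.card (Fin k → Bool) * (L : ℝ) ^ Fintype.card (Fin k → Bool))) ≤
        D ^ p * 10 := by
  have hq := qq_pos (k := k) hm
  set q := qq k m with hqd
  set C := cN (Fin m × (Fin k → Bool)) with hC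
  set LL := (L : ℝ) ^ Fintype.card (Fin k → Bool) with hLL
  have hC0 : 0 < C := cN_pos
  have hLL0 : 0 < LL := by
    have : (0 : ℝ) < L := by exact_mod_cast hL
    positivity
  have hB : 0 < B0 := by linarith
  have hDp : 0 < D ^ p := Real.rpow_pos_of_pos (by linarith) _
  set G : (Fin m × (Fin k → Bool) → Bool) → (Fin k → Bool) → ℤ := fun x => gg (2 ^ (k - 1)) x
    with hG
  have hdn : ∀ x y, 0 ≤ M.dist x y := fun x y => @dist_nonneg _ M.toPseudoMetricSpace _ _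
  have htri : ∀ x y z, M.dist x z ≤ M.dist x y + M.dist y z := M.dist_triangle
  have hsymm : ∀ x y, M.dist x y = M.dist y x := M.dist_comm
  have hE : ∀ g u : (Fin k → Bool) → ℤ, u ∈ Box (Fin k → Bool) L →
      M.dist (Sum.inl g) (Sum.inr (g + lin (Wal k) u)) ^ p ≤
        4 * (δ + b) + 12 * QQ k (vec q g) / B0 :=
    fun g u hu => cross_bound hp1 hp2 hs hB0 hδ hb hδb hq hq2 M hM3 g u hu
  have hQ : ∑ x, QQ k (vec q (G x)) ≤ 6 * C := mom_QQ hk hm
  have hEsum : ∑ x, (4 * (δ + b) + 12 * QQ k (vec q (G x)) / B0) ≤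
      C * (4 * (δ + b) + 72 / B0) := by
    rw [Finset.sum_add_distrib, sum_const_cube, ← Finset.sum_div, ← Finset.mul_sum]
    have : 12 * ∑ x, QQ k (vec q (G x)) ≤ 72 * C := by linarith
    have h2 := div_le_div_of_nonneg_right this hB.le
    have h3 : 72 * C / B0 = C * (72 / B0) := by ring
    rw [h3] at h2
    linarith
  refine ⟨?_, ?_, ?_⟩
  · -- lower bound
    rw [le_div_iff₀ (by positivity)]
    have hpt : ∀ x y u, u ∈ Box (Fin k → Bool) L →
        1 / 2 * Np p s (fun i => vec q (G x) i - vec q (G y) i) -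
          (4 * (δ + b) + 12 * QQ k (vec q (G y)) / B0) ≤
        ‖F (Sum.inl (G x)) - F (Sum.inr (G y + lin (Wal k) u))‖ ^ p := by
      intro x y u hu
      have h1 : M.dist (Sum.inl (G x)) (Sum.inl (G y)) ≤
          M.dist (Sum.inl (G x)) (Sum.inr (G y + lin (Wal k) u)) +
            M.dist (Sum.inl (G y)) (Sum.inr (G y + lin (Wal k) u)) := by
        rw [hsymm (Sum.inl (G y)) (Sum.inr (G y + lin (Wal k) u))]
        exact htri _ _ _
      have h2 : M.dist (Sum.inl (G x)) (Sum.inl (G y)) ≤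
          ‖F (Sum.inl (G x)) - F (Sum.inr (G y + lin (Wal k) u))‖ +
            M.dist (Sum.inl (G y)) (Sum.inr (G y + lin (Wal k) u)) :=
        h1.trans (add_le_add_left (hF1 _ (hP1 x) _ (hP2 y u hu)) _)
      have h3 : M.dist (Sum.inl (G x)) (Sum.inl (G y)) ^ p ≤
          (‖F (Sum.inl (G x)) - F (Sum.inr (G y + lin (Wal k) u))‖ +
            M.dist (Sum.inl (G y)) (Sum.inr (G y + lin (Wal k) u))) ^ p :=
        Real.rpow_le_rpow (hdn _ _) h2 (by linarith)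
      have hnn : 0 ≤ ‖F (Sum.inl (G x)) - F (Sum.inr (G y + lin (Wal k) u))‖ :=
        (hdn _ _).trans (hF1 _ (hP1 x) _ (hP2 y u hu))
      have h4 := add_rpow_le_two hp1 hp2 hnn
        (hdn (Sum.inl (G y)) (Sum.inr (G y + lin (Wal k) u)))
      have h5 := hE (G y) u hu
      rw [hM1, phi_sub hp1] at h3
      linarith
    have hsum := Finset.sum_le_sum fun x (_ : x ∈ (Finset.univ :
      Finset (Fin m × (Fin k → Bool) → Bool))) =>
      Finset.sum_le_sum fun y (_ : y ∈ (Finset.univ :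
        Finset (Fin m × (Fin k → Bool) → Bool))) =>
        Finset.sum_le_sum fun u (hu : u ∈ Box (Fin k → Bool) L) => hpt x y u hu
    refine le_trans ?_ hsum
    simp only [sum_const_box, ← Finset.mul_sum, Finset.sum_sub_distrib]
    rw [sum_const_cube]
    have hlow := mom_low (m := m) hp1 hp2 hs hk hm
    have h6 : C * ∑ x, (4 * (δ + b) + 12 * QQ k (vec q (G x)) / B0) ≤
        C * (C * (4 * (δ + b) + 72 / B0)) := mul_le_mul_of_nonneg_left hEsum hC0.le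
    have h7 : C * C / 12 ≤ ∑ x, ∑ y, Np p s (fun i => vec q (G x) i - vec q (G y) i) := hlow
    have h8 : (1 / 24 - (4 * (δ + b) + 72 / B0)) * (C * C) ≤
        1 / 2 * (∑ x, ∑ y, Np p s (fun i => vec q (G x) i - vec q (G y) i)) -
          C * ∑ x, (4 * (δ + b) + 12 * QQ k (vec q (G x)) / B0) := by linarith
    calc (1 / 24 - (4 * (δ + b) + 72 / B0)) * (C * C * LL) =
          LL * ((1 / 24 - (4 * (δ + b) + 72 / B0)) * (C * C)) := by ring
      _ ≤ LL * (1 / 2 * (∑ x, ∑ y, Np p s (fun i => vec q (G x) i - vec q (G y) i)) -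
          C * ∑ x, (4 * (δ + b) + 12 * QQ k (vec q (G x)) / B0)) :=
          mul_le_mul_of_nonneg_left h8 hLL0.le
      _ = _ := by ring
  · -- diagonal term
    rw [div_le_iff₀ (by positivity)]
    have hpt : ∀ x u, u ∈ Box (Fin k → Bool) L →
        ‖F (Sum.inl (G x)) - F (Sum.inr (G x + lin (Wal k) u))‖ ^ p ≤
        D ^ p * (4 * (δ + b) + 12 * QQ k (vec q (G x)) / B0) := by
      intro x u hu
      have hnn : 0 ≤ ‖F (Sum.inl (G x)) - F (Sum.inr (G x + lin (Wal k) u))‖ :=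
        (hdn _ _).trans (hF1 _ (hP1 x) _ (hP2 x u hu))
      have h1 := Real.rpow_le_rpow hnn (hF2 (Sum.inl (G x)) (hP1 x)
        (Sum.inr (G x + lin (Wal k) u)) (hP2 x u hu)) (by linarith : 0 ≤ p)
      rw [Real.mul_rpow (by linarith) (hdn _ _)] at h1
      exact h1.trans (mul_le_mul_of_nonneg_left (hE (G x) u hu) hDp.le)
    have hsum := Finset.sum_le_sum fun x (_ : x ∈ (Finset.univ :
      Finset (Fin m × (Fin k → Bool) → Bool))) =>
        Finset.sum_le_sum fun u (hu : u ∈ Box (Fin k → Bool) L) => hpt x u hu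
    refine hsum.trans ?_
    simp only [sum_const_box, ← Finset.mul_sum]
    calc D ^ p * (LL * ∑ x, (4 * (δ + b) + 12 * QQ k (vec q (G x)) / B0)) ≤
          D ^ p * (LL * (C * (4 * (δ + b) + 72 / B0))) :=
          mul_le_mul_of_nonneg_left (mul_le_mul_of_nonneg_left hEsum hLL0.le) hDp.le
      _ = _ := by ring
  · -- inner term
    rw [div_le_iff₀ (by positivity)]
    have hpt : ∀ x y u u', u ∈ Box (Fin k → Bool) L → u' ∈ Box (Fin k → Bool) L →
        ‖F (Sum.inr (G x + lin (Wal k) u)) - F (Sum.inr (G y + lin (Wal k) u'))‖ ^ p ≤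
        D ^ p * (4 + 3 * ((∑ i, vec q (G x) i ^ 2) / (Fintype.card (Fin k → Bool) : ℝ)) +
          3 * ((∑ i, vec q (G y) i ^ 2) / (Fintype.card (Fin k → Bool) : ℝ))) := by
      intro x y u u' hu hu'
      have hnn : 0 ≤ ‖F (Sum.inr (G x + lin (Wal k) u)) - F (Sum.inr (G y + lin (Wal k) u'))‖ :=
        (hdn _ _).trans (hF1 _ (hP2 x u hu) _ (hP2 y u' hu'))
      have h1 := Real.rpow_le_rpow hnn (hF2 (Sum.inr (G x + lin (Wal k) u)) (hP2 x u hu)
        (Sum.inr (G y + lin (Wal k) u')) (hP2 y u' hu')) (by linarith : 0 ≤ p)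
      rw [Real.mul_rpow (by linarith) (hdn _ _), hM2] at h1
      exact h1.trans (mul_le_mul_of_nonneg_left
        (inner_bound hp1 hp2 hs hq1 (G x) (G y) u u' hu hu') hDp.le)
    have hsum := Finset.sum_le_sum fun x (_ : x ∈ (Finset.univ :
      Finset (Fin m × (Fin k → Bool) → Bool))) =>
      Finset.sum_le_sum fun y (_ : y ∈ (Finset.univ :
        Finset (Fin m × (Fin k → Bool) → Bool))) =>
        Finset.sum_le_sum fun u (hu : u ∈ Box (Fin k → Bool) L) =>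
          Finset.sum_le_sum fun u' (hu' : u' ∈ Box (Fin k → Bool) L) => hpt x y u u' hu hu'
    refine hsum.trans ?_
    have hμ : ∑ x, (∑ i, vec q (G x) i ^ 2) / (Fintype.card (Fin k → Bool) : ℝ) = C :=
      mom_two' hk hm
    simp only [sum_const_box, ← Finset.mul_sum, Finset.sum_add_distrib, sum_const_cube]
    rw [hμ]
    refine le_of_eq ?_
    ring

lemma exp_bound {N : ℕ} (hN : 0 < N) :
    (((2 * N : ℕ) : ℝ) + 2) ^ N / ((2 * N : ℕ) : ℝ) ^ N ≤ 3 := by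
  have hN' : (0 : ℝ) < N := by exact_mod_cast hN
  rw [← div_pow]
  have e : (((2 * N : ℕ) : ℝ) + 2) / ((2 * N : ℕ) : ℝ) = 1 / (N : ℝ) + 1 := by
    push_cast
    field_simp
    ring
  rw [e]
  have h1 : (1 / (N : ℝ) + 1) ^ N ≤ (Real.exp (1 / N)) ^ N :=
    pow_le_pow_left₀ (by positivity) (Real.add_one_le_exp _) N
  rw [← Real.exp_nat_mul, mul_one_div_cancel hN'.ne'] at h1
  have := Real.exp_one_lt_d9
  linarith

lemma two_rpow_le {p : ℝ} (hp2 : p < 2) : (2 : ℝ) ^ p ≤ 4 := by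
  have := Real.rpow_le_rpow_of_exponent_le (by norm_num : (1 : ℝ) ≤ 2) hp2.le
  rw [Real.rpow_two] at this
  linarith

lemma three_rpow_le {p : ℝ} (hp2 : p < 2) : (3 : ℝ) ^ p ≤ 9 := by
  have := Real.rpow_le_rpow_of_exponent_le (by norm_num : (1 : ℝ) ≤ 3) hp2.le
  rw [Real.rpow_two] at this
  linarith

lemma UU_le {p : ℝ} (hp1 : 1 ≤ p) (hp2 : p < 2) (hm : 0 < m) {A B : ℝ} (hA : 0 ≤ A) (hB : 0 ≤ B) :
    (√m) ^ p * ((Fintype.card (Fin k → Bool) : ℝ) * (A * (B * (|qq k m * (2 : ℝ) ^ k| ^ p /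
      Fintype.card (Fin k → Bool))))) ≤ 9 * (A * B) := by
  have hm' : (0 : ℝ) < √m := Real.sqrt_pos.2 (by exact_mod_cast hm)
  have hn : (0 : ℝ) < Fintype.card (Fin k → Bool) := by exact_mod_cast Fintype.card_pos
  have e1 : qq k m * (2 : ℝ) ^ k = 2 / √m := by
    unfold qq
    field_simp
  rw [e1, abs_of_pos (by positivity), Real.div_rpow (by norm_num) hm'.le]
  have h1 : 0 < (√(m : ℝ)) ^ p := Real.rpow_pos_of_pos hm' _
  have e2 : (√m) ^ p * ((Fintype.card (Fin k → Bool) : ℝ) * (A * (B * ((2 : ℝ) ^ p / (√m) ^ p /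
      Fintype.card (Fin k → Bool))))) = (2 : ℝ) ^ p * (A * B) := by
    field_simp
  rw [e2]
  have := two_rpow_le hp2
  exact mul_le_mul_of_nonneg_right (by linarith) (by positivity)

lemma VV_le {p : ℝ} (hp1 : 1 ≤ p) (hp2 : p < 2) (hm : 0 < m) {L : ℕ} (hL : L = 2 * 2 ^ k)
    {A B : ℝ} (hA : 0 ≤ A) (hB : 0 ≤ B) :
    ((√m * (Fintype.card (Fin k → Bool) : ℝ) ^ (1 / p - 1 / 2) /
        (2 * (L : ℝ) ^ Fintype.card (Fin k → Bool))) ^ p *
      ((Fintype.card (Fin k → Bool) : ℝ) * ((L : ℝ) + 2) ^ Fintype.card (Fin k → Bool)) ^ (p - 1)) *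
      ((Fintype.card (Fin k → Bool) : ℝ) * ((L : ℝ) + 2) ^ Fintype.card (Fin k → Bool) *
        (A * (B * (|qq k m * √((2 : ℝ) ^ k)| ^ p / Fintype.card (Fin k → Bool))))) ≤
      9 * (A * B) := by
  have hm' : (0 : ℝ) < √m := Real.sqrt_pos.2 (by exact_mod_cast hm)
  have hcard : Fintype.card (Fin k → Bool) = 2 ^ k := by simp
  have hnR : (Fintype.card (Fin k → Bool) : ℝ) = (2 : ℝ) ^ k := card_Ik
  have hq := qq_pos (k := k) hm
  have hLpos : (0 : ℝ) < L := by rw [hL]; positivity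
  have hr := exp_bound (N := Fintype.card (Fin k → Bool)) Fintype.card_pos
  rw [hcard, ← hL] at hr
  rw [hnR, hcard]
  set n : ℝ := (2 : ℝ) ^ k with hn
  have hn0 : 0 < n := by positivity
  set P : ℝ := ((L : ℝ) + 2) ^ 2 ^ k with hP
  set Q : ℝ := (L : ℝ) ^ 2 ^ k with hQ
  have hP0 : 0 < P := by positivity
  have hQ0 : 0 < Q := by positivity
  rw [abs_of_pos (by positivity)]
  have hnP : 0 < n * P := by positivity
  have e1 : (n * P) ^ (p - 1) * (n * P) = (n * P) ^ p := by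
    rw [← Real.rpow_add_one hnP.ne']; congr 1; ring
  have e2 : √m * n ^ (1 / p - 1 / 2) / (2 * Q) * (n * P) * (qq k m * √n) =
      n ^ (1 / p) * (P / Q) := by
    have e3 : n ^ (1 / p) = n ^ (1 / p - 1 / 2) * √n := by
      rw [Real.sqrt_eq_rpow, ← Real.rpow_add hn0]; congr 1; ring
    rw [e3]
    unfold qq
    rw [← hn]
    field_simp
  have e4 : (√m * n ^ (1 / p - 1 / 2) / (2 * Q)) ^ p * (n * P) ^ (p - 1) *
      (n * P * (A * (B * ((qq k m * √n) ^ p / n)))) =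
      (P / Q) ^ p * (A * B) := by
    calc _ = (√m * n ^ (1 / p - 1 / 2) / (2 * Q)) ^ p * ((n * P) ^ (p - 1) * (n * P)) *
          (qq k m * √n) ^ p / n * (A * B) := by ring
      _ = (√m * n ^ (1 / p - 1 / 2) / (2 * Q) * (n * P) * (qq k m * √n)) ^ p / n * (A * B) := by
          rw [e1, ← Real.mul_rpow (by positivity) hnP.le,
            ← Real.mul_rpow (by positivity) (by positivity)]
      _ = (n ^ (1 / p)) ^ p * (P / Q) ^ p / n * (A * B) := by
          rw [e2, Real.mul_rpow (by positivity) (by positivity)]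
      _ = (P / Q) ^ p * (A * B) := by
          rw [← Real.rpow_mul hn0.le, one_div_mul_cancel (by linarith), Real.rpow_one]
          field_simp
  rw [e4]
  have h5 : (P / Q) ^ p ≤ 9 :=
    (Real.rpow_le_rpow (by positivity) hr (by linarith)).trans (three_rpow_le hp2)
  exact mul_le_mul_of_nonneg_right h5 (by positivity)

/-- the final inequality -/
theorem main_ineq {p : ℝ} (hp1 : 1 ≤ p) (hp2 : p < 2) {D δ b B0 kap eps : ℝ} {s L : ℕ}
    (hD : 1 ≤ D) (hs : 0 < s) (hk : 0 < k) (hm : 0 < m) (hL : L = 2 * 2 ^ k) (hB0 : 1 ≤ B0)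
    (hδ : 0 < δ) (hb : 0 ≤ b) (hδb : δ + b ≤ 1) (hkap : 0 < kap) (heps : 0 < eps)
    (hq1 : qq k m ^ 2 * (2 : ℝ) ^ k * (L : ℝ) ^ 2 ≤ 1)
    (hq2 : √s * (qq k m * √((2 : ℝ) ^ k) * L) ≤ b)
    (M : MetricSpace (((Fin k → Bool) → ℤ) ⊕ ((Fin k → Bool) → ℤ)))
    (hM1 : ∀ a b, M.dist (Sum.inl a) (Sum.inl b) =
      ‖phi p s (qq k m) a - phi p s (qq k m) b‖)
    (hM2 : ∀ a b, M.dist (Sum.inr a) (Sum.inr b) =
      ‖psi p s (qq k m) a - psi p s (qq k m) b‖)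
    (hM3 : ∀ a b, ∀ z, QQ k (vec (qq k m) z) ≤ B0 ^ 2 → M.dist (Sum.inl a) (Sum.inr b) ≤
        ‖phi p s (qq k m) a - phi p s (qq k m) z‖ +
          ‖psi p s (qq k m) b - psi p s (qq k m) z‖ + δ)
    (P : Set (((Fin k → Bool) → ℤ) ⊕ ((Fin k → Bool) → ℤ)))
    (hP1 : ∀ x : Fin m × (Fin k → Bool) → Bool, Sum.inl (gg (2 ^ (k - 1)) x) ∈ P)
    (hP2 : ∀ (x : Fin m × (Fin k → Bool) → Bool) (i : Fin k → Bool),
      Sum.inl (gg (2 ^ (k - 1)) x + Pi.single i (2 * 2 ^ (k - 1))) ∈ P)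
    (hP3 : ∀ (x : Fin m × (Fin k → Bool) → Bool) (i : Fin k → Bool),
      Sum.inl (gg (2 ^ (k - 1)) x - Pi.single i (2 * 2 ^ (k - 1))) ∈ P)
    (hP4 : ∀ x : Fin m × (Fin k → Bool) → Bool, ∀ u ∈ BoxP (Fin k → Bool) L,
      Sum.inr (gg (2 ^ (k - 1)) x + lin (Wal k) u) ∈ P)
    (hP5 : ∀ x : Fin m × (Fin k → Bool) → Bool, ∀ u ∈ BoxP (Fin k → Bool) L,
      ∀ j : Fin k → Bool,
      Sum.inr (gg (2 ^ (k - 1)) x + lin (Wal k) u + lin (Wal k) (Pi.single j 1)) ∈ P)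
    (F : ((Fin k → Bool) → ℤ) ⊕ ((Fin k → Bool) → ℤ) → ellp p)
    (hF1 : ∀ x ∈ P, ∀ y ∈ P, M.dist x y ≤ ‖F x - F y‖)
    (hF2 : ∀ x ∈ P, ∀ y ∈ P, ‖F x - F y‖ ≤ D * M.dist x y) :
    1 / 2 * (1 / 24 - (4 * (δ + b) + 72 / B0)) ≤
      1 / 2 * (D ^ p * (4 * (δ + b) + 72 / B0)) + (4 * kap)⁻¹ * (D ^ p * 10) +
      (cp p)⁻¹ * (kap / 2 * (eps ^ (2 - p) / (2 - p)) * (9 * (D ^ p * (s : ℝ) ^ (p / 2))) +
        8 * eps ^ (-(p - 1 / 2)) * ((2 : ℝ) ^ k) ^ (-gam p) *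
          (9 * (D ^ p * (s : ℝ) ^ (p / 2)) + 9 * (D ^ p * (s : ℝ) ^ (p / 2)))) := by
  have hcp := cp_pos (p := p) (by linarith) hp2
  have hLpos : 0 < L := by rw [hL]; positivity
  have hDp : 0 < D ^ p := Real.rpow_pos_of_pos (by linarith) _
  have hsp : 0 ≤ (s : ℝ) ^ (p / 2) := by positivity
  have hdn : ∀ x y, 0 ≤ M.dist x y := fun x y => @dist_nonneg _ M.toPseudoMetricSpace _ _
  have hBP : ∀ u ∈ Box (Fin k → Bool) L, u ∈ BoxP (Fin k → Bool) L := by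
    intro u hu
    rw [mem_Box] at hu
    rw [mem_BoxP]
    intro j
    have := hu j
    omega
  obtain ⟨a1, a2, a3⟩ := three_avg hp1 hp2 hD hs hk hm hLpos hB0 hδ hb hδb hq1 hq2 M hM1 hM2 hM3
    P hP1 (fun x u hu => hP4 x u (hBP u hu)) F hF1 hF2
  have h2k : (2 : ℤ) * 2 ^ (k - 1) = 2 ^ k := by
    rw [← pow_succ']; congr 1; omega
  have horth : ∀ i i' : Fin k → Bool, ∑ j, Wal k i j * Wal k i' j =
      if i = i' then 2 * 2 ^ (k - 1) else 0 := by
    intro i i'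
    rw [h2k]
    exact Wal_orth k i i'
  have hA0 : ∀ (g : (Fin k → Bool) → ℤ) i, Sum.inl g ∈ P →
      Sum.inl (g + Pi.single i (2 * 2 ^ (k - 1))) ∈ P →
      ‖F (Sum.inl (g + Pi.single i (2 * 2 ^ (k - 1)))) - F (Sum.inl g)‖ ^ p ≤
      D ^ p * ((s : ℝ) ^ (p / 2) * (|qq k m * (2 : ℝ) ^ k| ^ p /
        Fintype.card (Fin k → Bool))) := by
    intro g i hg1 hg2
    have hnn : 0 ≤ ‖F (Sum.inl (g + Pi.single i (2 * 2 ^ (k - 1)))) - F (Sum.inl g)‖ :=
      (hdn _ _).trans (hF1 _ hg2 _ hg1)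
    have h1 := Real.rpow_le_rpow hnn (hF2 (Sum.inl (g + Pi.single i (2 * 2 ^ (k - 1)))) hg2
        (Sum.inl g) hg1) (by linarith : 0 ≤ p)
    rw [Real.mul_rpow (by linarith) (hdn _ _), hM1, phi_sub hp1, vec_add_sub] at h1
    refine h1.trans (mul_le_mul_of_nonneg_left ?_ hDp.le)
    have e1 : vec (qq k m) (Pi.single i (2 * 2 ^ (k - 1)) : (Fin k → Bool) → ℤ) =
        fun j => if j = i then qq k m * (2 : ℝ) ^ k else 0 := by
      funext j
      unfold vec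
      rw [h2k]
      by_cases hj : j = i
      · subst hj; simp
      · simp [hj]
    rw [e1]
    exact Np_single_le hp1 hs _ i
  have hA : ∀ (x : Fin m × (Fin k → Bool) → Bool) i,
      ‖(fun g => F (Sum.inl g)) (gg (2 ^ (k - 1)) x + Pi.single i (2 * 2 ^ (k - 1))) -
        (fun g => F (Sum.inl g)) (gg (2 ^ (k - 1)) x)‖ ^ p ≤
      D ^ p * ((s : ℝ) ^ (p / 2) * (|qq k m * (2 : ℝ) ^ k| ^ p /
        Fintype.card (Fin k → Bool))) := fun x i => hA0 _ i (hP1 x) (hP2 x i)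
  have hA' : ∀ (x : Fin m × (Fin k → Bool) → Bool) i,
      ‖(fun g => F (Sum.inl g)) (gg (2 ^ (k - 1)) x) -
        (fun g => F (Sum.inl g)) (gg (2 ^ (k - 1)) x - Pi.single i (2 * 2 ^ (k - 1)))‖ ^ p ≤
      D ^ p * ((s : ℝ) ^ (p / 2) * (|qq k m * (2 : ℝ) ^ k| ^ p /
        Fintype.card (Fin k → Bool))) := by
    intro x i
    have h1 := hA0 (gg (2 ^ (k - 1)) x - Pi.single i (2 * 2 ^ (k - 1))) i (hP3 x i)
    rw [sub_add_cancel] at h1
    exact h1 (hP1 x)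
  have hB : ∀ (x : Fin m × (Fin k → Bool) → Bool) u, u ∈ BoxP (Fin k → Bool) L → ∀ j,
      ‖(fun g => F (Sum.inr g)) (gg (2 ^ (k - 1)) x + lin (Wal k) u +
          lin (Wal k) (Pi.single j 1)) -
        (fun g => F (Sum.inr g)) (gg (2 ^ (k - 1)) x + lin (Wal k) u)‖ ^ p ≤
      D ^ p * ((s : ℝ) ^ (p / 2) * (|qq k m * √((2 : ℝ) ^ k)| ^ p /
        Fintype.card (Fin k → Bool))) := by
    intro x u hu i
    have g1 := hP4 x u hu
    have g2 := hP5 x u hu i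
    set g := gg (2 ^ (k - 1)) x + lin (Wal k) u with hg
    have hnn : 0 ≤ ‖F (Sum.inr (g + lin (Wal k) (Pi.single i 1))) - F (Sum.inr g)‖ :=
      (hdn _ _).trans (hF1 _ g2 _ g1)
    have h1 := Real.rpow_le_rpow hnn (hF2 (Sum.inr (g + lin (Wal k) (Pi.single i 1))) g2
        (Sum.inr g) g1) (by linarith : 0 ≤ p)
    rw [Real.mul_rpow (by linarith) (hdn _ _), hM2, psi_sub hp1, vec_add_sub, Uv_lin] at h1
    refine h1.trans (mul_le_mul_of_nonneg_left ?_ hDp.le)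
    have e1 : (fun j => qq k m * √((2 : ℝ) ^ k) *
        (((Pi.single i 1 : (Fin k → Bool) → ℤ) j : ℤ) : ℝ)) =
        fun j => if j = i then qq k m * √((2 : ℝ) ^ k) else 0 := by
      funext j
      by_cases hj : j = i
      · subst hj; simp
      · simp [hj]
    rw [e1]
    exact Np_single_le hp1 hs _ i
  have key := lp_ineq (m := m) (ι := Fin k → Bool) hp1 hp2 hm hkap heps hLpos
    (Wal_pm k) horth (fun g => F (Sum.inl g)) (fun g => F (Sum.inr g)) hA hA' hB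
  have hUU := UU_le (k := k) (m := m) hp1 hp2 hm hDp.le hsp
  have hVV := VV_le (k := k) (m := m) hp1 hp2 hm hL hDp.le hsp
  have c1 : 0 ≤ kap / 2 * (eps ^ (2 - p) / (2 - p)) := by
    have : 0 < 2 - p := by linarith
    positivity
  have c2 : 0 ≤ 8 * eps ^ (-(p - 1 / 2)) *
      ((Fintype.card (Fin k → Bool) : ℕ) : ℝ) ^ (-gam p) := by positivity
  have t4 := mul_le_mul_of_nonneg_left (add_le_add (mul_le_mul_of_nonneg_left hUU c1)
    (mul_le_mul_of_nonneg_left (add_le_add hUU hVV) c2)) (inv_nonneg.2 hcp.le)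
  have hk4 : 0 ≤ (4 * kap)⁻¹ := by positivity
  have t1 := mul_le_mul_of_nonneg_left a1 (by norm_num : (0 : ℝ) ≤ 1 / 2)
  have t2 := mul_le_mul_of_nonneg_left a2 (by norm_num : (0 : ℝ) ≤ 1 / 2)
  have t3 := mul_le_mul_of_nonneg_left a3 hk4
  rw [← card_Ik (k := k)]
  exact t1.trans (key.trans (add_le_add (add_le_add t2 t3) t4))

end asm2

end Pool.Agent.W533.U
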