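import Mathlib

set_option autoImplicit false
set_option linter.unusedSectionVars false
set_option linter.unusedSimpArgs false

/-!
The integral representation of `|y|^p`, `0 < p < 2`.
-/

open MeasureTheory Set

namespace Pool.Agent.W533.U

lemma one_sub_cos_le (y : ℝ) : 1 - Real.cos y ≤ y ^ 2 / 2 := by
  have := Real.one_sub_sq_div_two_le_cos (x := y); linarith

lemma one_sub_cos_le_two (y : ℝ) : 1 - Real.cos y ≤ 2 := by
  have := Real.neg_one_le_cos y; linarith

lemma one_sub_cos_nonneg (y : ℝ) : 0 ≤ 1 - Real.cos y := by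
  have := Real.cos_le_one y; linarith

lemma integrableOn_rpow_zero {a c : ℝ} (ha : -1 < a) (hc : 0 ≤ c) :
    IntegrableOn (fun t : ℝ => t ^ a) (Ioc 0 c) := by
  have := intervalIntegral.intervalIntegrable_rpow' (a := 0) (b := c) ha
  rwa [intervalIntegrable_iff_integrableOn_Ioc_of_le hc] at this

lemma integral_rpow_zero {a c : ℝ} (ha : -1 < a) (hc : 0 ≤ c) :
    ∫ t in Ioc 0 c, t ^ a = c ^ (a + 1) / (a + 1) := by
  have h := integral_rpow (a := 0) (b := c) (r := a) (Or.inl ha)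
  rw [intervalIntegral.integral_of_le hc] at h
  rw [h, Real.zero_rpow (by linarith)]
  ring

lemma measurable_cosint (p y : ℝ) :
    Measurable (fun t : ℝ => (1 - Real.cos (t * y)) * t ^ (-1 - p)) := by
  fun_prop

lemma integrableOn_cosint {p : ℝ} (hp0 : 0 < p) (hp2 : p < 2) (y : ℝ) :
    IntegrableOn (fun t : ℝ => (1 - Real.cos (t * y)) * t ^ (-1 - p)) (Ioi 0) := by
  have hsplit : (Ioi (0 : ℝ)) = Ioc 0 1 ∪ Ioi 1 := (Ioc_union_Ioi_eq_Ioi zero_le_one).symm
  rw [hsplit]
  refine IntegrableOn.union ?_ ?_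
  · have h1 : IntegrableOn (fun t : ℝ => (y ^ 2 / 2) * t ^ (1 - p)) (Ioc 0 1) :=
      (integrableOn_rpow_zero (by linarith) zero_le_one).const_mul _
    refine Integrable.mono' h1 (measurable_cosint p y).aestronglyMeasurable ?_
    refine (ae_restrict_iff' measurableSet_Ioc).2 (Filter.Eventually.of_forall fun t ht => ?_)
    have ht0 : 0 < t := ht.1
    rw [Real.norm_eq_abs, abs_mul, abs_of_nonneg (one_sub_cos_nonneg _),
      abs_of_nonneg (Real.rpow_nonneg ht0.le _)]
    calc (1 - Real.cos (t * y)) * t ^ (-1 - p) ≤ ((t * y) ^ 2 / 2) * t ^ (-1 - p) :=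
          mul_le_mul_of_nonneg_right (one_sub_cos_le _) (Real.rpow_nonneg ht0.le _)
      _ = (y ^ 2 / 2) * (t ^ (2 : ℝ) * t ^ (-1 - p)) := by
          rw [Real.rpow_two]; ring
      _ = (y ^ 2 / 2) * t ^ (1 - p) := by
          rw [← Real.rpow_add ht0]; congr 2; ring
  · have h1 : IntegrableOn (fun t : ℝ => 2 * t ^ (-1 - p)) (Ioi 1) :=
      (integrableOn_Ioi_rpow_of_lt (by linarith) zero_lt_one).const_mul _
    refine Integrable.mono' h1 (measurable_cosint p y).aestronglyMeasurable ?_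
    refine (ae_restrict_iff' measurableSet_Ioi).2 (Filter.Eventually.of_forall fun t ht => ?_)
    have ht0 : 0 < t := lt_trans zero_lt_one ht
    rw [Real.norm_eq_abs, abs_mul, abs_of_nonneg (one_sub_cos_nonneg _),
      abs_of_nonneg (Real.rpow_nonneg ht0.le _)]
    exact mul_le_mul_of_nonneg_right (one_sub_cos_le_two _) (Real.rpow_nonneg ht0.le _)

/-- the constant -/
noncomputable def cp (p : ℝ) : ℝ := ∫ t in Ioi (0 : ℝ), (1 - Real.cos t) * t ^ (-1 - p)

lemma cp_pos {p : ℝ} (hp0 : 0 < p) (hp2 : p < 2) : 0 < cp p := by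
  unfold cp
  have hint : IntegrableOn (fun t : ℝ => (1 - Real.cos t) * t ^ (-1 - p)) (Ioi 0) := by
    have := integrableOn_cosint hp0 hp2 1
    simpa using this
  have hsub : Ioc (1 : ℝ) 2 ⊆ Ioi 0 := fun t ht => lt_trans zero_lt_one ht.1
  have h1 : ∫ t in Ioc (1 : ℝ) 2, (1 - Real.cos t) * t ^ (-1 - p) ≤
      ∫ t in Ioi (0 : ℝ), (1 - Real.cos t) * t ^ (-1 - p) := by
    refine setIntegral_mono_set hint ?_ (Filter.Eventually.of_forall hsub)
    refine (ae_restrict_iff' measurableSet_Ioi).2 (Filter.Eventually.of_forall fun t ht => ?_)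
    exact mul_nonneg (one_sub_cos_nonneg _) (Real.rpow_nonneg (le_of_lt ht) _)
  have hc1 : Real.cos 1 < 1 := by
    have := Real.cos_one_le
    linarith
  have h2 : (1 - Real.cos 1) * 2 ^ (-1 - p) * 1 ≤
      ∫ t in Ioc (1 : ℝ) 2, (1 - Real.cos t) * t ^ (-1 - p) := by
    have h3 := setIntegral_ge_of_const_le (μ := volume) (s := Ioc (1 : ℝ) 2)
      (f := fun t : ℝ => (1 - Real.cos t) * t ^ (-1 - p))
      (c := (1 - Real.cos 1) * 2 ^ (-1 - p)) measurableSet_Ioc (by simp) (by
        intro t ht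
        have ht0 : 0 < t := lt_trans zero_lt_one ht.1
        have e1 : Real.cos t ≤ Real.cos 1 := by
          apply Real.cos_le_cos_of_nonneg_of_le_pi (by norm_num) (by linarith [Real.two_le_pi, ht.2]) ht.1.le
        have e2 : (2 : ℝ) ^ (-1 - p) ≤ t ^ (-1 - p) :=
          Real.rpow_le_rpow_of_nonpos ht0 ht.2 (by linarith)
        exact mul_le_mul (by linarith) e2 (by positivity) (by linarith [one_sub_cos_nonneg t]))
      (hint.mono_set hsub)
    have h4 : (volume.real (Ioc (1 : ℝ) 2)) = 1 := by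
      rw [Measure.real, Real.volume_Ioc]; norm_num
    rw [h4, one_smul] at h3
    rw [mul_one]
    exact h3
  have h5 : 0 < (1 - Real.cos 1) * (2 : ℝ) ^ (-1 - p) * 1 := by
    have : (0 : ℝ) < 2 ^ (-1 - p) := by positivity
    have : 0 < 1 - Real.cos 1 := by linarith
    positivity
  linarith

/-- **integral representation** -/
lemma cosint_eq {p : ℝ} (hp0 : 0 < p) (y : ℝ) :
    ∫ t in Ioi (0 : ℝ), (1 - Real.cos (t * y)) * t ^ (-1 - p) = cp p * |y| ^ p := by
  have hpos : ∀ y : ℝ, 0 < y →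
      ∫ t in Ioi (0 : ℝ), (1 - Real.cos (t * y)) * t ^ (-1 - p) = cp p * y ^ p := by
    intro y hy
    have h := integral_comp_mul_left_Ioi (fun u : ℝ => (1 - Real.cos u) * u ^ (-1 - p)) 0 hy
    rw [mul_zero, smul_eq_mul] at h
    have e1 : ∫ t in Ioi (0 : ℝ), (1 - Real.cos (y * t)) * (y * t) ^ (-1 - p) =
        y ^ (-1 - p) * ∫ t in Ioi (0 : ℝ), (1 - Real.cos (t * y)) * t ^ (-1 - p) := by
      rw [← integral_const_mul]
      refine setIntegral_congr_fun measurableSet_Ioi fun t ht => ?_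
      change (1 - Real.cos (y * t)) * (y * t) ^ (-1 - p) = _
      rw [Real.mul_rpow hy.le (le_of_lt ht), mul_comm y t]
      ring
    rw [e1] at h
    have h2 : y ^ (-1 - p) ≠ 0 := (Real.rpow_pos_of_pos hy _).ne'
    have h3 : ∫ t in Ioi (0 : ℝ), (1 - Real.cos (t * y)) * t ^ (-1 - p) =
        (y ^ (-1 - p))⁻¹ * (y⁻¹ * cp p) := by
      rw [eq_inv_mul_iff_mul_eq₀ h2]; exact h
    rw [h3, ← Real.rpow_neg hy.le, ← mul_assoc, ← Real.rpow_neg_one y, ← Real.rpow_add hy, mul_comm]
    congr 2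
    ring
  rcases lt_trichotomy y 0 with h | h | h
  · have := hpos (-y) (by linarith)
    rw [abs_of_neg h, ← this]
    refine setIntegral_congr_fun measurableSet_Ioi fun t ht => ?_
    change (1 - Real.cos (t * y)) * t ^ (-1 - p) = (1 - Real.cos (t * -y)) * t ^ (-1 - p)
    rw [mul_neg, Real.cos_neg]
  · subst h
    simp [Real.zero_rpow hp0.ne']
  · rw [abs_of_pos h]; exact hpos y h

end Pool.Agent.W533.U
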