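import Mathlib

set_option autoImplicit false
set_option linter.unusedSectionVars false
set_option linter.unusedSimpArgs false

/-!
Analysis on the discrete cube: product kernels, noise operators, the derivative formula and a
pointwise Bessel inequality.
-/

open Finset

namespace Pool.Agent.W533.U

/-- sign of a bit -/
def sg (b : Bool) : ℝ := if b then 1 else -1

lemma sg_true : sg true = 1 := by simp [sg]

lemma sg_false : sg false = -1 := by simp [sg]

lemma sg_sq (b : Bool) : sg b * sg b = 1 := by cases b <;> simp [sg]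

lemma sg_not (b : Bool) : sg (!b) = - sg b := by cases b <;> simp [sg]

lemma abs_sg (b : Bool) : |sg b| = 1 := by cases b <;> simp [sg]

lemma sum_sg (f : Bool → ℝ) : ∑ b, f b = f true + f false := by
  simp

variable {β : Type} [Fintype β] [DecidableEq β]

/-- the product kernel -/
noncomputable def Ker (ρ : ℝ) (x y : β → Bool) : ℝ := ∏ b, (1 + ρ * (sg (x b) * sg (y b)))

/-- flip a bit -/
def fl (b : β) (x : β → Bool) : β → Bool := Function.update x b (!(x b))

lemma fl_same (b : β) (x : β → Bool) : fl b x b = !(x b) := by simp [fl]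

lemma fl_ne {b c : β} (h : c ≠ b) (x : β → Bool) : fl b x c = x c := by simp [fl, h]

lemma fl_fl (b : β) (x : β → Bool) : fl b (fl b x) = x := by
  funext c
  by_cases h : c = b
  · subst h; simp [fl]
  · simp [fl, h]

/-- flipping as an equivalence -/
def flE (b : β) : (β → Bool) ≃ (β → Bool) :=
  ⟨fl b, fl b, fl_fl b, fl_fl b⟩

lemma sum_fl (b : β) (φ : (β → Bool) → ℝ) : ∑ x, φ (fl b x) = ∑ x, φ x :=
  Equiv.sum_comp (flE b) φ

/-- the number of points of the cube -/
noncomputable def cN (β : Type) [Fintype β] : ℝ := (2 : ℝ) ^ Fintype.card β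

lemma cN_pos : 0 < cN β := by unfold cN; positivity

lemma sum_one_cube : ∑ _x : β → Bool, (1 : ℝ) = cN β := by
  simp [cN]

/-- discrete derivative -/
noncomputable def Dd (b : β) (φ : (β → Bool) → ℝ) (x : β → Bool) : ℝ :=
  sg (x b) * (φ x - φ (fl b x)) / 2

lemma Dd_fl (b : β) (φ : (β → Bool) → ℝ) (x : β → Bool) : Dd b φ (fl b x) = Dd b φ x := by
  unfold Dd
  rw [fl_fl, fl_same, sg_not]
  ring

lemma prod_sum_bool (f : β → Bool → ℝ) : ∑ x : β → Bool, ∏ b, f b (x b) = ∏ b, (f b true + f b false) := by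
  classical
  have := Finset.prod_univ_sum (fun _ : β => (Finset.univ : Finset Bool)) (fun b c => f b c)
  rw [Fintype.piFinset_univ] at this
  rw [← this]
  refine Finset.prod_congr rfl fun b _ => ?_
  exact sum_sg _

lemma sum_Ker (r : ℝ) (X : β → Bool) : ∑ x, Ker r X x = cN β := by
  unfold Ker
  rw [prod_sum_bool (fun b c => 1 + r * (sg (X b) * sg c))]
  have : ∀ b, (1 + r * (sg (X b) * sg true)) + (1 + r * (sg (X b) * sg false)) = 2 := by
    intro b; simp [sg]; ring
  simp_rw [this]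
  simp [cN]

lemma Ker_symm (r : ℝ) (X x : β → Bool) : Ker r X x = Ker r x X := by
  unfold Ker
  refine Finset.prod_congr rfl fun b _ => ?_
  ring

lemma sum_Ker' (r : ℝ) (X : β → Bool) : ∑ x, Ker r x X = cN β := by
  simp_rw [Ker_symm r _ X]; exact sum_Ker r X

lemma Ker_comp (r : ℝ) (x y : β → Bool) :
    ∑ X, Ker r X x * Ker r X y = cN β * Ker (r * r) x y := by
  unfold Ker
  simp_rw [← Finset.prod_mul_distrib]
  rw [prod_sum_bool (fun b c => (1 + r * (sg c * sg (x b))) * (1 + r * (sg c * sg (y b))))]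
  have : ∀ b, (1 + r * (sg true * sg (x b))) * (1 + r * (sg true * sg (y b))) +
      (1 + r * (sg false * sg (x b))) * (1 + r * (sg false * sg (y b))) =
      2 * (1 + r * r * (sg (x b) * sg (y b))) := by
    intro b; rw [sg_true, sg_false]; ring
  simp_rw [this]
  rw [Finset.prod_mul_distrib]
  simp [cN]

lemma Ker_nonneg {r : ℝ} (h0 : 0 ≤ r) (h1 : r ≤ 1) (x y : β → Bool) : 0 ≤ Ker r x y := by
  unfold Ker
  refine Finset.prod_nonneg fun b _ => ?_
  have : |sg (x b) * sg (y b)| = 1 := by rw [abs_mul, abs_sg, abs_sg, mul_one]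
  have h2 := neg_abs_le (sg (x b) * sg (y b))
  rw [this] at h2
  nlinarith

lemma Ker_zero (x y : β → Bool) : Ker 0 x y = 1 := by simp [Ker]

lemma Ker_one_self (x : β → Bool) : Ker 1 x x = cN β := by
  unfold Ker
  simp_rw [sg_sq]
  norm_num [cN]

lemma Ker_one_ne {x y : β → Bool} (h : x ≠ y) : Ker 1 x y = 0 := by
  obtain ⟨b, hb⟩ := Function.ne_iff.1 h
  unfold Ker
  apply Finset.prod_eq_zero (Finset.mem_univ b)
  have : y b = !(x b) := by
    revert hb; cases x b <;> cases y b <;> simp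
  rw [this, sg_not]
  have := sg_sq (x b)
  linarith

/-- the kernel with one factor removed -/
noncomputable def KerE (ρ : ℝ) (b : β) (x y : β → Bool) : ℝ :=
  ∏ c ∈ Finset.univ.erase b, (1 + ρ * (sg (x c) * sg (y c)))

lemma Ker_eq (ρ : ℝ) (b : β) (x y : β → Bool) :
    Ker ρ x y = (1 + ρ * (sg (x b) * sg (y b))) * KerE ρ b x y := by
  unfold Ker KerE
  exact (Finset.mul_prod_erase _ (fun b => 1 + ρ * (sg (x b) * sg (y b))) (Finset.mem_univ b)).symm

lemma KerE_fl_left (ρ : ℝ) (b : β) (x y : β → Bool) : KerE ρ b (fl b x) y = KerE ρ b x y := by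
  unfold KerE
  refine Finset.prod_congr rfl fun c hc => ?_
  rw [fl_ne (Finset.ne_of_mem_erase hc)]

lemma KerE_fl_right (ρ : ℝ) (b : β) (x y : β → Bool) : KerE ρ b x (fl b y) = KerE ρ b x y := by
  unfold KerE
  refine Finset.prod_congr rfl fun c hc => ?_
  rw [fl_ne (Finset.ne_of_mem_erase hc)]

/-- the derivative of the kernel -/
noncomputable def dKer (ρ : ℝ) (x y : β → Bool) : ℝ :=
  ∑ b, sg (x b) * sg (y b) * KerE ρ b x y

lemma hasDerivAt_Ker (ρ : ℝ) (x y : β → Bool) :
    HasDerivAt (fun ρ => Ker ρ x y) (dKer ρ x y) ρ := by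
  unfold Ker dKer
  have h := HasDerivAt.fun_finset_prod (u := (Finset.univ : Finset β))
    (f := fun b ρ => 1 + ρ * (sg (x b) * sg (y b)))
    (f' := fun b => sg (x b) * sg (y b)) (x := ρ) (by
      intro b _
      have := ((hasDerivAt_id ρ).mul_const (sg (x b) * sg (y b))).const_add 1
      simpa using this)
  refine h.congr_deriv ?_
  refine Finset.sum_congr rfl fun b _ => ?_
  unfold KerE
  rw [smul_eq_mul, mul_comm]

/-- averaging over a flip -/
lemma sum_avg (b : β) (φ : (β → Bool) → ℝ) : ∑ x, φ x = ∑ x, (φ x + φ (fl b x)) / 2 := by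
  simp_rw [add_div]
  rw [Finset.sum_add_distrib, ← Finset.sum_div, ← Finset.sum_div, sum_fl]
  ring

lemma key_left (ρ : ℝ) (b : β) (φ : (β → Bool) → ℝ) (y : β → Bool) :
    ∑ x, φ x * (sg (x b) * sg (y b) * KerE ρ b x y) =
      sg (y b) * ∑ x, Dd b φ x * KerE ρ b x y := by
  rw [sum_avg b, Finset.mul_sum]
  refine Finset.sum_congr rfl fun x _ => ?_
  rw [KerE_fl_left, fl_same, sg_not]
  unfold Dd
  ring

lemma key_right (ρ : ℝ) (b : β) (φ : (β → Bool) → ℝ) (y : β → Bool)
    (hφ : ∀ x, φ (fl b x) = φ x) :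
    ∑ x, φ x * Ker ρ x y = ∑ x, φ x * KerE ρ b x y := by
  rw [sum_avg b]
  refine Finset.sum_congr rfl fun x _ => ?_
  rw [hφ, Ker_eq ρ b, Ker_eq ρ b, KerE_fl_left, fl_same, sg_not]
  ring

lemma key_right' (ρ : ℝ) (b : β) (φ : (β → Bool) → ℝ) (x : β → Bool)
    (hφ : ∀ y, φ (fl b y) = φ y) :
    ∑ y, φ y * Ker ρ x y = ∑ y, φ y * KerE ρ b x y := by
  rw [sum_avg b]
  refine Finset.sum_congr rfl fun y _ => ?_
  rw [hφ, Ker_eq ρ b, Ker_eq ρ b, KerE_fl_right, fl_same, sg_not]
  ring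

/-- derivative formula, one coordinate -/
lemma deriv_formula_one (ρ : ℝ) (b : β) (φ ψ : (β → Bool) → ℝ) :
    ∑ x, ∑ y, φ x * ψ y * (sg (x b) * sg (y b) * KerE ρ b x y) =
      ∑ x, ∑ y, Dd b φ x * Dd b ψ y * Ker ρ x y := by
  calc ∑ x, ∑ y, φ x * ψ y * (sg (x b) * sg (y b) * KerE ρ b x y)
      = ∑ y, ψ y * ∑ x, φ x * (sg (x b) * sg (y b) * KerE ρ b x y) := by
        rw [Finset.sum_comm]
        refine Finset.sum_congr rfl fun y _ => ?_
        rw [Finset.mul_sum]
        refine Finset.sum_congr rfl fun x _ => ?_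
        ring
    _ = ∑ y, ψ y * (sg (y b) * ∑ x, Dd b φ x * KerE ρ b x y) := by simp_rw [key_left]
    _ = ∑ x, Dd b φ x * ∑ y, ψ y * (sg (y b) * KerE ρ b x y) := by
        simp_rw [Finset.mul_sum]
        rw [Finset.sum_comm]
        refine Finset.sum_congr rfl fun x _ => Finset.sum_congr rfl fun y _ => ?_
        ring
    _ = ∑ x, Dd b φ x * ∑ y, Dd b ψ y * KerE ρ b x y := by
        refine Finset.sum_congr rfl fun x _ => ?_
        congr 1
        rw [sum_avg b]
        refine Finset.sum_congr rfl fun y _ => ?_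
        rw [KerE_fl_right, fl_same, sg_not]
        unfold Dd
        ring
    _ = ∑ x, Dd b φ x * ∑ y, Dd b ψ y * Ker ρ x y := by
        refine Finset.sum_congr rfl fun x _ => ?_
        rw [key_right' ρ b (Dd b ψ) x (Dd_fl b ψ)]
    _ = ∑ y, Dd b ψ y * ∑ x, Dd b φ x * KerE ρ b x y := by
        simp_rw [Finset.mul_sum]
        rw [Finset.sum_comm]
        have : ∀ y, ∑ x, Dd b φ x * (Dd b ψ y * Ker ρ x y) = ∑ x, Dd b ψ y * (Dd b φ x * KerE ρ b x y) := by
          intro y
          rw [← Finset.mul_sum, ← key_right ρ b (Dd b φ) y (Dd_fl b φ), Finset.mul_sum]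
          refine Finset.sum_congr rfl fun x _ => ?_
          ring
        exact Finset.sum_congr rfl fun y _ => this y
    _ = ∑ y, Dd b ψ y * ∑ x, Dd b φ x * Ker ρ x y := by
        refine Finset.sum_congr rfl fun y _ => ?_
        rw [key_right ρ b (Dd b φ) y (Dd_fl b φ)]
    _ = ∑ x, ∑ y, Dd b φ x * Dd b ψ y * Ker ρ x y := by
        simp_rw [Finset.mul_sum]
        rw [Finset.sum_comm]
        refine Finset.sum_congr rfl fun x _ => Finset.sum_congr rfl fun y _ => ?_
        ring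

/-- the noise operator -/
noncomputable def Tn (r : ℝ) (φ : (β → Bool) → ℝ) (X : β → Bool) : ℝ :=
  (∑ x, φ x * Ker r X x) / cN β

/-- **derivative formula** -/
lemma deriv_formula (r : ℝ) (φ ψ : (β → Bool) → ℝ) :
    (∑ x, ∑ y, φ x * ψ y * dKer (r * r) x y) / (cN β * cN β) =
      (∑ X, ∑ b, Tn r (Dd b φ) X * Tn r (Dd b ψ) X) / cN β := by
  have h0 : cN β ≠ 0 := cN_pos.ne'
  have h1 : ∑ x, ∑ y, φ x * ψ y * dKer (r * r) x y =
      ∑ b, ∑ x, ∑ y, Dd b φ x * Dd b ψ y * Ker (r * r) x y := by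
    simp_rw [dKer, Finset.mul_sum]
    have : ∀ x : β → Bool, ∑ y, ∑ b, φ x * ψ y * (sg (x b) * sg (y b) * KerE (r * r) b x y) =
        ∑ b, ∑ y, φ x * ψ y * (sg (x b) * sg (y b) * KerE (r * r) b x y) :=
      fun x => Finset.sum_comm
    simp_rw [this]
    rw [Finset.sum_comm]
    exact Finset.sum_congr rfl fun b _ => deriv_formula_one (r * r) b φ ψ
  have h2 : ∀ b, ∑ x, ∑ y, Dd b φ x * Dd b ψ y * Ker (r * r) x y =
      (∑ X, Tn r (Dd b φ) X * Tn r (Dd b ψ) X) * cN β := by
    intro b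
    have e : ∀ X, Tn r (Dd b φ) X * Tn r (Dd b ψ) X =
        (∑ x, ∑ y, Dd b φ x * Dd b ψ y * (Ker r X x * Ker r X y)) / (cN β * cN β) := by
      intro X
      unfold Tn
      rw [div_mul_div_comm, Finset.sum_mul_sum]
      congr 1
      refine Finset.sum_congr rfl fun x _ => Finset.sum_congr rfl fun y _ => ?_
      ring
    simp_rw [e]
    have e2 : ∑ X : β → Bool, ∑ x : β → Bool, ∑ y, Dd b φ x * Dd b ψ y * (Ker r X x * Ker r X y) =
        cN β * ∑ x : β → Bool, ∑ y, Dd b φ x * Dd b ψ y * Ker (r * r) x y := by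
      rw [Finset.sum_comm, Finset.mul_sum]
      refine Finset.sum_congr rfl fun x _ => ?_
      rw [Finset.sum_comm, Finset.mul_sum]
      refine Finset.sum_congr rfl fun y _ => ?_
      rw [← Finset.mul_sum, Ker_comp]
      ring
    rw [← Finset.sum_div, e2]
    field_simp
  rw [h1]
  simp_rw [h2]
  rw [← Finset.sum_mul, Finset.sum_comm]
  field_simp

/-- formula for the smoothed derivative -/
lemma score (r : ℝ) (b : β) (φ : (β → Bool) → ℝ) (X : β → Bool) :
    ∑ x, φ x * (sg (x b) - r * sg (X b)) * Ker r X x =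
      (1 - r * r) * ∑ x, Dd b φ x * Ker r X x := by
  rw [key_right' r b (Dd b φ) X (Dd_fl b φ), sum_avg b, Finset.mul_sum]
  refine Finset.sum_congr rfl fun x _ => ?_
  rw [Ker_eq r b, Ker_eq r b, KerE_fl_right, fl_same, sg_not]
  unfold Dd
  have h1 := sg_sq (X b)
  have h2 := sg_sq (x b)
  have e1 : (sg (x b) - r * sg (X b)) * (1 + r * (sg (X b) * sg (x b))) = sg (x b) * (1 - r * r) := by
    have : (sg (x b) - r * sg (X b)) * (1 + r * (sg (X b) * sg (x b))) =
      sg (x b) + r * sg (X b) * (sg (x b) * sg (x b)) - r * sg (X b) -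
        r * r * (sg (X b) * sg (X b)) * sg (x b) := by ring
    rw [this, h1, h2]; ring
  have e2 : (-sg (x b) - r * sg (X b)) * (1 + r * (sg (X b) * -sg (x b))) = -(sg (x b) * (1 - r * r)) := by
    have : (-sg (x b) - r * sg (X b)) * (1 + r * (sg (X b) * -sg (x b))) =
      - sg (x b) + r * sg (X b) * (sg (x b) * sg (x b)) - r * sg (X b) +
        r * r * (sg (X b) * sg (X b)) * sg (x b) := by ring
    rw [this, h1, h2]; ring
  have e3 : φ x * (sg (x b) - r * sg (X b)) * ((1 + r * (sg (X b) * sg (x b))) * KerE r b X x) =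
      φ x * ((sg (x b) - r * sg (X b)) * (1 + r * (sg (X b) * sg (x b)))) * KerE r b X x := by ring
  have e4 : φ (fl b x) * (-sg (x b) - r * sg (X b)) * ((1 + r * (sg (X b) * -sg (x b))) * KerE r b X x) =
      φ (fl b x) * ((-sg (x b) - r * sg (X b)) * (1 + r * (sg (X b) * -sg (x b)))) * KerE r b X x := by
    ring
  rw [e3, e4, e1, e2]
  ring

lemma Tn_score (r : ℝ) (b : β) (φ : (β → Bool) → ℝ) (X : β → Bool) :
    (1 - r * r) * Tn r (Dd b φ) X = (∑ x, φ x * (sg (x b) - r * sg (X b)) * Ker r X x) / cN β := by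
  rw [score]
  unfold Tn
  ring

lemma Tn_const (r c : ℝ) (X : β → Bool) : Tn r (fun _ => c) X = c := by
  unfold Tn
  rw [← Finset.mul_sum, sum_Ker]
  field_simp [(cN_pos (β := β)).ne']

lemma Tn_mono {r : ℝ} (h0 : 0 ≤ r) (h1 : r ≤ 1) {φ ψ : (β → Bool) → ℝ} (h : ∀ x, φ x ≤ ψ x)
    (X : β → Bool) : Tn r φ X ≤ Tn r ψ X := by
  unfold Tn
  refine div_le_div_of_nonneg_right ?_ cN_pos.le
  exact Finset.sum_le_sum fun x _ => mul_le_mul_of_nonneg_right (h x) (Ker_nonneg h0 h1 X x)

lemma abs_Tn_le {r : ℝ} (h0 : 0 ≤ r) (h1 : r ≤ 1) {φ ψ : (β → Bool) → ℝ} (h : ∀ x, |φ x| ≤ ψ x)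
    (X : β → Bool) : |Tn r φ X| ≤ Tn r ψ X := by
  unfold Tn
  rw [abs_div, abs_of_pos cN_pos]
  refine div_le_div_of_nonneg_right ?_ cN_pos.le
  refine (Finset.abs_sum_le_sum_abs _ _).trans (Finset.sum_le_sum fun x _ => ?_)
  rw [abs_mul, abs_of_nonneg (Ker_nonneg h0 h1 X x)]
  exact mul_le_mul_of_nonneg_right (h x) (Ker_nonneg h0 h1 X x)

lemma Tn_add (r : ℝ) (φ ψ : (β → Bool) → ℝ) (X : β → Bool) :
    Tn r (fun x => φ x + ψ x) X = Tn r φ X + Tn r ψ X := by
  unfold Tn
  rw [← add_div, ← Finset.sum_add_distrib]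
  congr 1
  refine Finset.sum_congr rfl fun x _ => ?_
  ring

lemma Tn_smul (r c : ℝ) (φ : (β → Bool) → ℝ) (X : β → Bool) :
    Tn r (fun x => c * φ x) X = c * Tn r φ X := by
  unfold Tn
  rw [← mul_div_assoc, Finset.mul_sum]
  congr 1
  refine Finset.sum_congr rfl fun x _ => ?_
  ring

/-- the average of the smoothed function -/
lemma sum_Tn (r : ℝ) (φ : (β → Bool) → ℝ) : ∑ X, Tn r φ X = ∑ x, φ x := by
  unfold Tn
  rw [← Finset.sum_div, Finset.sum_comm]
  simp_rw [← Finset.mul_sum, sum_Ker']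
  rw [← Finset.sum_mul]
  field_simp [(cN_pos (β := β)).ne']

/-- Jensen for the noise operator -/
lemma Tn_rpow {r p : ℝ} (h0 : 0 ≤ r) (h1 : r ≤ 1) (hp : 1 ≤ p) {φ : (β → Bool) → ℝ}
    (hφ : ∀ x, 0 ≤ φ x) (X : β → Bool) : (Tn r φ X) ^ p ≤ Tn r (fun x => φ x ^ p) X := by
  have h := Real.rpow_arith_mean_le_arith_mean_rpow (Finset.univ : Finset (β → Bool))
    (fun x => Ker r X x / cN β) φ (fun x _ => div_nonneg (Ker_nonneg h0 h1 X x) cN_pos.le)
    (by rw [← Finset.sum_div, sum_Ker]; exact div_self cN_pos.ne') (fun x _ => hφ x) hp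
  have e1 : Tn r φ X = ∑ x, Ker r X x / cN β * φ x := by
    unfold Tn
    rw [Finset.sum_div]
    refine Finset.sum_congr rfl fun x _ => ?_
    ring
  have e2 : Tn r (fun x => φ x ^ p) X = ∑ x, Ker r X x / cN β * φ x ^ p := by
    unfold Tn
    rw [Finset.sum_div]
    refine Finset.sum_congr rfl fun x _ => ?_
    ring
  rw [e1, e2]
  exact h

/-- orthogonality of the scores -/
lemma score_orth (r : ℝ) (X : β → Bool) (b c : β) :
    (∑ x, (sg (x c) - r * sg (X c)) * (sg (x b) - r * sg (X b)) * Ker r X x) / cN β =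
      if b = c then 1 - r * r else 0 := by
  have h := Tn_score r b (fun x => sg (x c) - r * sg (X c)) X
  rw [← h]
  by_cases hbc : b = c
  · subst hbc
    have : Dd b (fun x : β → Bool => sg (x b) - r * sg (X b)) = fun _ => 1 := by
      funext x
      unfold Dd
      beta_reduce
      rw [fl_same, sg_not]
      have := sg_sq (x b)
      have e : sg (x b) * (sg (x b) - r * sg (X b) - (-sg (x b) - r * sg (X b))) / 2 =
        sg (x b) * sg (x b) := by ring
      rw [e, this]
    rw [this, Tn_const]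
    simp
  · have : Dd b (fun x : β → Bool => sg (x c) - r * sg (X c)) = fun _ => 0 := by
      funext x
      unfold Dd
      beta_reduce
      rw [fl_ne (Ne.symm hbc)]
      ring
    rw [this, Tn_const]
    simp [hbc]

/-- **Pointwise Bessel inequality** for smoothed derivatives. -/
lemma bessel {r : ℝ} (h0 : 0 ≤ r) (h1 : r < 1) {φ : (β → Bool) → ℝ} (hφ : ∀ x, |φ x| ≤ 1)
    (X : β → Bool) : ∑ b, Tn r (Dd b φ) X ^ 2 ≤ (1 - r * r)⁻¹ := by
  have hR : 0 < 1 - r * r := by nlinarith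
  set t : β → ℝ := fun b => Tn r (Dd b φ) X with ht
  set S : ℝ := ∑ b, t b ^ 2 with hS
  have hS0 : 0 ≤ S := Finset.sum_nonneg fun b _ => sq_nonneg _
  let W : (β → Bool) → ℝ := fun x => ∑ b, t b * (sg (x b) - r * sg (X b))
  have e1 : (1 - r * r) * S = (∑ x, φ x * W x * Ker r X x) / cN β := by
    rw [hS, Finset.mul_sum]
    have : ∀ b, (1 - r * r) * t b ^ 2 =
        (∑ x, φ x * (t b * (sg (x b) - r * sg (X b))) * Ker r X x) / cN β := by
      intro b
      have h2 := Tn_score r b φ X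
      rw [show (1 - r * r) * t b ^ 2 = t b * ((1 - r * r) * Tn r (Dd b φ) X) by rw [ht]; ring, h2,
        ← mul_div_assoc, Finset.mul_sum]
      congr 1
      refine Finset.sum_congr rfl fun x _ => ?_
      ring
    simp_rw [this]
    rw [← Finset.sum_div, Finset.sum_comm]
    congr 1
    refine Finset.sum_congr rfl fun x _ => ?_
    rw [← Finset.sum_mul, ← Finset.mul_sum]
  have e2 : (∑ x, W x ^ 2 * Ker r X x) / cN β = (1 - r * r) * S := by
    have : ∀ x, W x ^ 2 * Ker r X x = ∑ b, ∑ c, t b * t c *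
        ((sg (x c) - r * sg (X c)) * (sg (x b) - r * sg (X b)) * Ker r X x) := by
      intro x
      rw [sq, Finset.sum_mul_sum, Finset.sum_mul]
      refine Finset.sum_congr rfl fun b _ => ?_
      rw [Finset.sum_mul]
      refine Finset.sum_congr rfl fun c _ => ?_
      ring
    simp_rw [this]
    rw [Finset.sum_comm, Finset.sum_div]
    have : ∀ b, (∑ x : β → Bool, ∑ c, t b * t c *
        ((sg (x c) - r * sg (X c)) * (sg (x b) - r * sg (X b)) * Ker r X x)) / cN β =
        (1 - r * r) * t b ^ 2 := by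
      intro b
      rw [Finset.sum_comm, Finset.sum_div]
      have : ∀ c, (∑ x : β → Bool, t b * t c *
        ((sg (x c) - r * sg (X c)) * (sg (x b) - r * sg (X b)) * Ker r X x)) / cN β =
        t b * t c * if b = c then 1 - r * r else 0 := by
        intro c
        rw [← Finset.mul_sum, mul_div_assoc, score_orth]
      simp_rw [this]
      simp
      ring
    simp_rw [this]
    rw [hS, Finset.mul_sum]
  -- Cauchy-Schwarz in the form 2 a b ≤ a^2 + b^2
  have e3 : (1 - r * r) * S ≤ (1 + (1 - r * r) * S) / 2 := by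
    have h3 : ∑ x, φ x * W x * Ker r X x ≤ ∑ x, (1 + W x ^ 2) / 2 * Ker r X x := by
      refine Finset.sum_le_sum fun x _ => mul_le_mul_of_nonneg_right ?_ (Ker_nonneg h0 h1.le X x)
      have h4 := abs_le.1 (hφ x)
      have h5 : φ x ^ 2 ≤ 1 := by nlinarith
      nlinarith [sq_nonneg (φ x - W x)]
    calc (1 - r * r) * S = (∑ x, φ x * W x * Ker r X x) / cN β := e1
      _ ≤ (∑ x, (1 + W x ^ 2) / 2 * Ker r X x) / cN β := div_le_div_of_nonneg_right h3 cN_pos.le
      _ = ((∑ x, Ker r X x) / cN β + (∑ x, W x ^ 2 * Ker r X x) / cN β) / 2 := by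
        rw [← add_div, ← Finset.sum_add_distrib, div_div, mul_comm (cN β) 2, ← div_div,
          Finset.sum_div _ _ (2 : ℝ)]
        congr 1
        refine Finset.sum_congr rfl fun x _ => ?_
        ring
      _ = (1 + (1 - r * r) * S) / 2 := by rw [sum_Ker, e2, div_self cN_pos.ne']
  have e4 : (1 - r * r) * S ≤ 1 := by linarith
  rw [← one_div, le_div_iff₀ hR]
  linarith
  
end Pool.Agent.W533.U
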