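import Pool.Agent.W533.U.Norms

set_option autoImplicit false
set_option linter.unusedSectionVars false
set_option linter.unusedSimpArgs false

/-!
Embedding of the sparse norms in `ℓ_p`, gluing, sign moments, Hadamard matrices.
-/

open MeasureTheory Set Finset Filter Topology

namespace Pool.Agent.W533.U

/-- a finite family as an element of `ℓ_p` -/
noncomputable def embv (p : ℝ) {Ω : Type} [Fintype Ω] (w : Ω → ℝ) : ellp p :=
  ∑ k ∈ Finset.range (Fintype.card Ω),
    lp.single (E := fun _ : ℕ => ℝ) (ENNReal.ofReal p) k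
      (if h : k < Fintype.card Ω then w ((Fintype.equivFin Ω).symm ⟨k, h⟩) else 0)

lemma norm_embv {p : ℝ} (hp : 1 ≤ p) {Ω : Type} [Fintype Ω] (w : Ω → ℝ) :
    ‖embv p w‖ ^ p = ∑ ω, |w ω| ^ p := by
  have h := lp.norm_sum_single (E := fun _ : ℕ => ℝ) (p := ENNReal.ofReal p)
    (by rw [toReal_p hp]; linarith)
    (fun k => (if h : k < Fintype.card Ω then w ((Fintype.equivFin Ω).symm ⟨k, h⟩) else 0))
    (Finset.range (Fintype.card Ω))
  rw [toReal_p hp] at h
  unfold embv
  rw [h, Finset.sum_range]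
  simp only [Fin.is_lt, dite_true, Fin.eta, Real.norm_eq_abs]
  exact Equiv.sum_comp (Fintype.equivFin Ω).symm (fun ω => |w ω| ^ p)

lemma embv_sub {p : ℝ} {Ω : Type} [Fintype Ω] (w w' : Ω → ℝ) :
    embv p w - embv p w' = embv p (fun ω => w ω - w' ω) := by
  unfold embv
  rw [← Finset.sum_sub_distrib]
  refine Finset.sum_congr rfl fun k hk => ?_
  rw [← lp.single_sub]
  congr 1
  have := Finset.mem_range.1 hk
  simp [this]

section em

variable {ι : Type} [Fintype ι] [Nonempty ι]

lemma Rm_sub {s : ℕ} (h h' : ι → ℝ) (ω : Fin s → ι × Bool) :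
    Rm h ω - Rm h' ω = Rm (fun i => h i - h' i) ω := by
  unfold Rm
  rw [← Finset.sum_sub_distrib]
  refine Finset.sum_congr rfl fun l _ => by ring

/-- the embedding realising the sparse norm -/
noncomputable def Em (p : ℝ) (s : ℕ) (h : ι → ℝ) : ellp p :=
  embv p (fun ω : Fin s → ι × Bool => Rm h ω / √s * (cO s ι) ^ (-(1 / p)))

lemma norm_Em {p : ℝ} (hp : 1 ≤ p) (s : ℕ) (h : ι → ℝ) : ‖Em p s h‖ ^ p = Np p s h := by
  unfold Em Np
  rw [norm_embv hp, Finset.sum_div]
  refine Finset.sum_congr rfl fun ω _ => ?_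
  have hc0 : (0 : ℝ) < cO s ι := cO_pos
  rw [abs_mul, Real.mul_rpow (abs_nonneg _) (abs_nonneg _),
    abs_of_nonneg (Real.rpow_nonneg hc0.le _), ← Real.rpow_mul hc0.le]
  have : -(1 / p) * p = -1 := by
    have : p ≠ 0 := by linarith
    field_simp
  rw [this, Real.rpow_neg_one]
  exact (div_eq_mul_inv _ _).symm

lemma Em_sub {p : ℝ} (s : ℕ) (h h' : ι → ℝ) :
    Em p s h - Em p s h' = Em p s (fun i => h i - h' i) := by
  unfold Em
  rw [embv_sub]
  congr 1
  funext ω
  rw [← Rm_sub]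
  ring

lemma norm_Em' {p : ℝ} (hp : 1 ≤ p) (s : ℕ) (h : ι → ℝ) : ‖Em p s h‖ = Np p s h ^ (1 / p) := by
  haveI : Fact (1 ≤ ENNReal.ofReal p) := ⟨by simpa using hp⟩
  have hp0 : p ≠ 0 := by linarith
  rw [← norm_Em hp, ← Real.rpow_mul (norm_nonneg _), mul_one_div_cancel hp0, Real.rpow_one]

lemma Em_inj {p : ℝ} (hp : 1 ≤ p) {s : ℕ} (hs : 0 < s) {h h' : ι → ℝ}
    (e : Em p s h = Em p s h') : h = h' := by
  haveI : Fact (1 ≤ ENNReal.ofReal p) := ⟨by simpa using hp⟩
  have h0 : Np p s (fun i => h i - h' i) = 0 := by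
    rw [← norm_Em hp, ← Em_sub, e, sub_self, norm_zero, Real.zero_rpow (by linarith)]
  unfold Np at h0
  rw [div_eq_zero_iff] at h0
  rcases h0 with h0 | h0
  · rw [Finset.sum_eq_zero_iff_of_nonneg (fun _ _ => Real.rpow_nonneg (abs_nonneg _) _)] at h0
    funext i
    have h1 := h0 (fun _ => (i, true)) (Finset.mem_univ _)
    rw [Real.rpow_eq_zero (abs_nonneg _) (by linarith), abs_eq_zero, div_eq_zero_iff] at h1
    have hs' : (0 : ℝ) < s := by exact_mod_cast hs
    rcases h1 with h1 | h1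
    · unfold Rm at h1
      simp only [sg_true, one_mul, Finset.sum_const, Finset.card_univ, Fintype.card_fin,
        nsmul_eq_mul, mul_eq_zero] at h1
      rcases h1 with h1 | h1
      · exact absurd h1 hs'.ne'
      · linarith
    · exact absurd h1 (Real.sqrt_pos.2 hs').ne'
  · exact absurd h0 cO_pos.ne'

end em

/-- approximate gluing of two copies of a set -/
lemma glue_exists {Lt E : Type} [NormedAddCommGroup E] (φ ψ : Lt → E)
    (hφ : Function.Injective φ) (hψ : Function.Injective ψ) (Z : Set Lt) (hZ : Z.Nonempty)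
    {δ : ℝ} (hδ : 0 < δ) (h : ∀ z ∈ Z, ∀ z' ∈ Z, |‖φ z - φ z'‖ - ‖ψ z - ψ z'‖| ≤ 2 * δ) :
    ∃ M : MetricSpace (Lt ⊕ Lt), (∀ a b, M.dist (Sum.inl a) (Sum.inl b) = ‖φ a - φ b‖) ∧
      (∀ a b, M.dist (Sum.inr a) (Sum.inr b) = ‖ψ a - ψ b‖) ∧
      (∀ a b, ∀ z ∈ Z, M.dist (Sum.inl a) (Sum.inr b) ≤ ‖φ a - φ z‖ + ‖ψ b - ψ z‖ + δ) := by
  letI M1 : MetricSpace Lt := MetricSpace.induced φ hφ inferInstance
  letI M2 : MetricSpace Lt := MetricSpace.induced ψ hψ inferInstance
  haveI : Nonempty Z := hZ.to_subtype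
  have hd : ∀ p q : Z, |@dist Lt M1.toDist (p : Lt) q - @dist Lt M2.toDist (p : Lt) q| ≤ 2 * δ := by
    intro p q
    have := h p.1 p.2 q.1 q.2
    rw [← dist_eq_norm, ← dist_eq_norm] at this
    exact this
  refine ⟨@Metric.glueMetricApprox Lt Lt Z M1 M2 _ (fun z => z.1) (fun z => z.1) δ hδ hd,
    fun a b => ?_, fun a b => ?_, fun a b z hz => ?_⟩
  · exact dist_eq_norm _ _
  · exact dist_eq_norm _ _
  · show (⨅ q : Z, @dist Lt M1.toDist a q.1 + @dist Lt M2.toDist b q.1) + δ ≤ _
    have h1 : (⨅ q : Z, @dist Lt M1.toDist a q.1 + @dist Lt M2.toDist b q.1) ≤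
        @dist Lt M1.toDist a z + @dist Lt M2.toDist b z := by
      refine ciInf_le ⟨0, ?_⟩ (⟨z, hz⟩ : Z)
      rintro _ ⟨q, rfl⟩
      exact add_nonneg (@dist_nonneg Lt M1.toPseudoMetricSpace _ _)
        (@dist_nonneg Lt M2.toPseudoMetricSpace _ _)
    have e1 : @dist Lt M1.toDist a z = ‖φ a - φ z‖ := dist_eq_norm _ _
    have e2 : @dist Lt M2.toDist b z = ‖ψ b - ψ z‖ := dist_eq_norm _ _
    rw [e1, e2] at h1
    linarith

section signs

variable {β : Type} [Fintype β] [DecidableEq β]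

lemma sgn_two (c : β → ℝ) : (∑ x : β → Bool, (∑ b, c b * sg (x b)) ^ 2) =
    cN β * ∑ b, c b ^ 2 := by
  have key : ∀ S : Finset β, (∑ x : β → Bool, (∑ b ∈ S, c b * sg (x b)) ^ 2) =
      cN β * ∑ b ∈ S, c b ^ 2 := by
    intro S
    induction S using Finset.induction_on with
    | empty => simp
    | insert b S hb ih =>
      rw [sum_avg b]
      have : ∀ x : β → Bool, ((∑ b' ∈ insert b S, c b' * sg (x b')) ^ 2 +
          (∑ b' ∈ insert b S, c b' * sg (fl b x b')) ^ 2) / 2 =
          (∑ b' ∈ S, c b' * sg (x b')) ^ 2 + c b ^ 2 := by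
        intro x
        rw [Finset.sum_insert hb, Finset.sum_insert hb, fl_same, sg_not]
        have e1 : ∑ b' ∈ S, c b' * sg (fl b x b') = ∑ b' ∈ S, c b' * sg (x b') := by
          refine Finset.sum_congr rfl fun b' hb' => ?_
          rw [fl_ne]
          rintro rfl
          exact hb hb'
        rw [e1]
        have h2 := sg_sq (x b)
        have h3 : (c b * sg (x b)) ^ 2 = c b ^ 2 := by
          rw [mul_pow, sq (sg (x b)), h2, mul_one]
        linear_combination h3
      simp only [this]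
      rw [Finset.sum_add_distrib, ih, Finset.sum_insert hb, Finset.sum_const, Finset.card_univ,
        nsmul_eq_mul]
      have : (Fintype.card (β → Bool) : ℝ) = cN β := by simp [cN]
      rw [this]
      ring
  exact key Finset.univ

lemma sgn_four (c : β → ℝ) : (∑ x : β → Bool, (∑ b, c b * sg (x b)) ^ 4) ≤
    cN β * (3 * (∑ b, c b ^ 2) ^ 2) := by
  have key2 : ∀ S : Finset β, (∑ x : β → Bool, (∑ b ∈ S, c b * sg (x b)) ^ 2) =
      cN β * ∑ b ∈ S, c b ^ 2 := by
    intro S
    have := sgn_two (fun b => if b ∈ S then c b else 0)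
    have e1 : ∀ x : β → Bool, ∑ b, (if b ∈ S then c b else 0) * sg (x b) =
        ∑ b ∈ S, c b * sg (x b) := by
      intro x
      rw [← Finset.sum_subset (Finset.subset_univ S)]
      · refine Finset.sum_congr rfl fun b hb => by simp [hb]
      · intro b _ hb; simp [hb]
    have e2 : ∑ b, (if b ∈ S then c b else 0) ^ 2 = ∑ b ∈ S, c b ^ 2 := by
      rw [← Finset.sum_subset (Finset.subset_univ S)]
      · refine Finset.sum_congr rfl fun b hb => by simp [hb]
      · intro b _ hb; simp [hb]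
    simp only [e1, e2] at this
    exact this
  have key : ∀ S : Finset β, (∑ x : β → Bool, (∑ b ∈ S, c b * sg (x b)) ^ 4) ≤
      cN β * (3 * (∑ b ∈ S, c b ^ 2) ^ 2) := by
    intro S
    induction S using Finset.induction_on with
    | empty => simp
    | insert b S hb ih =>
      rw [sum_avg b]
      have : ∀ x : β → Bool, ((∑ b' ∈ insert b S, c b' * sg (x b')) ^ 4 +
          (∑ b' ∈ insert b S, c b' * sg (fl b x b')) ^ 4) / 2 =
          (∑ b' ∈ S, c b' * sg (x b')) ^ 4 + 6 * c b ^ 2 * (∑ b' ∈ S, c b' * sg (x b')) ^ 2 +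
            c b ^ 4 := by
        intro x
        rw [Finset.sum_insert hb, Finset.sum_insert hb, fl_same, sg_not]
        have e1 : ∑ b' ∈ S, c b' * sg (fl b x b') = ∑ b' ∈ S, c b' * sg (x b') := by
          refine Finset.sum_congr rfl fun b' hb' => ?_
          rw [fl_ne]
          rintro rfl
          exact hb hb'
        rw [e1]
        have h2 := sg_sq (x b)
        have h3 : (c b * sg (x b)) ^ 2 = c b ^ 2 := by
          rw [mul_pow, sq (sg (x b)), h2, mul_one]
        have h4 : (c b * sg (x b)) ^ 4 = c b ^ 4 := by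
          have : (c b * sg (x b)) ^ 4 = ((c b * sg (x b)) ^ 2) ^ 2 := by ring
          rw [this, h3]; ring
        linear_combination h4 + 6 * (∑ b' ∈ S, c b' * sg (x b')) ^ 2 * h3
      simp only [this]
      rw [Finset.sum_add_distrib, Finset.sum_add_distrib, ← Finset.mul_sum, key2,
        Finset.sum_insert hb, Finset.sum_const, Finset.card_univ, nsmul_eq_mul]
      have : (Fintype.card (β → Bool) : ℝ) = cN β := by simp [cN]
      rw [this]
      have hc : 0 < cN β := cN_pos
      have hA : 0 ≤ ∑ b ∈ S, c b ^ 2 := Finset.sum_nonneg fun _ _ => sq_nonneg _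
      have h5 : 0 ≤ cN β * (2 * c b ^ 4) := by positivity
      nlinarith
  exact key Finset.univ

end signs

section hadamard

/-- the sign character -/
def chi (a b : Bool) : ℤ := if a && b then -1 else 1

lemma chi_pm (a b : Bool) : chi a b = 1 ∨ chi a b = -1 := by
  cases a <;> cases b <;> simp [chi]

lemma chi_comm (a b : Bool) : chi a b = chi b a := by
  cases a <;> cases b <;> simp [chi]

/-- the Walsh matrix -/
def Wal (k : ℕ) (i j : Fin k → Bool) : ℤ := ∏ l, chi (i l) (j l)

lemma Wal_pm (k : ℕ) (i j : Fin k → Bool) : Wal k i j = 1 ∨ Wal k i j = -1 := by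
  unfold Wal
  refine Finset.prod_induction _ (fun z : ℤ => z = 1 ∨ z = -1) ?_ (Or.inl rfl) ?_
  · rintro a b (rfl | rfl) (rfl | rfl) <;> norm_num
  · intro l _; exact chi_pm _ _

lemma Wal_comm (k : ℕ) (i j : Fin k → Bool) : Wal k i j = Wal k j i := by
  unfold Wal
  exact Finset.prod_congr rfl fun l _ => chi_comm _ _

lemma Wal_orth (k : ℕ) (i i' : Fin k → Bool) :
    ∑ j, Wal k i j * Wal k i' j = if i = i' then 2 ^ k else 0 := by
  have h1 : ∑ j : Fin k → Bool, Wal k i j * Wal k i' j =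
      ∏ l, ∑ b : Bool, chi (i l) b * chi (i' l) b := by
    have := Finset.prod_univ_sum (fun _ : Fin k => (Finset.univ : Finset Bool))
      (fun l b => chi (i l) b * chi (i' l) b)
    rw [Fintype.piFinset_univ] at this
    rw [this]
    refine Finset.sum_congr rfl fun j _ => ?_
    unfold Wal
    rw [Finset.prod_mul_distrib]
  rw [h1]
  have h2 : ∀ l, ∑ b : Bool, chi (i l) b * chi (i' l) b = if i l = i' l then 2 else 0 := by
    intro l
    cases i l <;> cases i' l <;> simp [chi]
  simp only [h2]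
  by_cases h : i = i'
  · subst h; simp
  · rw [if_neg h]
    obtain ⟨l, hl⟩ := Function.ne_iff.1 h
    exact Finset.prod_eq_zero (Finset.mem_univ l) (by simp [hl])

end hadamard

end Pool.Agent.W533.U
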