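import Pool.Agent.W533.U.Embed

set_option autoImplicit false
set_option linter.unusedSectionVars false
set_option linter.unusedSimpArgs false

/-!
The two norms, the orthogonal matrix, moments of the random lattice point.
-/

open MeasureTheory Set Finset Filter Topology

namespace Pool.Agent.W533.U

section uv

variable {k : ℕ}

/-- real vector of a lattice point -/
noncomputable def vec {ι : Type} (q : ℝ) (g : ι → ℤ) : ι → ℝ := fun i => q * (g i : ℝ)

/-- the orthogonal matrix -/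
noncomputable def Uv (k : ℕ) (h : (Fin k → Bool) → ℝ) : (Fin k → Bool) → ℝ :=
  fun i => (∑ j, (Wal k i j : ℝ) * h j) / √((2 : ℝ) ^ k)

lemma card_Ik : (Fintype.card (Fin k → Bool) : ℝ) = (2 : ℝ) ^ k := by simp

lemma Wal_orthR (i i' : Fin k → Bool) :
    ∑ j, (Wal k i j : ℝ) * (Wal k i' j : ℝ) = if i = i' then (2 : ℝ) ^ k else 0 := by
  have h := Wal_orth k i i'
  have h2 : ((∑ j, Wal k i j * Wal k i' j : ℤ) : ℝ) = ((if i = i' then 2 ^ k else 0 : ℤ) : ℝ) := by
    rw [h]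
  push_cast at h2
  rw [h2]

lemma Uv_sub (h h' : (Fin k → Bool) → ℝ) :
    Uv k (fun i => h i - h' i) = fun i => Uv k h i - Uv k h' i := by
  funext i
  unfold Uv
  rw [← sub_div, ← Finset.sum_sub_distrib]
  congr 1
  refine Finset.sum_congr rfl fun j _ => by ring

lemma sum_Uv_sq (h : (Fin k → Bool) → ℝ) : ∑ i, Uv k h i ^ 2 = ∑ i, h i ^ 2 := by
  have hn : (0 : ℝ) < (2 : ℝ) ^ k := by positivity
  have e1 : ∀ i, Uv k h i ^ 2 =
      (∑ j, ∑ j', h j * h j' * ((Wal k j i : ℝ) * (Wal k j' i : ℝ))) / (2 : ℝ) ^ k := by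
    intro i
    unfold Uv
    rw [div_pow, Real.sq_sqrt hn.le, sq, Finset.sum_mul_sum]
    congr 1
    refine Finset.sum_congr rfl fun j _ => Finset.sum_congr rfl fun j' _ => ?_
    rw [Wal_comm k i j, Wal_comm k i j']
    ring
  simp only [e1]
  rw [← Finset.sum_div, Finset.sum_comm]
  have e2 : ∀ j, ∑ i, ∑ j', h j * h j' * ((Wal k j i : ℝ) * (Wal k j' i : ℝ)) =
      (2 : ℝ) ^ k * h j ^ 2 := by
    intro j
    rw [Finset.sum_comm]
    simp only [← Finset.mul_sum, Wal_orthR]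
    simp
    ring
  simp only [e2]
  rw [← Finset.mul_sum]
  field_simp

lemma Uv_lin (q : ℝ) (u : (Fin k → Bool) → ℤ) :
    Uv k (vec q (lin (Wal k) u)) = fun i => q * √((2 : ℝ) ^ k) * (u i : ℝ) := by
  have hn : (0 : ℝ) < (2 : ℝ) ^ k := by positivity
  have hs : 0 < √((2 : ℝ) ^ k) := Real.sqrt_pos.2 hn
  funext i
  unfold Uv vec lin
  rw [div_eq_iff hs.ne']
  have e1 : ∀ j, (Wal k i j : ℝ) * (q * ((∑ l, Wal k j l * u l : ℤ) : ℝ)) =
      ∑ l, q * (u l : ℝ) * ((Wal k i j : ℝ) * (Wal k l j : ℝ)) := by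
    intro j
    push_cast
    rw [Finset.mul_sum, Finset.mul_sum]
    refine Finset.sum_congr rfl fun l _ => ?_
    rw [Wal_comm k j l]
    ring
  simp only [e1]
  rw [Finset.sum_comm]
  simp only [← Finset.mul_sum, Wal_orthR]
  simp
  have : √((2 : ℝ) ^ k) * √((2 : ℝ) ^ k) = (2 : ℝ) ^ k := Real.mul_self_sqrt hn.le
  linear_combination (-(q * (u i : ℝ))) * this

lemma Uv_inj {h h' : (Fin k → Bool) → ℝ} (e : Uv k h = Uv k h') : h = h' := by
  have h1 : ∑ i, (h i - h' i) ^ 2 = 0 := by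
    have := sum_Uv_sq (k := k) (fun i => h i - h' i)
    rw [Uv_sub, e] at this
    simp only [sub_self] at this
    rw [← this]
    simp
  rw [Finset.sum_eq_zero_iff_of_nonneg (fun _ _ => sq_nonneg _)] at h1
  funext i
  have := h1 i (Finset.mem_univ _)
  have := pow_eq_zero_iff (two_ne_zero) |>.1 this
  linarith

lemma vec_add {ι : Type} (q : ℝ) (g g' : ι → ℤ) :
    vec q (g + g') = fun i => vec q g i + vec q g' i := by
  funext i
  simp [vec, mul_add]

lemma vec_inj {ι : Type} {q : ℝ} (hq : q ≠ 0) {g g' : ι → ℤ} (e : vec q g = vec q g') : g = g' := by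
  funext i
  have := congrFun e i
  unfold vec at this
  have := mul_left_cancel₀ hq this
  exact_mod_cast this

/-- fourth moment functional -/
noncomputable def QQ (k : ℕ) (h : (Fin k → Bool) → ℝ) : ℝ :=
  (∑ i, h i ^ 4) / Fintype.card (Fin k → Bool) + (∑ i, Uv k h i ^ 4) / Fintype.card (Fin k → Bool)

lemma QQ_nonneg (h : (Fin k → Bool) → ℝ) : 0 ≤ QQ k h := by
  unfold QQ
  have h1 : 0 ≤ ∑ i, h i ^ 4 := Finset.sum_nonneg fun i _ => by positivity
  have h2 : 0 ≤ ∑ i, Uv k h i ^ 4 := Finset.sum_nonneg fun i _ => by positivity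
  positivity

lemma four_sub_le {ι : Type} [Fintype ι] (h h' : ι → ℝ) :
    (∑ i, (h i - h' i) ^ 4) / Fintype.card ι ≤
      8 * ((∑ i, h i ^ 4) / Fintype.card ι + (∑ i, h' i ^ 4) / Fintype.card ι) := by
  rw [← add_div, ← Finset.sum_add_distrib, ← mul_div_assoc, Finset.mul_sum]
  refine div_le_div_of_nonneg_right (Finset.sum_le_sum fun i _ => ?_) (by positivity)
  nlinarith [sq_nonneg (h i + h' i), sq_nonneg (h i - h' i), sq_nonneg (h i ^ 2 - h' i ^ 2),
    sq_nonneg ((h i + h' i) ^ 2), mul_nonneg (sq_nonneg (h i + h' i)) (sq_nonneg (h i - h' i)),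
    mul_nonneg (sq_nonneg (h i + h' i)) (sq_nonneg (h i)),
    mul_nonneg (sq_nonneg (h i + h' i)) (sq_nonneg (h' i)), sq_nonneg (h i * (h i + h' i)),
    sq_nonneg (h' i * (h i + h' i))]

end uv

section mom

variable {k m : ℕ}

/-- the unit of the lattice -/
noncomputable def qq (k m : ℕ) : ℝ := 2 / (√m * (2 : ℝ) ^ k)

lemma vec_gg (hk : 0 < k) (hm : 0 < m) (x : Fin m × (Fin k → Bool) → Bool) (i : Fin k → Bool) :
    vec (qq k m) (gg (2 ^ (k - 1)) x) i = ∑ b : Fin m × (Fin k → Bool),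
      (if b.2 = i then 1 / √m else 0) * sg (x b) := by
  have hm' : (0 : ℝ) < √m := Real.sqrt_pos.2 (by exact_mod_cast hm)
  unfold vec qq gg
  rw [Fintype.sum_prod_type]
  have h2 : (2 : ℝ) ^ k = 2 * 2 ^ (k - 1) := by
    rw [← pow_succ']; congr 1; omega
  have e1 : ∀ l : Fin m, ∑ j : Fin k → Bool, (if (l, j).2 = i then 1 / √m else 0) * sg (x (l, j)) =
      1 / √m * sg (x (l, i)) := by
    intro l
    simp
  simp only [e1]
  push_cast
  simp only [sgz_cast]
  rw [← Finset.mul_sum, ← mul_assoc]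
  congr 1
  rw [h2]
  field_simp

lemma Uv_gg (hk : 0 < k) (hm : 0 < m) (x : Fin m × (Fin k → Bool) → Bool) (i : Fin k → Bool) :
    Uv k (vec (qq k m) (gg (2 ^ (k - 1)) x)) i = ∑ b : Fin m × (Fin k → Bool),
      ((Wal k i b.2 : ℝ) / (√((2 : ℝ) ^ k) * √m)) * sg (x b) := by
  have hm' : (0 : ℝ) < √m := Real.sqrt_pos.2 (by exact_mod_cast hm)
  have hn : (0 : ℝ) < (2 : ℝ) ^ k := by positivity
  have hs : 0 < √((2 : ℝ) ^ k) := Real.sqrt_pos.2 hn
  unfold Uv
  simp only [vec_gg hk hm]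
  rw [Finset.sum_div]
  have e1 : ∀ j, (Wal k i j : ℝ) * (∑ b : Fin m × (Fin k → Bool),
      (if b.2 = j then 1 / √m else 0) * sg (x b)) / √((2 : ℝ) ^ k) =
      ∑ b : Fin m × (Fin k → Bool), if b.2 = j then
        ((Wal k i b.2 : ℝ) / (√((2 : ℝ) ^ k) * √m)) * sg (x b) else 0 := by
    intro j
    rw [Finset.mul_sum, Finset.sum_div]
    refine Finset.sum_congr rfl fun b _ => ?_
    by_cases hb : b.2 = j
    · rw [if_pos hb, if_pos hb, hb]
      field_simp
    · rw [if_neg hb, if_neg hb]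
      simp
  simp only [e1]
  rw [Finset.sum_comm]
  refine Finset.sum_congr rfl fun b _ => ?_
  simp

lemma coef_one (hm : 0 < m) (i : Fin k → Bool) :
    ∑ b : Fin m × (Fin k → Bool), (if b.2 = i then 1 / √(m : ℝ) else 0) ^ 2 = 1 := by
  have hm' : (0 : ℝ) < m := by exact_mod_cast hm
  rw [Fintype.sum_prod_type]
  have e1 : ∀ l : Fin m, ∑ j : Fin k → Bool, (if (l, j).2 = i then 1 / √(m : ℝ) else 0) ^ 2 =
      1 / m := by
    intro l
    simp only [ite_pow, div_pow, one_pow, Real.sq_sqrt hm'.le]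
    simp
  simp only [e1]
  simp
  field_simp

lemma coef_two (hm : 0 < m) (i : Fin k → Bool) :
    ∑ b : Fin m × (Fin k → Bool), ((Wal k i b.2 : ℝ) / (√((2 : ℝ) ^ k) * √m)) ^ 2 = 1 := by
  have hm' : (0 : ℝ) < m := by exact_mod_cast hm
  have hn : (0 : ℝ) < (2 : ℝ) ^ k := by positivity
  have e1 : ∀ b : Fin m × (Fin k → Bool), ((Wal k i b.2 : ℝ) / (√((2 : ℝ) ^ k) * √m)) ^ 2 =
      1 / ((2 : ℝ) ^ k * m) := by
    intro b
    rw [div_pow, mul_pow, Real.sq_sqrt hm'.le, Real.sq_sqrt hn.le]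
    congr 1
    rcases Wal_pm k i b.2 with h | h <;> rw [h] <;> norm_num
  simp only [e1]
  simp
  field_simp

/-- second moment -/
lemma mom_two (hk : 0 < k) (hm : 0 < m) (i : Fin k → Bool) :
    ∑ x : Fin m × (Fin k → Bool) → Bool, vec (qq k m) (gg (2 ^ (k - 1)) x) i ^ 2 =
      cN (Fin m × (Fin k → Bool)) := by
  simp only [vec_gg hk hm]
  rw [sgn_two, coef_one hm, mul_one]

lemma mom_four (hk : 0 < k) (hm : 0 < m) (i : Fin k → Bool) :
    ∑ x : Fin m × (Fin k → Bool) → Bool, vec (qq k m) (gg (2 ^ (k - 1)) x) i ^ 4 ≤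
      3 * cN (Fin m × (Fin k → Bool)) := by
  simp only [vec_gg hk hm]
  refine (sgn_four _).trans (le_of_eq ?_)
  rw [coef_one hm]
  ring

lemma mom_four' (hk : 0 < k) (hm : 0 < m) (i : Fin k → Bool) :
    ∑ x : Fin m × (Fin k → Bool) → Bool, Uv k (vec (qq k m) (gg (2 ^ (k - 1)) x)) i ^ 4 ≤
      3 * cN (Fin m × (Fin k → Bool)) := by
  simp only [Uv_gg hk hm]
  refine (sgn_four _).trans (le_of_eq ?_)
  rw [coef_two hm]
  ring

lemma mom_one (hk : 0 < k) (hm : 0 < m) (i : Fin k → Bool) :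
    ∑ x : Fin m × (Fin k → Bool) → Bool, vec (qq k m) (gg (2 ^ (k - 1)) x) i = 0 := by
  simp only [vec_gg hk hm]
  rw [Finset.sum_comm]
  refine Finset.sum_eq_zero fun b _ => ?_
  rw [← Finset.mul_sum, sum_avg b]
  have : ∀ x : Fin m × (Fin k → Bool) → Bool, (sg (x b) + sg (fl b x b)) / 2 = 0 := by
    intro x
    rw [fl_same, sg_not]; ring
  simp only [this]
  simp

lemma mom_QQ (hk : 0 < k) (hm : 0 < m) :
    ∑ x : Fin m × (Fin k → Bool) → Bool, QQ k (vec (qq k m) (gg (2 ^ (k - 1)) x)) ≤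
      6 * cN (Fin m × (Fin k → Bool)) := by
  have hn : (0 : ℝ) < Fintype.card (Fin k → Bool) := by exact_mod_cast Fintype.card_pos
  unfold QQ
  rw [Finset.sum_add_distrib, ← Finset.sum_div, ← Finset.sum_div, Finset.sum_comm,
    ← add_div, div_le_iff₀ hn]
  have h1 := Finset.sum_le_sum fun i (_ : i ∈ (Finset.univ : Finset (Fin k → Bool))) =>
    mom_four (m := m) hk hm i
  have h2 := Finset.sum_le_sum fun i (_ : i ∈ (Finset.univ : Finset (Fin k → Bool))) =>
    mom_four' (m := m) hk hm i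
  rw [Finset.sum_const, Finset.card_univ, nsmul_eq_mul] at h1 h2
  have h3 : ∑ x : Fin m × (Fin k → Bool) → Bool, ∑ i,
      Uv k (vec (qq k m) (gg (2 ^ (k - 1)) x)) i ^ 4 =
      ∑ i, ∑ x : Fin m × (Fin k → Bool) → Bool,
        Uv k (vec (qq k m) (gg (2 ^ (k - 1)) x)) i ^ 4 := Finset.sum_comm
  rw [h3]
  linarith

lemma mom_two' (hk : 0 < k) (hm : 0 < m) :
    ∑ x : Fin m × (Fin k → Bool) → Bool,
      (∑ i, vec (qq k m) (gg (2 ^ (k - 1)) x) i ^ 2) / Fintype.card (Fin k → Bool) =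
      cN (Fin m × (Fin k → Bool)) := by
  have hn : (0 : ℝ) < Fintype.card (Fin k → Bool) := by exact_mod_cast Fintype.card_pos
  rw [← Finset.sum_div, Finset.sum_comm, div_eq_iff hn.ne']
  simp only [mom_two hk hm]
  rw [Finset.sum_const, Finset.card_univ, nsmul_eq_mul]
  ring

/-- lower bound for the average distance -/
lemma mom_low {p : ℝ} (hp1 : 1 ≤ p) (hp2 : p < 2) {s : ℕ} (hs : 0 < s) (hk : 0 < k) (hm : 0 < m) :
    cN (Fin m × (Fin k → Bool)) * cN (Fin m × (Fin k → Bool)) / 12 ≤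
    ∑ x : Fin m × (Fin k → Bool) → Bool, ∑ y : Fin m × (Fin k → Bool) → Bool,
      Np p s (fun i => vec (qq k m) (gg (2 ^ (k - 1)) x) i -
        vec (qq k m) (gg (2 ^ (k - 1)) y) i) := by
  set C := cN (Fin m × (Fin k → Bool)) with hC
  have hC0 : 0 < C := cN_pos
  have hn : (0 : ℝ) < Fintype.card (Fin k → Bool) := by exact_mod_cast Fintype.card_pos
  set G : (Fin m × (Fin k → Bool) → Bool) → (Fin k → Bool) → ℝ :=
    fun x => vec (qq k m) (gg (2 ^ (k - 1)) x) with hG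
  have hcard : (∑ _x : Fin m × (Fin k → Bool) → Bool, (1 : ℝ)) = C := sum_one_cube
  have hsumc : ∀ c : ℝ, ∑ _x : Fin m × (Fin k → Bool) → Bool, c = C * c := by
    intro c
    rw [← hcard, Finset.sum_mul]
    simp
  have h2 : ∀ i, ∑ x, ∑ y, (G x i - G y i) ^ 2 = 2 * C * C := by
    intro i
    have e : ∀ x y, (G x i - G y i) ^ 2 = G x i ^ 2 - 2 * G x i * G y i + G y i ^ 2 :=
      fun x y => by ring
    simp only [e, Finset.sum_add_distrib, Finset.sum_sub_distrib, ← Finset.mul_sum]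
    have z1 : ∑ x, G x i = 0 := mom_one hk hm i
    have z2 : ∑ x, G x i ^ 2 = C := mom_two hk hm i
    rw [z1, z2, hsumc]
    simp only [hsumc, ← Finset.mul_sum, z2]
    simp
    ring
  have h4 : ∀ i, ∑ x, ∑ y, (G x i - G y i) ^ 4 ≤ 48 * C * C := by
    intro i
    have z4 : ∑ x, G x i ^ 4 ≤ 3 * C := mom_four hk hm i
    have e : ∀ x y, (G x i - G y i) ^ 4 ≤ 8 * G x i ^ 4 + 8 * G y i ^ 4 := by
      intro x y
      have := four_sub_le (ι := Unit) (fun _ => G x i) (fun _ => G y i)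
      simp at this
      linarith
    refine (Finset.sum_le_sum fun x _ => Finset.sum_le_sum fun y _ => e x y).trans ?_
    simp only [Finset.sum_add_distrib, ← Finset.mul_sum]
    rw [hsumc]
    simp only [hsumc, ← Finset.mul_sum]
    have := mul_le_mul_of_nonneg_left z4 hC0.le
    linarith
  have hlow : ∀ x y, (12 : ℝ) ^ (p - 2) * ((∑ i, (G x i - G y i) ^ 2) / Fintype.card (Fin k → Bool) -
      3 * ((∑ i, (G x i - G y i) ^ 4) / Fintype.card (Fin k → Bool)) / 144) ≤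
      Np p s (fun i => G x i - G y i) := fun x y => Np_ge hp1 hp2 hs _
  refine le_trans ?_ (Finset.sum_le_sum fun x _ => Finset.sum_le_sum fun y _ => hlow x y)
  simp only [← Finset.mul_sum, Finset.sum_sub_distrib, ← Finset.sum_div]
  have s2 : ∑ x, ∑ y, ∑ i, (G x i - G y i) ^ 2 =
      Fintype.card (Fin k → Bool) * (2 * C * C) := by
    have : ∑ x, ∑ y, ∑ i, (G x i - G y i) ^ 2 = ∑ i, ∑ x, ∑ y, (G x i - G y i) ^ 2 := by
      rw [Finset.sum_comm]
      have e : ∀ x, ∑ y, ∑ i, (G x i - G y i) ^ 2 = ∑ i, ∑ y, (G x i - G y i) ^ 2 :=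
        fun x => Finset.sum_comm
      rw [Finset.sum_comm]
      simp only [e]
      rw [Finset.sum_comm]
    rw [this]
    simp only [h2]
    rw [Finset.sum_const, Finset.card_univ, nsmul_eq_mul]
  have s4 : ∑ x, ∑ y, ∑ i, (G x i - G y i) ^ 4 ≤
      Fintype.card (Fin k → Bool) * (48 * C * C) := by
    have : ∑ x, ∑ y, ∑ i, (G x i - G y i) ^ 4 = ∑ i, ∑ x, ∑ y, (G x i - G y i) ^ 4 := by
      have e : ∀ x, ∑ y, ∑ i, (G x i - G y i) ^ 4 = ∑ i, ∑ y, (G x i - G y i) ^ 4 :=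
        fun x => Finset.sum_comm
      simp only [e]
      rw [Finset.sum_comm]
    rw [this, ← nsmul_eq_mul, ← Finset.card_univ, ← Finset.sum_const]
    exact Finset.sum_le_sum fun i _ => h4 i
  have hp12 : (1 : ℝ) / 12 ≤ (12 : ℝ) ^ (p - 2) := by
    have : (12 : ℝ) ^ (-1 : ℝ) ≤ (12 : ℝ) ^ (p - 2) :=
      Real.rpow_le_rpow_of_exponent_le (by norm_num) (by linarith)
    rw [Real.rpow_neg_one] at this
    linarith
  rw [s2]
  have t4 : (∑ x, ∑ y, ∑ i, (G x i - G y i) ^ 4) / Fintype.card (Fin k → Bool) ≤ 48 * C * C := by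
    rw [div_le_iff₀ hn]; linarith
  have t2 : (Fintype.card (Fin k → Bool) * (2 * C * C)) / (Fintype.card (Fin k → Bool) : ℝ) =
      2 * C * C := by field_simp
  rw [t2]
  have hCC : 0 < C * C := by positivity
  have hlast : C * C ≤ 2 * C * C -
      3 * ((∑ x, ∑ y, ∑ i, (G x i - G y i) ^ 4) / Fintype.card (Fin k → Bool)) / 144 := by
    linarith
  calc C * C / 12 = 1 / 12 * (C * C) := by ring
    _ ≤ (12 : ℝ) ^ (p - 2) * (C * C) := mul_le_mul_of_nonneg_right hp12 hCC.le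
    _ ≤ _ := mul_le_mul_of_nonneg_left hlast (by positivity)

end mom

end Pool.Agent.W533.U
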