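import Pool.Agent.W533.U.Star

set_option autoImplicit false
set_option linter.unusedSectionVars false
set_option linter.unusedSimpArgs false

/-!
Lattice points, box averages, and the cube inequality for maps of the lattice.
-/

open MeasureTheory Set Finset

namespace Pool.Agent.W533.U

/-- integer sign of a bit -/
def sgz (b : Bool) : ℤ := if b then 1 else -1

lemma sgz_cast (b : Bool) : ((sgz b : ℤ) : ℝ) = sg b := by cases b <;> simp [sgz, sg]

lemma sgz_not (b : Bool) : sgz (!b) = - sgz b := by cases b <;> simp [sgz]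

lemma sgz_pm (b : Bool) : sgz b = 1 ∨ sgz b = -1 := by cases b <;> simp [sgz]

section box

variable {ι : Type} [Fintype ι] [DecidableEq ι]

/-- the box -/
noncomputable def Box (ι : Type) [Fintype ι] [DecidableEq ι] (L : ℕ) : Finset (ι → ℤ) :=
  Fintype.piFinset fun _ => Finset.Ico (0 : ℤ) L

/-- the enlarged box -/
noncomputable def BoxP (ι : Type) [Fintype ι] [DecidableEq ι] (L : ℕ) : Finset (ι → ℤ) :=
  Fintype.piFinset fun _ => Finset.Ico (-1 : ℤ) (L + 1)

lemma card_Box (L : ℕ) : (Box ι L).card = L ^ Fintype.card ι := by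
  simp [Box, Fintype.card_piFinset]

lemma card_BoxP (L : ℕ) : (BoxP ι L).card = (L + 2) ^ Fintype.card ι := by
  have : ((L : ℤ) + 1 - -1).toNat = L + 2 := by omega
  simp [BoxP, Fintype.card_piFinset]
  congr 1

lemma mem_Box {L : ℕ} {u : ι → ℤ} : u ∈ Box ι L ↔ ∀ j, 0 ≤ u j ∧ u j < L := by
  simp [Box, Fintype.mem_piFinset]

lemma mem_BoxP {L : ℕ} {u : ι → ℤ} : u ∈ BoxP ι L ↔ ∀ j, -1 ≤ u j ∧ u j < L + 1 := by
  simp [BoxP, Fintype.mem_piFinset]

lemma sum_shift_le {L : ℕ} (W : (ι → ℤ) → ℝ) (hW : ∀ u, 0 ≤ W u) (s : ι → ℤ)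
    (hs : ∀ j, -1 ≤ s j ∧ s j ≤ 1) : ∑ u ∈ Box ι L, W (u + s) ≤ ∑ u ∈ BoxP ι L, W u := by
  have : ∑ u ∈ Box ι L, W (u + s) = ∑ u ∈ (Box ι L).map (addRightEmbedding s), W u := by
    rw [Finset.sum_map]; rfl
  rw [this]
  refine Finset.sum_le_sum_of_subset_of_nonneg ?_ fun u _ _ => hW u
  intro u hu
  rw [Finset.mem_map] at hu
  obtain ⟨v, hv, rfl⟩ := hu
  rw [mem_Box] at hv
  rw [mem_BoxP]
  intro j
  have h1 := hv j
  have h2 := hs j
  simp only [addRightEmbedding_apply, Pi.add_apply]
  omega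

lemma box_path {L : ℕ} (Φ : (ι → ℤ) → ℝ) (v : ℝ → ℝ) {Lc : ℝ}
    (hv : ∀ a b, |v a - v b| ≤ Lc * |a - b|) (ε : ι → ℤ) (hε : ∀ j, ε j = 1 ∨ ε j = -1)
    (S : Finset ι) :
    |∑ u ∈ Box ι L, v (Φ u) - ∑ u ∈ Box ι L, v (Φ (u + fun j => if j ∈ S then ε j else 0))| ≤
      Lc * ∑ j ∈ S, ∑ u ∈ BoxP ι L, |Φ (u + Pi.single j 1) - Φ u| := by
  have hLc : 0 ≤ Lc := by
    have := hv 1 0
    have h2 := abs_nonneg (v 1 - v 0)
    norm_num at this
    linarith
  induction S using Finset.induction_on with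
  | empty =>
    have : (fun _ : ι => (0 : ℤ)) = 0 := rfl
    simp [this]
  | insert j0 S hj ih =>
    rw [Finset.sum_insert hj, mul_add]
    have key : |∑ u ∈ Box ι L, v (Φ (u + fun j => if j ∈ S then ε j else 0)) -
        ∑ u ∈ Box ι L, v (Φ (u + fun j => if j ∈ insert j0 S then ε j else 0))| ≤
        Lc * ∑ u ∈ BoxP ι L, |Φ (u + Pi.single j0 1) - Φ u| := by
      rw [← Finset.sum_sub_distrib]
      refine (Finset.abs_sum_le_sum_abs _ _).trans ?_
      have hsplit : (fun j => if j ∈ insert j0 S then ε j else 0) =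
          (fun j => if j ∈ S then ε j else 0) + Pi.single j0 (ε j0) := by
        funext j
        by_cases h : j = j0
        · subst h; simp [hj]
        · simp [h, Finset.mem_insert]
      rw [hsplit, Finset.mul_sum]
      rcases hε j0 with h | h
      · have := sum_shift_le (L := L) (fun w => Lc * |Φ (w + Pi.single j0 1) - Φ w|)
          (fun w => mul_nonneg hLc (abs_nonneg _)) (fun j => if j ∈ S then ε j else 0) (by
            intro j
            by_cases hS : j ∈ S
            · simp only [hS, if_true]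
              rcases hε j with h | h <;> rw [h] <;> norm_num
            · simp [hS])
        refine le_trans (Finset.sum_le_sum fun u _ => ?_) this
        rw [h, ← add_assoc]
        refine (hv _ _).trans (le_of_eq ?_)
        rw [abs_sub_comm]
      · have := sum_shift_le (L := L) (fun w => Lc * |Φ (w + Pi.single j0 1) - Φ w|)
          (fun w => mul_nonneg hLc (abs_nonneg _))
          ((fun j => if j ∈ S then ε j else 0) + Pi.single j0 (-1)) (by
            intro j
            by_cases hS : j ∈ S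
            · have : j ≠ j0 := by rintro rfl; exact hj hS
              simp only [Pi.add_apply, hS, if_true, Pi.single_eq_of_ne this]
              rcases hε j with h | h <;> rw [h] <;> norm_num
            · by_cases hjj : j = j0
              · subst hjj; simp [hj]
              · simp [hS, Pi.single_eq_of_ne hjj])
        refine le_trans (Finset.sum_le_sum fun u _ => ?_) this
        rw [h]
        refine (hv _ _).trans (le_of_eq ?_)
        have e1 : u + ((fun j => if j ∈ S then ε j else 0) + Pi.single j0 (-1)) +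
            Pi.single j0 1 = u + (fun j => if j ∈ S then ε j else 0) := by
          rw [add_assoc, add_assoc, ← Pi.single_add]
          simp
        rw [e1]
    calc _ = |(∑ u ∈ Box ι L, v (Φ u) -
          ∑ u ∈ Box ι L, v (Φ (u + fun j => if j ∈ S then ε j else 0))) +
          (∑ u ∈ Box ι L, v (Φ (u + fun j => if j ∈ S then ε j else 0)) -
        ∑ u ∈ Box ι L, v (Φ (u + fun j => if j ∈ insert j0 S then ε j else 0)))| := by
          congr 1; ring
      _ ≤ _ := by
          refine (abs_add_le _ _).trans ?_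
          linarith

end box

section lattice

variable {m : ℕ} {ι : Type} [Fintype ι] [DecidableEq ι]

/-- the lattice point attached to a point of the cube -/
def gg (n' : ℤ) (x : Fin m × ι → Bool) : ι → ℤ := fun i => n' * ∑ k, sgz (x (k, i))

lemma gg_fl (n' : ℤ) (c : Fin m × ι) (x : Fin m × ι → Bool) :
    gg n' (fl c x) = gg n' x + Pi.single c.2 (-(2 * n' * sgz (x c))) := by
  funext i
  by_cases hi : i = c.2
  · subst hi
    simp only [gg, Pi.add_apply, Pi.single_eq_same]
    have h1 : ∑ k, sgz (fl c x (k, c.2)) = ∑ k, (sgz (x (k, c.2)) +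
        if k = c.1 then -(2 * sgz (x c)) else 0) := by
      refine Finset.sum_congr rfl fun k _ => ?_
      by_cases hk : k = c.1
      · subst hk
        have : ((c.1, c.2) : Fin m × ι) = c := rfl
        rw [this, fl_same, sgz_not]
        simp; ring
      · rw [fl_ne]
        · simp [hk]
        · intro h; apply hk; rw [← h]
    rw [h1, Finset.sum_add_distrib, Finset.sum_ite_eq' Finset.univ c.1]
    simp
    ring
  · simp only [gg, Pi.add_apply, Pi.single_eq_of_ne hi, add_zero]
    congr 1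
    refine Finset.sum_congr rfl fun k _ => ?_
    rw [fl_ne]
    intro h; apply hi; rw [← h]

/-- the linear map with matrix `Hm` -/
def lin (Hm : ι → ι → ℤ) (u : ι → ℤ) : ι → ℤ := fun i => ∑ j, Hm i j * u j

lemma lin_add (Hm : ι → ι → ℤ) (u w : ι → ℤ) : lin Hm (u + w) = lin Hm u + lin Hm w := by
  funext i
  simp [lin, mul_add, Finset.sum_add_distrib]

lemma lin_single (Hm : ι → ι → ℤ) (j : ι) : lin Hm (Pi.single j 1) = fun i => Hm i j := by
  funext i
  simp [lin, Pi.single_apply]

lemma lin_row {Hm : ι → ι → ℤ} {n' : ℤ}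
    (horth : ∀ i i', ∑ j, Hm i j * Hm i' j = if i = i' then 2 * n' else 0) (i : ι) (s : ℤ) :
    lin Hm (fun j => s * Hm i j) = Pi.single i (2 * n' * s) := by
  funext i'
  simp only [lin]
  have : ∑ j, Hm i' j * (s * Hm i j) = s * ∑ j, Hm i' j * Hm i j := by
    rw [Finset.mul_sum]
    refine Finset.sum_congr rfl fun j _ => by ring
  rw [this, horth]
  by_cases h : i' = i
  · subst h; simp; ring
  · simp [h]

/-- the majorant for the averaged moves -/
noncomputable def Bmaj (Hm : ι → ι → ℤ) (n' : ℤ) (L : ℕ) (F : (ι → ℤ) → ℝ)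
    (x : Fin m × ι → Bool) : ℝ :=
  (∑ j, ∑ u ∈ BoxP ι L, |F (gg n' x + lin Hm u + lin Hm (Pi.single j 1)) -
    F (gg n' x + lin Hm u)|) / (2 * (L : ℝ) ^ Fintype.card ι)

lemma Bmaj_nonneg (Hm : ι → ι → ℤ) (n' : ℤ) (L : ℕ) (F : (ι → ℤ) → ℝ)
    (x : Fin m × ι → Bool) : 0 ≤ Bmaj Hm n' L F x := by
  unfold Bmaj
  refine div_nonneg ?_ (by positivity)
  exact Finset.sum_nonneg fun _ _ => Finset.sum_nonneg fun _ _ => abs_nonneg _

lemma Bmaj_spec {Hm : ι → ι → ℤ} {n' : ℤ} {L : ℕ} (hL : 0 < L)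
    (hpm : ∀ i j, Hm i j = 1 ∨ Hm i j = -1)
    (horth : ∀ i i', ∑ j, Hm i j * Hm i' j = if i = i' then 2 * n' else 0)
    (F : (ι → ℤ) → ℝ) (v : ℝ → ℝ) (Lc : ℝ)
    (hv : ∀ a b, |v a - v b| ≤ Lc * |a - b|) (c : Fin m × ι) (x : Fin m × ι → Bool) :
    |Dd c (fun x => (∑ η : Box ι L, v (F (gg n' x + lin Hm η.1))) /
      Fintype.card (Box ι L)) x| ≤ Lc * Bmaj Hm n' L F x := by
  have hcard : (Fintype.card (Box ι L) : ℝ) = (L : ℝ) ^ Fintype.card ι := by
    rw [Fintype.card_coe, card_Box]; push_cast; rfl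
  have hLp : (0 : ℝ) < (L : ℝ) ^ Fintype.card ι := by
    have : (0 : ℝ) < L := by exact_mod_cast hL
    positivity
  have hs : ∀ y : Fin m × ι → Bool, (∑ η : Box ι L, v (F (gg n' y + lin Hm η.1))) =
      ∑ u ∈ Box ι L, v (F (gg n' y + lin Hm u)) := fun y =>
    Finset.sum_coe_sort (Box ι L) (fun u => v (F (gg n' y + lin Hm u)))
  unfold Dd
  simp only [hs, hcard]
  set ε : ι → ℤ := fun j => -sgz (x c) * Hm c.2 j with hε
  have hε1 : ∀ j, ε j = 1 ∨ ε j = -1 := by
    intro j
    simp only [hε]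
    rcases sgz_pm (x c) with h | h <;> rcases hpm c.2 j with h' | h' <;> rw [h, h'] <;> norm_num
  have hgl : ∀ u, gg n' (fl c x) + lin Hm u = gg n' x + lin Hm (u + ε) := by
    intro u
    rw [lin_add, hε, lin_row horth, gg_fl, add_assoc, add_comm (lin Hm u)]
    congr 2
    ring_nf
  have key := box_path (L := L) (fun u => F (gg n' x + lin Hm u)) v hv ε hε1 Finset.univ
  simp only [Finset.mem_univ, if_true] at key
  have e2 : (fun u : ι → ℤ => v (F (gg n' (fl c x) + lin Hm u))) =
      fun u => v (F (gg n' x + lin Hm (u + fun j => ε j))) := by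
    funext u; rw [hgl]
  rw [e2, abs_div, abs_mul, abs_sg, one_mul, abs_two, ← sub_div, abs_div, abs_of_pos hLp]
  unfold Bmaj
  have e3 : ∀ j, ∑ u ∈ BoxP ι L, |F (gg n' x + lin Hm (u + Pi.single j 1)) - F (gg n' x + lin Hm u)| =
      ∑ u ∈ BoxP ι L, |F (gg n' x + lin Hm u + lin Hm (Pi.single j 1)) - F (gg n' x + lin Hm u)| := by
    intro j
    refine Finset.sum_congr rfl fun u _ => ?_
    rw [lin_add, add_assoc]
  simp only [e3] at key
  rw [div_div, ← mul_div_assoc]
  rw [mul_comm (2 : ℝ)]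
  exact div_le_div_of_nonneg_right key (by positivity)

end lattice

end Pool.Agent.W533.U
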