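import Pool.Agent.W533.U.Lattice

set_option autoImplicit false
set_option linter.unusedSectionVars false
set_option linter.unusedSimpArgs false

/-!
The cube inequality for maps of the lattice into `ℓ_p`.
-/

open MeasureTheory Set Finset Filter Topology

namespace Pool.Agent.W533.U

/-- the real sequence space `ℓ_p` -/
abbrev ellp (p : ℝ) := lp (fun _ : ℕ => ℝ) (ENNReal.ofReal p)

lemma toReal_p {p : ℝ} (hp : 1 ≤ p) : (ENNReal.ofReal p).toReal = p :=
  ENNReal.toReal_ofReal (by linarith)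

lemma ellp_sum_le {p : ℝ} (hp : 1 ≤ p) (f : ellp p) (T : Finset ℕ) :
    ∑ t ∈ T, |f t| ^ p ≤ ‖f‖ ^ p := by
  have h := lp.sum_rpow_le_norm_rpow (p := ENNReal.ofReal p)
    (by rw [toReal_p hp]; linarith) f T
  rw [toReal_p hp] at h
  simpa only [Real.norm_eq_abs] using h

lemma ellp_pair_le {p : ℝ} (hp : 1 ≤ p) (a b : ellp p) (T : Finset ℕ) :
    ∑ t ∈ T, |a t - b t| ^ p ≤ ‖a - b‖ ^ p := by
  have h := ellp_sum_le hp (a - b) T
  simpa only [lp.coeFn_sub, Pi.sub_apply] using h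

lemma ellp_tendsto {p : ℝ} (hp : 1 ≤ p) (f : ellp p) :
    Tendsto (fun T => ∑ t ∈ Finset.range T, |f t| ^ p) atTop (𝓝 (‖f‖ ^ p)) := by
  have hpos : 0 < (ENNReal.ofReal p).toReal := by rw [toReal_p hp]; linarith
  have h := ((lp.memℓp f).summable hpos).hasSum.tendsto_sum_nat
  rw [← lp.norm_rpow_eq_tsum hpos f, toReal_p hp] at h
  simpa only [Real.norm_eq_abs] using h

section main

variable {m : ℕ} {ι : Type} [Fintype ι] [DecidableEq ι]

lemma half_rpow {p : ℝ} (hp1 : 1 ≤ p) {a b : ℝ} (ha : 0 ≤ a) (hb : 0 ≤ b) :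
    ((a + b) / 2) ^ p ≤ (a ^ p + b ^ p) / 2 := by
  have h := (convexOn_rpow hp1).2 (Set.mem_Ici.2 ha) (Set.mem_Ici.2 hb)
    (by norm_num : (0 : ℝ) ≤ 1 / 2) (by norm_num : (0 : ℝ) ≤ 1 / 2) (by norm_num)
  simp only [smul_eq_mul] at h
  calc ((a + b) / 2) ^ p = (1 / 2 * a + 1 / 2 * b) ^ p := by congr 1; ring
    _ ≤ _ := h
    _ = _ := by ring

lemma coord_ineq [Nonempty ι] {p : ℝ} (hp1 : 1 ≤ p) (hp2 : p < 2) (hm : 0 < m) {kap eps : ℝ}
    (hkap : 0 < kap) (heps : 0 < eps) {Hm : ι → ι → ℤ} {n' : ℤ} {L : ℕ} (hL : 0 < L)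
    (hpm : ∀ i j, Hm i j = 1 ∨ Hm i j = -1)
    (horth : ∀ i i', ∑ j, Hm i j * Hm i' j = if i = i' then 2 * n' else 0)
    (FA FB : (ι → ℤ) → ℝ) :
    1 / 2 * ((∑ x : Fin m × ι → Bool, ∑ y : Fin m × ι → Bool, ∑ u ∈ Box ι L,
        |FA (gg n' x) - FB (gg n' y + lin Hm u)| ^ p) /
          (cN (Fin m × ι) * cN (Fin m × ι) * (L : ℝ) ^ Fintype.card ι)) ≤
      1 / 2 * ((∑ x : Fin m × ι → Bool, ∑ u ∈ Box ι L,
        |FA (gg n' x) - FB (gg n' x + lin Hm u)| ^ p) /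
          (cN (Fin m × ι) * (L : ℝ) ^ Fintype.card ι)) +
      (4 * kap)⁻¹ * ((∑ x : Fin m × ι → Bool, ∑ y : Fin m × ι → Bool, ∑ u ∈ Box ι L,
        ∑ u' ∈ Box ι L, |FB (gg n' x + lin Hm u) - FB (gg n' y + lin Hm u')| ^ p) /
          (cN (Fin m × ι) * cN (Fin m × ι) *
            ((L : ℝ) ^ Fintype.card ι * (L : ℝ) ^ Fintype.card ι))) +
      (cp p)⁻¹ * (kap / 2 * (eps ^ (2 - p) / (2 - p)) *
          ((√m) ^ p * (∑ x : Fin m × ι → Bool, ∑ i,
            (|FA (gg n' x + Pi.single i (2 * n')) - FA (gg n' x)| ^ p +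
              |FA (gg n' x) - FA (gg n' x - Pi.single i (2 * n'))| ^ p) / 2) /
                cN (Fin m × ι)) +
        8 * eps ^ (-(p - 1 / 2)) * (Fintype.card ι : ℝ) ^ (-gam p) *
          ((√m) ^ p * (∑ x : Fin m × ι → Bool, ∑ i,
            (|FA (gg n' x + Pi.single i (2 * n')) - FA (gg n' x)| ^ p +
              |FA (gg n' x) - FA (gg n' x - Pi.single i (2 * n'))| ^ p) / 2) /
                cN (Fin m × ι) +
            ((√m * (Fintype.card ι : ℝ) ^ (1 / p - 1 / 2) / (2 * (L : ℝ) ^ Fintype.card ι)) ^ p *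
              ((Fintype.card ι : ℝ) * ((L : ℝ) + 2) ^ Fintype.card ι) ^ (p - 1)) *
              (∑ x : Fin m × ι → Bool, ∑ j, ∑ u ∈ BoxP ι L,
                |FB (gg n' x + lin Hm u + lin Hm (Pi.single j 1)) -
                  FB (gg n' x + lin Hm u)| ^ p) / cN (Fin m × ι))) := by
  have hcp := cp_pos (p := p) (by linarith) hp2
  have hcN : 0 < cN (Fin m × ι) := cN_pos
  have hLc : (0 : ℝ) < (L : ℝ) ^ Fintype.card ι := by
    have : (0 : ℝ) < L := by exact_mod_cast hL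
    positivity
  have hcard : (Fintype.card (Box ι L) : ℝ) = (L : ℝ) ^ Fintype.card ι := by
    rw [Fintype.card_coe, card_Box]; push_cast; rfl
  haveI : Nonempty (Box ι L) := ⟨⟨fun _ => 0, by
    rw [mem_Box]; intro j; constructor
    · exact le_refl _
    · exact_mod_cast hL⟩⟩
  have hnpos : (0 : ℝ) < Fintype.card ι := by exact_mod_cast Fintype.card_pos
  have key := star (m := m) (ι := ι) (H := Box ι L) hp1 hp2 hm hnpos hkap heps
    (fun x => FA (gg n' x)) (fun x η => FB (gg n' x + lin Hm η.1))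
    (fun i x => (|FA (gg n' x + Pi.single i (2 * n')) - FA (gg n' x)| +
              |FA (gg n' x) - FA (gg n' x - Pi.single i (2 * n'))|) / 2)
    (Bmaj Hm n' L FB) (fun i x => by positivity) (Bmaj_nonneg Hm n' L FB)
    (fun c x => by
      show |FA (gg n' x) - FA (gg n' (fl c x))| ≤ _
      rw [gg_fl]
      rcases sgz_pm (x c) with h | h
      · have e : gg n' x + Pi.single c.2 (-(2 * n' * sgz (x c))) =
            gg n' x - Pi.single c.2 (2 * n') := by
          rw [h, mul_one, sub_eq_add_neg, ← Pi.single_neg]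
        rw [e]
        have := abs_nonneg (FA (gg n' x + Pi.single c.2 (2 * n')) - FA (gg n' x))
        linarith
      · have e : gg n' x + Pi.single c.2 (-(2 * n' * sgz (x c))) =
            gg n' x + Pi.single c.2 (2 * n') := by
          rw [h, mul_neg, mul_one, neg_neg]
        rw [e, abs_sub_comm]
        have := abs_nonneg (FA (gg n' x) - FA (gg n' x - Pi.single c.2 (2 * n')))
        linarith)
    (fun v Lc hv c x => Bmaj_spec hL hpm horth FB v Lc hv c x)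
  -- rewrite the averages
  have w1 : ∀ x y : Fin m × ι → Bool,
      Wf p (fun x (_ : Unit) => FA (gg n' x)) (fun x (η : Box ι L) => FB (gg n' x + lin Hm η.1)) x y
        = (∑ u ∈ Box ι L, |FA (gg n' x) - FB (gg n' y + lin Hm u)| ^ p) /
          (L : ℝ) ^ Fintype.card ι := by
    intro x y
    unfold Wf
    rw [hcard]
    simp only [Finset.univ_unique, Finset.sum_singleton, Fintype.card_unit, Nat.cast_one, one_mul]
    rw [← Finset.sum_coe_sort (Box ι L) (fun u => |FA (gg n' x) - FB (gg n' y + lin Hm u)| ^ p)]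
  have w2 : ∀ x y : Fin m × ι → Bool,
      Wf p (fun x (η : Box ι L) => FB (gg n' x + lin Hm η.1))
        (fun x (η : Box ι L) => FB (gg n' x + lin Hm η.1)) x y
        = (∑ u ∈ Box ι L, ∑ u' ∈ Box ι L, |FB (gg n' x + lin Hm u) - FB (gg n' y + lin Hm u')| ^ p) /
          ((L : ℝ) ^ Fintype.card ι * (L : ℝ) ^ Fintype.card ι) := by
    intro x y
    unfold Wf
    rw [hcard]
    congr 1
    rw [← Finset.sum_coe_sort (Box ι L)
      (fun u => ∑ u' ∈ Box ι L, |FB (gg n' x + lin Hm u) - FB (gg n' y + lin Hm u')| ^ p)]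
    refine Finset.sum_congr rfl fun u _ => ?_
    rw [← Finset.sum_coe_sort (Box ι L)
      (fun u' => |FB (gg n' x + lin Hm u.1) - FB (gg n' y + lin Hm u')| ^ p)]
  simp only [w1, w2] at key
  have s1 : (∑ x : Fin m × ι → Bool, ∑ y : Fin m × ι → Bool, (∑ u ∈ Box ι L,
        |FA (gg n' x) - FB (gg n' y + lin Hm u)| ^ p) / (L : ℝ) ^ Fintype.card ι) /
          (cN (Fin m × ι) * cN (Fin m × ι)) =
      (∑ x : Fin m × ι → Bool, ∑ y : Fin m × ι → Bool, ∑ u ∈ Box ι L,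
        |FA (gg n' x) - FB (gg n' y + lin Hm u)| ^ p) /
          (cN (Fin m × ι) * cN (Fin m × ι) * (L : ℝ) ^ Fintype.card ι) := by
    simp only [← Finset.sum_div]
    rw [div_div, mul_comm ((L : ℝ) ^ Fintype.card ι)]
  have s2 : (∑ x : Fin m × ι → Bool, (∑ u ∈ Box ι L,
        |FA (gg n' x) - FB (gg n' x + lin Hm u)| ^ p) / (L : ℝ) ^ Fintype.card ι) /
          (cN (Fin m × ι)) =
      (∑ x : Fin m × ι → Bool, ∑ u ∈ Box ι L,
        |FA (gg n' x) - FB (gg n' x + lin Hm u)| ^ p) /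
          (cN (Fin m × ι) * (L : ℝ) ^ Fintype.card ι) := by
    simp only [← Finset.sum_div]
    rw [div_div, mul_comm ((L : ℝ) ^ Fintype.card ι)]
  have s3 : (∑ x : Fin m × ι → Bool, ∑ y : Fin m × ι → Bool, (∑ u ∈ Box ι L, ∑ u' ∈ Box ι L,
        |FB (gg n' x + lin Hm u) - FB (gg n' y + lin Hm u')| ^ p) /
          ((L : ℝ) ^ Fintype.card ι * (L : ℝ) ^ Fintype.card ι)) /
          (cN (Fin m × ι) * cN (Fin m × ι)) =
      (∑ x : Fin m × ι → Bool, ∑ y : Fin m × ι → Bool, ∑ u ∈ Box ι L, ∑ u' ∈ Box ι L,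
        |FB (gg n' x + lin Hm u) - FB (gg n' y + lin Hm u')| ^ p) /
          (cN (Fin m × ι) * cN (Fin m × ι) *
            ((L : ℝ) ^ Fintype.card ι * (L : ℝ) ^ Fintype.card ι)) := by
    simp only [← Finset.sum_div]
    rw [div_div, mul_comm ((L : ℝ) ^ Fintype.card ι * (L : ℝ) ^ Fintype.card ι)]
  rw [s1, s2, s3] at key
  refine key.trans ?_
  -- bound the two remaining averages
  have hU : (∑ x : Fin m × ι → Bool, ∑ i, (√m * ((|FA (gg n' x + Pi.single i (2 * n')) -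
        FA (gg n' x)| + |FA (gg n' x) - FA (gg n' x - Pi.single i (2 * n'))|) / 2)) ^ p) /
          cN (Fin m × ι) ≤
      (√m) ^ p * (∑ x : Fin m × ι → Bool, ∑ i,
            (|FA (gg n' x + Pi.single i (2 * n')) - FA (gg n' x)| ^ p +
              |FA (gg n' x) - FA (gg n' x - Pi.single i (2 * n'))| ^ p) / 2) /
                cN (Fin m × ι) := by
    refine div_le_div_of_nonneg_right ?_ hcN.le
    rw [Finset.mul_sum]
    refine Finset.sum_le_sum fun x _ => ?_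
    rw [Finset.mul_sum]
    refine Finset.sum_le_sum fun i _ => ?_
    rw [Real.mul_rpow (Real.sqrt_nonneg _) (by positivity)]
    exact mul_le_mul_of_nonneg_left (half_rpow hp1 (abs_nonneg _) (abs_nonneg _))
      (Real.rpow_nonneg (Real.sqrt_nonneg _) _)
  have hV : (∑ x : Fin m × ι → Bool, (√m * (Fintype.card ι : ℝ) ^ (1 / p - 1 / 2) *
        Bmaj Hm n' L FB x) ^ p) / cN (Fin m × ι) ≤
      ((√m * (Fintype.card ι : ℝ) ^ (1 / p - 1 / 2) / (2 * (L : ℝ) ^ Fintype.card ι)) ^ p *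
              ((Fintype.card ι : ℝ) * ((L : ℝ) + 2) ^ Fintype.card ι) ^ (p - 1)) *
              (∑ x : Fin m × ι → Bool, ∑ j, ∑ u ∈ BoxP ι L,
                |FB (gg n' x + lin Hm u + lin Hm (Pi.single j 1)) -
                  FB (gg n' x + lin Hm u)| ^ p) / cN (Fin m × ι) := by
    refine div_le_div_of_nonneg_right ?_ hcN.le
    rw [Finset.mul_sum]
    refine Finset.sum_le_sum fun x _ => ?_
    unfold Bmaj
    have e1 : √m * (Fintype.card ι : ℝ) ^ (1 / p - 1 / 2) *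
        ((∑ j, ∑ u ∈ BoxP ι L, |FB (gg n' x + lin Hm u + lin Hm (Pi.single j 1)) -
          FB (gg n' x + lin Hm u)|) / (2 * (L : ℝ) ^ Fintype.card ι)) =
        (√m * (Fintype.card ι : ℝ) ^ (1 / p - 1 / 2) / (2 * (L : ℝ) ^ Fintype.card ι)) *
        ∑ j, ∑ u ∈ BoxP ι L, |FB (gg n' x + lin Hm u + lin Hm (Pi.single j 1)) -
          FB (gg n' x + lin Hm u)| := by ring
    rw [e1, Real.mul_rpow (by positivity) (Finset.sum_nonneg fun _ _ =>
      Finset.sum_nonneg fun _ _ => abs_nonneg _), mul_assoc]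
    refine mul_le_mul_of_nonneg_left ?_ (by positivity)
    have h := Real.rpow_sum_le_const_mul_sum_rpow ((Finset.univ : Finset ι) ×ˢ BoxP ι L)
      (fun q : ι × (ι → ℤ) => FB (gg n' x + lin Hm q.2 + lin Hm (Pi.single q.1 1)) -
          FB (gg n' x + lin Hm q.2)) hp1
    rw [Finset.sum_product, Finset.sum_product, Finset.card_product, card_BoxP,
      Finset.card_univ] at h
    push_cast at h
    exact h
  have c1 : 0 ≤ kap / 2 * (eps ^ (2 - p) / (2 - p)) := by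
    have : 0 < 2 - p := by linarith
    positivity
  have c2 : 0 ≤ 8 * eps ^ (-(p - 1 / 2)) * (Fintype.card ι : ℝ) ^ (-gam p) := by positivity
  have := mul_le_mul_of_nonneg_left (add_le_add (mul_le_mul_of_nonneg_left hU c1)
    (mul_le_mul_of_nonneg_left (add_le_add hU hV) c2)) (inv_nonneg.2 hcp.le)
  exact add_le_add_right this _

set_option maxHeartbeats 1000000 in
/-- the cube inequality for `ℓ_p`-valued maps -/
theorem lp_ineq [Nonempty ι] {p : ℝ} (hp1 : 1 ≤ p) (hp2 : p < 2) (hm : 0 < m) {kap eps : ℝ}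
    (hkap : 0 < kap) (heps : 0 < eps) {Hm : ι → ι → ℤ} {n' : ℤ} {L : ℕ} (hL : 0 < L)
    (hpm : ∀ i j, Hm i j = 1 ∨ Hm i j = -1)
    (horth : ∀ i i', ∑ j, Hm i j * Hm i' j = if i = i' then 2 * n' else 0)
    (FA FB : (ι → ℤ) → ellp p) {a0 b0 : ℝ}
    (hA : ∀ (x : Fin m × ι → Bool) i,
      ‖FA (gg n' x + Pi.single i (2 * n')) - FA (gg n' x)‖ ^ p ≤ a0)
    (hA' : ∀ (x : Fin m × ι → Bool) i,
      ‖FA (gg n' x) - FA (gg n' x - Pi.single i (2 * n'))‖ ^ p ≤ a0)
    (hB : ∀ (x : Fin m × ι → Bool) u, u ∈ BoxP ι L → ∀ j,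
      ‖FB (gg n' x + lin Hm u + lin Hm (Pi.single j 1)) - FB (gg n' x + lin Hm u)‖ ^ p ≤ b0) :
    1 / 2 * ((∑ x : Fin m × ι → Bool, ∑ y : Fin m × ι → Bool, ∑ u ∈ Box ι L,
        ‖FA (gg n' x) - FB (gg n' y + lin Hm u)‖ ^ p) /
          (cN (Fin m × ι) * cN (Fin m × ι) * (L : ℝ) ^ Fintype.card ι)) ≤
      1 / 2 * ((∑ x : Fin m × ι → Bool, ∑ u ∈ Box ι L,
        ‖FA (gg n' x) - FB (gg n' x + lin Hm u)‖ ^ p) /
          (cN (Fin m × ι) * (L : ℝ) ^ Fintype.card ι)) +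
      (4 * kap)⁻¹ * ((∑ x : Fin m × ι → Bool, ∑ y : Fin m × ι → Bool, ∑ u ∈ Box ι L,
        ∑ u' ∈ Box ι L, ‖FB (gg n' x + lin Hm u) - FB (gg n' y + lin Hm u')‖ ^ p) /
          (cN (Fin m × ι) * cN (Fin m × ι) *
            ((L : ℝ) ^ Fintype.card ι * (L : ℝ) ^ Fintype.card ι))) +
      (cp p)⁻¹ * (kap / 2 * (eps ^ (2 - p) / (2 - p)) *
          ((√m) ^ p * (Fintype.card ι * a0)) +
        8 * eps ^ (-(p - 1 / 2)) * (Fintype.card ι : ℝ) ^ (-gam p) *
          ((√m) ^ p * (Fintype.card ι * a0) +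
            ((√m * (Fintype.card ι : ℝ) ^ (1 / p - 1 / 2) / (2 * (L : ℝ) ^ Fintype.card ι)) ^ p *
              ((Fintype.card ι : ℝ) * ((L : ℝ) + 2) ^ Fintype.card ι) ^ (p - 1)) *
              ((Fintype.card ι : ℝ) * ((L : ℝ) + 2) ^ Fintype.card ι * b0))) := by
  have hcp := cp_pos (p := p) (by linarith) hp2
  have hcN : 0 < cN (Fin m × ι) := cN_pos
  have hcNs : (∑ _x : Fin m × ι → Bool, (1 : ℝ)) = cN (Fin m × ι) := sum_one_cube
  have hLc : (0 : ℝ) < (L : ℝ) ^ Fintype.card ι := by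
    have : (0 : ℝ) < L := by exact_mod_cast hL
    positivity
  have hnpos : (0 : ℝ) < Fintype.card ι := by exact_mod_cast Fintype.card_pos
  -- the limit of the left-hand side
  have hlim : Tendsto (fun T : ℕ => 1 / 2 * ((∑ x : Fin m × ι → Bool,
      ∑ y : Fin m × ι → Bool, ∑ u ∈ Box ι L, ∑ t ∈ Finset.range T,
        |(FA (gg n' x) - FB (gg n' y + lin Hm u)) t| ^ p) /
          (cN (Fin m × ι) * cN (Fin m × ι) * (L : ℝ) ^ Fintype.card ι))) atTop
      (𝓝 (1 / 2 * ((∑ x : Fin m × ι → Bool, ∑ y : Fin m × ι → Bool, ∑ u ∈ Box ι L,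
        ‖FA (gg n' x) - FB (gg n' y + lin Hm u)‖ ^ p) /
          (cN (Fin m × ι) * cN (Fin m × ι) * (L : ℝ) ^ Fintype.card ι)))) := by
    refine Tendsto.const_mul _ (Tendsto.div_const ?_ _)
    refine tendsto_finset_sum _ fun x _ => tendsto_finset_sum _ fun y _ =>
      tendsto_finset_sum _ fun u _ => ellp_tendsto hp1 _
  refine le_of_tendsto' hlim fun T => ?_
  have hT := Finset.sum_le_sum fun (t : ℕ) (_ : t ∈ Finset.range T) =>
    coord_ineq (m := m) hp1 hp2 hm hkap heps hL hpm horth (fun g => FA g t) (fun g => FB g t)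
  simp only [← Finset.mul_sum, Finset.sum_add_distrib, ← Finset.sum_div] at hT
  have q1 : ∑ t ∈ Finset.range T, ∑ x : Fin m × ι → Bool, ∑ y : Fin m × ι → Bool, ∑ u ∈ Box ι L,
      |FA (gg n' x) t - FB (gg n' y + lin Hm u) t| ^ p =
      ∑ x : Fin m × ι → Bool, ∑ y : Fin m × ι → Bool, ∑ u ∈ Box ι L, ∑ t ∈ Finset.range T,
        |(FA (gg n' x) - FB (gg n' y + lin Hm u)) t| ^ p := by
    refine Finset.sum_comm.trans (Finset.sum_congr rfl fun x _ => ?_)
    refine Finset.sum_comm.trans (Finset.sum_congr rfl fun y _ => ?_)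
    refine Finset.sum_comm.trans (Finset.sum_congr rfl fun u _ => ?_)
    rfl
  have q2 : ∑ t ∈ Finset.range T, ∑ x : Fin m × ι → Bool, ∑ u ∈ Box ι L,
      |FA (gg n' x) t - FB (gg n' x + lin Hm u) t| ^ p ≤
      ∑ x : Fin m × ι → Bool, ∑ u ∈ Box ι L,
        ‖FA (gg n' x) - FB (gg n' x + lin Hm u)‖ ^ p := by
    refine (Finset.sum_comm).trans_le (Finset.sum_le_sum fun x _ => ?_)
    refine (Finset.sum_comm).trans_le (Finset.sum_le_sum fun u _ => ?_)
    exact ellp_pair_le hp1 (FA (gg n' x)) (FB (gg n' x + lin Hm u)) _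
  have q3 : ∑ t ∈ Finset.range T, ∑ x : Fin m × ι → Bool, ∑ y : Fin m × ι → Bool,
      ∑ u ∈ Box ι L, ∑ u' ∈ Box ι L,
      |FB (gg n' x + lin Hm u) t - FB (gg n' y + lin Hm u') t| ^ p ≤
      ∑ x : Fin m × ι → Bool, ∑ y : Fin m × ι → Bool, ∑ u ∈ Box ι L, ∑ u' ∈ Box ι L,
        ‖FB (gg n' x + lin Hm u) - FB (gg n' y + lin Hm u')‖ ^ p := by
    refine (Finset.sum_comm).trans_le (Finset.sum_le_sum fun x _ => ?_)
    refine (Finset.sum_comm).trans_le (Finset.sum_le_sum fun y _ => ?_)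
    refine (Finset.sum_comm).trans_le (Finset.sum_le_sum fun u _ => ?_)
    refine (Finset.sum_comm).trans_le (Finset.sum_le_sum fun u' _ => ?_)
    exact ellp_pair_le hp1 (FB (gg n' x + lin Hm u)) (FB (gg n' y + lin Hm u')) _
  have q4 : (∑ t ∈ Finset.range T, ∑ x : Fin m × ι → Bool, ∑ i,
      |FA (gg n' x + Pi.single i (2 * n')) t - FA (gg n' x) t| ^ p) ≤
      cN (Fin m × ι) * (Fintype.card ι * a0) := by
    rw [← hcNs, Finset.sum_mul]
    refine (Finset.sum_comm).trans_le (Finset.sum_le_sum fun x _ => ?_)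
    have e0 : 1 * ((Fintype.card ι : ℝ) * a0) = ∑ _i : ι, a0 := by
      rw [one_mul, Finset.sum_const, Finset.card_univ, nsmul_eq_mul]
    rw [e0]
    refine (Finset.sum_comm).trans_le (Finset.sum_le_sum fun i _ => ?_)
    have h1 := ellp_pair_le hp1 (FA (gg n' x + Pi.single i (2 * n'))) (FA (gg n' x))
      (Finset.range T)
    exact h1.trans (hA x i)
  have q5 : (∑ t ∈ Finset.range T, ∑ x : Fin m × ι → Bool, ∑ i,
      |FA (gg n' x) t - FA (gg n' x - Pi.single i (2 * n')) t| ^ p) ≤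
      cN (Fin m × ι) * (Fintype.card ι * a0) := by
    rw [← hcNs, Finset.sum_mul]
    refine (Finset.sum_comm).trans_le (Finset.sum_le_sum fun x _ => ?_)
    have e0 : 1 * ((Fintype.card ι : ℝ) * a0) = ∑ _i : ι, a0 := by
      rw [one_mul, Finset.sum_const, Finset.card_univ, nsmul_eq_mul]
    rw [e0]
    refine (Finset.sum_comm).trans_le (Finset.sum_le_sum fun i _ => ?_)
    have h1 := ellp_pair_le hp1 (FA (gg n' x)) (FA (gg n' x - Pi.single i (2 * n')))
      (Finset.range T)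
    exact h1.trans (hA' x i)
  have q6 : (∑ t ∈ Finset.range T, ∑ x : Fin m × ι → Bool, ∑ j, ∑ u ∈ BoxP ι L,
      |FB (gg n' x + lin Hm u + lin Hm (Pi.single j 1)) t - FB (gg n' x + lin Hm u) t| ^ p) ≤
      cN (Fin m × ι) * ((Fintype.card ι : ℝ) * ((L : ℝ) + 2) ^ Fintype.card ι * b0) := by
    rw [← hcNs, Finset.sum_mul]
    refine (Finset.sum_comm).trans_le (Finset.sum_le_sum fun x _ => ?_)
    have e1 : ((L : ℝ) + 2) ^ Fintype.card ι * b0 = ∑ _u ∈ BoxP ι L, b0 := by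
      rw [Finset.sum_const, card_BoxP, nsmul_eq_mul]
      push_cast
      rfl
    have e0 : 1 * ((Fintype.card ι : ℝ) * ((L : ℝ) + 2) ^ Fintype.card ι * b0) =
        ∑ _i : ι, ∑ _u ∈ BoxP ι L, b0 := by
      rw [← e1, one_mul, Finset.sum_const, Finset.card_univ, nsmul_eq_mul, mul_assoc]
    rw [e0]
    refine (Finset.sum_comm).trans_le (Finset.sum_le_sum fun i _ => ?_)
    refine (Finset.sum_comm).trans_le (Finset.sum_le_sum fun u hu => ?_)
    have h1 := ellp_pair_le hp1 (FB (gg n' x + lin Hm u + lin Hm (Pi.single i 1)))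
      (FB (gg n' x + lin Hm u)) (Finset.range T)
    exact h1.trans (hB x u hu i)
  rw [q1] at hT
  refine hT.trans ?_
  have c1 : 0 ≤ kap / 2 * (eps ^ (2 - p) / (2 - p)) := by
    have : 0 < 2 - p := by linarith
    positivity
  have c2 : 0 ≤ 8 * eps ^ (-(p - 1 / 2)) * (Fintype.card ι : ℝ) ^ (-gam p) := by positivity
  have c3 : 0 ≤ (√m * (Fintype.card ι : ℝ) ^ (1 / p - 1 / 2) / (2 * (L : ℝ) ^ Fintype.card ι)) ^ p *
              ((Fintype.card ι : ℝ) * ((L : ℝ) + 2) ^ Fintype.card ι) ^ (p - 1) := by positivity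
  have hsm : 0 ≤ (√m : ℝ) ^ p := by positivity
  have r2 := div_le_div_of_nonneg_right q2 (by positivity :
    0 ≤ cN (Fin m × ι) * (L : ℝ) ^ Fintype.card ι)
  have r3 := div_le_div_of_nonneg_right q3 (by positivity :
    0 ≤ cN (Fin m × ι) * cN (Fin m × ι) * ((L : ℝ) ^ Fintype.card ι * (L : ℝ) ^ Fintype.card ι))
  have r4 : (√m) ^ p * (((∑ t ∈ Finset.range T, ∑ x : Fin m × ι → Bool, ∑ i,
      |FA (gg n' x + Pi.single i (2 * n')) t - FA (gg n' x) t| ^ p) +
      (∑ t ∈ Finset.range T, ∑ x : Fin m × ι → Bool, ∑ i,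
      |FA (gg n' x) t - FA (gg n' x - Pi.single i (2 * n')) t| ^ p)) / 2) / cN (Fin m × ι) ≤
      (√m) ^ p * (Fintype.card ι * a0) := by
    rw [div_le_iff₀ hcN, mul_assoc]
    refine mul_le_mul_of_nonneg_left ?_ hsm
    linarith
  have r6 : ((√m * (Fintype.card ι : ℝ) ^ (1 / p - 1 / 2) / (2 * (L : ℝ) ^ Fintype.card ι)) ^ p *
              ((Fintype.card ι : ℝ) * ((L : ℝ) + 2) ^ Fintype.card ι) ^ (p - 1)) *
      (∑ t ∈ Finset.range T, ∑ x : Fin m × ι → Bool, ∑ j, ∑ u ∈ BoxP ι L,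
      |FB (gg n' x + lin Hm u + lin Hm (Pi.single j 1)) t - FB (gg n' x + lin Hm u) t| ^ p) /
        cN (Fin m × ι) ≤
      ((√m * (Fintype.card ι : ℝ) ^ (1 / p - 1 / 2) / (2 * (L : ℝ) ^ Fintype.card ι)) ^ p *
              ((Fintype.card ι : ℝ) * ((L : ℝ) + 2) ^ Fintype.card ι) ^ (p - 1)) *
      ((Fintype.card ι : ℝ) * ((L : ℝ) + 2) ^ Fintype.card ι * b0) := by
    rw [div_le_iff₀ hcN, mul_assoc _ _ (cN (Fin m × ι))]
    refine mul_le_mul_of_nonneg_left ?_ c3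
    linarith
  have hk : 0 ≤ (4 * kap)⁻¹ := by positivity
  have t2 := mul_le_mul_of_nonneg_left r2 (by norm_num : (0 : ℝ) ≤ 1 / 2)
  have t3 := mul_le_mul_of_nonneg_left r3 hk
  have t4 := mul_le_mul_of_nonneg_left (add_le_add (mul_le_mul_of_nonneg_left r4 c1)
    (mul_le_mul_of_nonneg_left (add_le_add r4 r6) c2)) (inv_nonneg.2 hcp.le)
  exact add_le_add (add_le_add t2 t3) t4

end main

end Pool.Agent.W533.U
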