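import Pool.Agent.W533.U.Geo

set_option autoImplicit false
set_option linter.unusedSectionVars false
set_option linter.unusedSimpArgs false

/-!
Final assembly.
-/

open MeasureTheory Set Finset Filter Topology

namespace Pool.Agent.W533.U

lemma abs_sub_rpow_le {p a b : ℝ} (hp : 1 ≤ p) (ha : 0 ≤ a) (hb : 0 ≤ b) :
    |a - b| ^ p ≤ |a ^ p - b ^ p| := by
  rcases le_total a b with h | h
  · have h1 := Real.add_rpow_le_rpow_add (sub_nonneg.2 h) ha hp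
    rw [sub_add_cancel] at h1
    rw [abs_sub_comm, abs_of_nonneg (sub_nonneg.2 h), abs_sub_comm]
    refine le_trans ?_ (le_abs_self _)
    linarith
  · have h1 := Real.add_rpow_le_rpow_add (sub_nonneg.2 h) hb hp
    rw [sub_add_cancel] at h1
    rw [abs_of_nonneg (sub_nonneg.2 h)]
    refine le_trans ?_ (le_abs_self _)
    linarith

lemma add_rpow_le_two {p a b : ℝ} (hp1 : 1 ≤ p) (hp2 : p < 2) (ha : 0 ≤ a) (hb : 0 ≤ b) :
    (a + b) ^ p ≤ 2 * (a ^ p + b ^ p) := by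
  have h := half_rpow hp1 ha hb
  rw [Real.div_rpow (by linarith) (by norm_num), div_le_iff₀ (by positivity)] at h
  have h2 : (2 : ℝ) ^ p ≤ 4 := by
    have := Real.rpow_le_rpow_of_exponent_le (by norm_num : (1 : ℝ) ≤ 2) hp2.le
    rw [Real.rpow_two] at this
    linarith
  have h3 : 0 ≤ (a ^ p + b ^ p) / 2 := by positivity
  have := mul_le_mul_of_nonneg_left h2 h3
  linarith

lemma exists_s {p : ℝ} (hp1 : 1 ≤ p) (hp2 : p < 2) {δ M : ℝ} (hδ : 0 < δ) :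
    ∃ s : ℕ, 0 < s ∧ ∀ (k : ℕ) (h h' : (Fin k → Bool) → ℝ), ∑ i, h i ^ 2 = ∑ i, h' i ^ 2 →
      (∑ i, h i ^ 4) / Fintype.card (Fin k → Bool) ≤ M →
      (∑ i, h' i ^ 4) / Fintype.card (Fin k → Bool) ≤ M →
      |Np p s h - Np p s h'| ≤ δ ^ p := by
  have hcp := cp_pos (p := p) (by linarith) hp2
  have hδp : 0 < δ ^ p := Real.rpow_pos_of_pos hδ p
  set T : ℝ := max 1 (4 / (cp p * δ ^ p)) with hT
  have hT1 : 1 ≤ T := le_max_left _ _
  have hT0 : 0 < T := by linarith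
  have hT2 : 4 / (cp p * δ ^ p) ≤ T := le_max_right _ _
  set X : ℝ := T ^ (4 - p) / (4 - p) with hX
  have hX0 : 0 ≤ X := by
    have : 0 < 4 - p := by linarith
    positivity
  obtain ⟨s, hs⟩ := exists_nat_gt (max 1 ((cp p)⁻¹ * (|M| * X) / δ ^ p))
  have hs1 : (1 : ℝ) < s := lt_of_le_of_lt (le_max_left _ _) hs
  have hs2 : (cp p)⁻¹ * (|M| * X) / δ ^ p < s := lt_of_le_of_lt (le_max_right _ _) hs
  have hs0 : 0 < s := by
    have : (0 : ℝ) < s := by linarith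
    exact_mod_cast this
  have hsr : (0 : ℝ) < s := by linarith
  refine ⟨s, hs0, fun k h h' e h1 h2 => ?_⟩
  refine (near_iso hp1 hp2 hs0 e h1 h2 hT0).trans ?_
  rw [mul_add]
  have a1 : (cp p)⁻¹ * (2 * (T ^ (-p) / p)) ≤ δ ^ p / 2 := by
    have b1 : T ^ (-p) ≤ T ^ (-1 : ℝ) :=
      Real.rpow_le_rpow_of_exponent_le hT1 (by linarith)
    rw [Real.rpow_neg_one] at b1
    have b2 : T ^ (-p) / p ≤ T⁻¹ := by
      rw [div_le_iff₀ (by linarith)]
      have : 0 < T⁻¹ := by positivity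
      nlinarith
    have b3 : T⁻¹ ≤ cp p * δ ^ p / 4 := by
      rw [inv_le_comm₀ hT0 (by positivity)]
      refine le_trans (le_of_eq ?_) hT2
      field_simp
    calc (cp p)⁻¹ * (2 * (T ^ (-p) / p)) ≤ (cp p)⁻¹ * (2 * (cp p * δ ^ p / 4)) := by
          refine mul_le_mul_of_nonneg_left ?_ (by positivity)
          linarith
      _ = δ ^ p / 2 := by field_simp; norm_num
  have a2 : (cp p)⁻¹ * (M / (2 * s) * X) ≤ δ ^ p / 2 := by
    rw [div_lt_iff₀ hδp] at hs2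
    have c1 : M ≤ |M| := le_abs_self M
    have c2 : (cp p)⁻¹ * (M / (2 * s) * X) = (cp p)⁻¹ * (M * X) / (2 * s) := by ring
    rw [c2, div_le_iff₀ (by positivity)]
    have c3 : (cp p)⁻¹ * (M * X) ≤ (cp p)⁻¹ * (|M| * X) :=
      mul_le_mul_of_nonneg_left (mul_le_mul_of_nonneg_right c1 hX0) (by positivity)
    linarith
  linarith

lemma exists_eps {p : ℝ} (hp2 : p < 2) {c : ℝ} (hc : 0 < c) : ∃ ε : ℝ, 0 < ε ∧ ε ^ (2 - p) ≤ c := by
  refine ⟨c ^ (1 / (2 - p)), Real.rpow_pos_of_pos hc _, ?_⟩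
  have : 2 - p ≠ 0 := by linarith
  rw [← Real.rpow_mul hc.le, one_div_mul_cancel this, Real.rpow_one]

lemma exists_k {γ : ℝ} (hγ : 0 < γ) {c : ℝ} (hc : 0 < c) :
    ∃ k : ℕ, 0 < k ∧ ((2 : ℝ) ^ k) ^ (-γ) ≤ c := by
  have h1 : (2 : ℝ) ^ (-γ) < 1 := Real.rpow_lt_one_of_one_lt_of_neg (by norm_num) (by linarith)
  have h0 : 0 < (2 : ℝ) ^ (-γ) := by positivity
  obtain ⟨k, hk⟩ := exists_pow_lt_of_lt_one hc h1
  refine ⟨k + 1, Nat.succ_pos k, ?_⟩
  have : ((2 : ℝ) ^ (k + 1)) ^ (-γ) = ((2 : ℝ) ^ (-γ)) ^ (k + 1) := by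
    rw [← Real.rpow_natCast, ← Real.rpow_mul (by norm_num), mul_comm, Real.rpow_mul (by norm_num),
      Real.rpow_natCast]
  rw [this, pow_succ]
  have : ((2 : ℝ) ^ (-γ)) ^ k * (2 : ℝ) ^ (-γ) ≤ ((2 : ℝ) ^ (-γ)) ^ k * 1 :=
    mul_le_mul_of_nonneg_left h1.le (by positivity)
  linarith

lemma mu2_le {k : ℕ} (h : (Fin k → Bool) → ℝ) {B0 : ℝ} (hB0 : 1 ≤ B0) (hQ : B0 ^ 2 < QQ k h) :
    1 + (∑ i, h i ^ 2) / Fintype.card (Fin k → Bool) ≤ 2 * QQ k h / B0 := by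
  have hn : (0 : ℝ) < Fintype.card (Fin k → Bool) := by exact_mod_cast Fintype.card_pos
  have hB : 0 < B0 := by linarith
  have hCS : ((∑ i, h i ^ 2) / Fintype.card (Fin k → Bool)) ^ 2 ≤ QQ k h := by
    have h1 := sq_sum_le_card_mul_sum_sq (s := (Finset.univ : Finset (Fin k → Bool)))
      (f := fun i => h i ^ 2)
    rw [Finset.card_univ] at h1
    have e : ∀ i, (h i ^ 2) ^ 2 = h i ^ 4 := fun i => by ring
    simp only [e] at h1
    have h2 : ((∑ i, h i ^ 2) / Fintype.card (Fin k → Bool)) ^ 2 ≤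
        (∑ i, h i ^ 4) / Fintype.card (Fin k → Bool) := by
      rw [div_pow, div_le_div_iff₀ (by positivity) hn]
      calc (∑ i, h i ^ 2) ^ 2 * (Fintype.card (Fin k → Bool) : ℝ) ≤
          ((Fintype.card (Fin k → Bool) : ℝ) * ∑ i, h i ^ 4) * (Fintype.card (Fin k → Bool) : ℝ) :=
            mul_le_mul_of_nonneg_right h1 hn.le
        _ = _ := by ring
    have h3 : 0 ≤ (∑ i, Uv k h i ^ 4) / (Fintype.card (Fin k → Bool) : ℝ) := by
      have : 0 ≤ ∑ i, Uv k h i ^ 4 := Finset.sum_nonneg fun i _ => by positivity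
      positivity
    unfold QQ
    linarith
  set μ := (∑ i, h i ^ 2) / (Fintype.card (Fin k → Bool) : ℝ) with hμ
  set Q := QQ k h with hQd
  have hQ0 : 0 < Q := lt_trans (by positivity) hQ
  rw [le_div_iff₀ hB]
  have k1 : B0 ≤ Q := by nlinarith
  have k2 : μ * B0 ≤ Q := by
    by_contra hcon
    push_neg at hcon
    have : Q * Q < (μ * B0) * (μ * B0) := mul_lt_mul'' hcon hcon hQ0.le hQ0.le
    have h5 : (μ * B0) * (μ * B0) = μ ^ 2 * B0 ^ 2 := by ring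
    have h6 : μ ^ 2 * B0 ^ 2 ≤ Q * Q := by
      have := mul_le_mul hCS hQ.le (by positivity) hQ0.le
      linarith
    linarith
  linarith

lemma glue_bound {p : ℝ} (hp1 : 1 ≤ p) (hp2 : p < 2) {Q B0 δ e A B : ℝ} (hB0 : 0 < B0)
    (hQ0 : 0 ≤ Q) (hδ0 : 0 ≤ δ) (hδ1 : δ ≤ 1) (he : 0 ≤ e) (hA0 : 0 ≤ A) (hB00 : 0 ≤ B)
    (h1 : Q ≤ B0 ^ 2 → e ≤ δ) (h2 : e ≤ A + B + δ)
    (hA : B0 ^ 2 < Q → A ^ p ≤ 2 * Q / B0) (hB : B0 ^ 2 < Q → B ^ p ≤ 2 * Q / B0) :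
    e ^ p ≤ 4 * δ + 12 * Q / B0 := by
  have hδp : δ ^ p ≤ δ := by
    have := Real.rpow_le_rpow_of_exponent_ge' hδ0 hδ1 (by norm_num : (0 : ℝ) ≤ 1) hp1
    rwa [Real.rpow_one] at this
  rcases le_or_gt Q (B0 ^ 2) with h | h
  · have := Real.rpow_le_rpow he (h1 h) (by linarith : 0 ≤ p)
    have h3 : 0 ≤ 12 * Q / B0 := by positivity
    linarith
  · have k0 : e ^ p ≤ (A + (B + δ)) ^ p :=
      Real.rpow_le_rpow he (by linarith) (by linarith)
    have k1 := add_rpow_le_two hp1 hp2 hA0 (by linarith : 0 ≤ B + δ)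
    have k2 := add_rpow_le_two hp1 hp2 hB00 hδ0
    have k3 := hA h
    have k4 := hB h
    have e1 : 12 * Q / B0 = 6 * (2 * Q / B0) := by ring
    rw [e1]
    linarith

section asm

variable {k : ℕ}

/-- first embedding -/
noncomputable def phi (p : ℝ) (s : ℕ) (q : ℝ) (g : (Fin k → Bool) → ℤ) : ellp p :=
  Em p s (vec q g)

/-- second embedding -/
noncomputable def psi (p : ℝ) (s : ℕ) (q : ℝ) (g : (Fin k → Bool) → ℤ) : ellp p :=
  Em p s (Uv k (vec q g))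

lemma phi_sub {p : ℝ} (hp : 1 ≤ p) (s : ℕ) (q : ℝ) (g g' : (Fin k → Bool) → ℤ) :
    ‖phi p s q g - phi p s q g'‖ ^ p = Np p s (fun i => vec q g i - vec q g' i) := by
  unfold phi
  rw [Em_sub, norm_Em hp]

lemma psi_sub {p : ℝ} (hp : 1 ≤ p) (s : ℕ) (q : ℝ) (g g' : (Fin k → Bool) → ℤ) :
    ‖psi p s q g - psi p s q g'‖ ^ p = Np p s (Uv k (fun i => vec q g i - vec q g' i)) := by
  unfold psi
  rw [Em_sub, norm_Em hp, Uv_sub]

lemma phi_inj {p : ℝ} (hp : 1 ≤ p) {s : ℕ} (hs : 0 < s) {q : ℝ} (hq : q ≠ 0) :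
    Function.Injective (phi (k := k) p s q) := fun _ _ h =>
  vec_inj hq (Em_inj hp hs h)

lemma psi_inj {p : ℝ} (hp : 1 ≤ p) {s : ℕ} (hs : 0 < s) {q : ℝ} (hq : q ≠ 0) :
    Function.Injective (psi (k := k) p s q) := fun _ _ h =>
  vec_inj hq (Uv_inj (Em_inj hp hs h))

lemma vec_zero {ι : Type} (q : ℝ) : vec q (0 : ι → ℤ) = fun _ => 0 := by
  funext i; simp [vec]

lemma QQ_zero (q : ℝ) : QQ k (vec q 0) = 0 := by
  rw [vec_zero]
  simp [QQ, Uv]

/-- the glued space -/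
lemma glued {p : ℝ} (hp1 : 1 ≤ p) (hp2 : p < 2) {δ B0 q : ℝ} {s : ℕ} (hs : 0 < s) (hδ : 0 < δ)
    (hq : q ≠ 0)
    (hnear : ∀ h h' : (Fin k → Bool) → ℝ, ∑ i, h i ^ 2 = ∑ i, h' i ^ 2 →
      (∑ i, h i ^ 4) / Fintype.card (Fin k → Bool) ≤ 16 * B0 ^ 2 →
      (∑ i, h' i ^ 4) / Fintype.card (Fin k → Bool) ≤ 16 * B0 ^ 2 →
      |Np p s h - Np p s h'| ≤ δ ^ p) :
    ∃ M : MetricSpace (((Fin k → Bool) → ℤ) ⊕ ((Fin k → Bool) → ℤ)),
      (∀ a b, M.dist (Sum.inl a) (Sum.inl b) = ‖phi p s q a - phi p s q b‖) ∧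
      (∀ a b, M.dist (Sum.inr a) (Sum.inr b) = ‖psi p s q a - psi p s q b‖) ∧
      (∀ a b, ∀ z, QQ k (vec q z) ≤ B0 ^ 2 → M.dist (Sum.inl a) (Sum.inr b) ≤
        ‖phi p s q a - phi p s q z‖ + ‖psi p s q b - psi p s q z‖ + δ) := by
  haveI : Fact (1 ≤ ENNReal.ofReal p) := ⟨by simpa using hp1⟩
  refine glue_exists (E := ellp p) (phi p s q) (psi p s q) (phi_inj hp1 hs hq) (psi_inj hp1 hs hq)
    {z | QQ k (vec q z) ≤ B0 ^ 2} ⟨0, ?_⟩ hδ ?_
  · show QQ k (vec q 0) ≤ B0 ^ 2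
    rw [QQ_zero]
    positivity
  · intro z hz z' hz'
    have hz1 : QQ k (vec q z) ≤ B0 ^ 2 := hz
    have hz2 : QQ k (vec q z') ≤ B0 ^ 2 := hz'
    have hn : (0 : ℝ) < Fintype.card (Fin k → Bool) := by exact_mod_cast Fintype.card_pos
    have k1 : ∀ g, 0 ≤ (∑ i, vec q g i ^ 4) / (Fintype.card (Fin k → Bool) : ℝ) := fun g => by
      have : 0 ≤ ∑ i : Fin k → Bool, vec q g i ^ 4 := Finset.sum_nonneg fun i _ => by positivity
      positivity
    have k2 : ∀ g, 0 ≤ (∑ i, Uv k (vec q g) i ^ 4) / (Fintype.card (Fin k → Bool) : ℝ) :=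
      fun g => by
        have : 0 ≤ ∑ i : Fin k → Bool, Uv k (vec q g) i ^ 4 :=
          Finset.sum_nonneg fun i _ => by positivity
        positivity
    unfold QQ at hz1 hz2
    have h1 := hnear (fun i => vec q z i - vec q z' i) (Uv k (fun i => vec q z i - vec q z' i))
      (sum_Uv_sq _).symm (by
        refine (four_sub_le _ _).trans ?_
        have := k2 z
        have := k2 z'
        linarith) (by
        rw [Uv_sub]
        refine (four_sub_le _ _).trans ?_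
        have := k1 z
        have := k1 z'
        linarith)
    rw [← phi_sub hp1, ← psi_sub hp1] at h1
    have h2 := (abs_sub_rpow_le hp1 (norm_nonneg (phi p s q z - phi p s q z'))
      (norm_nonneg (psi p s q z - psi p s q z'))).trans h1
    have h3 : |‖phi p s q z - phi p s q z'‖ - ‖psi p s q z - psi p s q z'‖| ≤ δ :=
      (Real.rpow_le_rpow_iff (abs_nonneg _) hδ.le (by linarith)).1 h2
    linarith

lemma Np_single_le {p : ℝ} (hp1 : 1 ≤ p) {s : ℕ} (hs : 0 < s) (c : ℝ) (i : Fin k → Bool) :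
    Np p s (fun j => if j = i then c else 0) ≤
      (s : ℝ) ^ (p / 2) * (|c| ^ p / Fintype.card (Fin k → Bool)) := by
  refine (Np_le hp1 hs _).trans (le_of_eq ?_)
  congr 2
  rw [Finset.sum_eq_single i]
  · simp
  · intro j _ hj
    rw [if_neg hj, abs_zero, Real.zero_rpow (by linarith)]
  · intro h; exact absurd (Finset.mem_univ i) h

lemma Np_box_le {p : ℝ} (hp1 : 1 ≤ p) {s : ℕ} (hs : 0 < s) {q b : ℝ} (hq : 0 ≤ q) {L : ℕ}
    (hqb : √s * (q * √((2 : ℝ) ^ k) * L) ≤ b) {u : (Fin k → Bool) → ℤ}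
    (hu : u ∈ Box (Fin k → Bool) L) :
    Np p s (Uv k (vec q (lin (Wal k) u))) ≤ b ^ p := by
  have hn : (0 : ℝ) < Fintype.card (Fin k → Bool) := by exact_mod_cast Fintype.card_pos
  rw [Uv_lin]
  refine (Np_le hp1 hs _).trans ?_
  have hs' : (0 : ℝ) ≤ s := by positivity
  have e1 : (s : ℝ) ^ (p / 2) = (√(s : ℝ)) ^ p := by
    rw [Real.sqrt_eq_rpow, ← Real.rpow_mul hs']; congr 1; ring
  have h1 : (∑ i, |q * √((2 : ℝ) ^ k) * (u i : ℝ)| ^ p) / Fintype.card (Fin k → Bool) ≤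
      (q * √((2 : ℝ) ^ k) * L) ^ p := by
    rw [div_le_iff₀ hn]
    have : ∀ i ∈ (Finset.univ : Finset (Fin k → Bool)), |q * √((2 : ℝ) ^ k) * (u i : ℝ)| ^ p ≤
        (q * √((2 : ℝ) ^ k) * L) ^ p := by
      intro i _
      refine Real.rpow_le_rpow (abs_nonneg _) ?_ (by linarith)
      have hu' := mem_Box.1 hu i
      have a1 : (0 : ℝ) ≤ u i := by exact_mod_cast hu'.1
      have a2 : (u i : ℝ) ≤ L := by exact_mod_cast hu'.2.le
      rw [abs_of_nonneg (by positivity)]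
      exact mul_le_mul_of_nonneg_left a2 (by positivity)
    refine (Finset.sum_le_sum this).trans (le_of_eq ?_)
    rw [Finset.sum_const, Finset.card_univ, nsmul_eq_mul]
    ring
  calc _ ≤ (√(s : ℝ)) ^ p * (q * √((2 : ℝ) ^ k) * L) ^ p := by
        rw [e1]; exact mul_le_mul_of_nonneg_left h1 (by positivity)
    _ = (√(s : ℝ) * (q * √((2 : ℝ) ^ k) * L)) ^ p :=
        (Real.mul_rpow (by positivity) (by positivity)).symm
    _ ≤ b ^ p := Real.rpow_le_rpow (by positivity) hqb (by linarith)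

end asm

end Pool.Agent.W533.U
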