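import Pool.Agent.W533.U.LpIneq

set_option autoImplicit false
set_option linter.unusedSectionVars false
set_option linter.unusedSimpArgs false

/-!
The sparse random sum norms.
-/

open MeasureTheory Set Finset Filter Topology

namespace Pool.Agent.W533.U

lemma sum_cons {α : Type} [Fintype α] {s : ℕ} (F : (Fin (s + 1) → α) → ℝ) :
    ∑ ω, F ω = ∑ a, ∑ ω' : Fin s → α, F (Fin.cons a ω') := by
  rw [← (Fin.consEquiv (fun _ : Fin (s + 1) => α)).sum_comp, Fintype.sum_prod_type]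
  rfl

section rm

variable {ι : Type} [Fintype ι] [Nonempty ι]

lemma sum_pair (F : ι × Bool → ℝ) : ∑ a, F a = ∑ i, (F (i, true) + F (i, false)) := by
  rw [Fintype.sum_prod_type]
  refine Finset.sum_congr rfl fun i _ => ?_
  exact sum_sg _

/-- raw random sum -/
noncomputable def Rm {s : ℕ} (h : ι → ℝ) (ω : Fin s → ι × Bool) : ℝ :=
  ∑ l, sg (ω l).2 * h (ω l).1

lemma Rm_cons {s : ℕ} (h : ι → ℝ) (a : ι × Bool) (ω : Fin s → ι × Bool) :
    Rm h (Fin.cons a ω : Fin (s + 1) → ι × Bool) = sg a.2 * h a.1 + Rm h ω := by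
  unfold Rm
  rw [Fin.sum_univ_succ]
  simp

/-- number of configurations -/
noncomputable def cO (s : ℕ) (ι : Type) [Fintype ι] : ℝ := (2 * (Fintype.card ι : ℝ)) ^ s

lemma cO_pos {s : ℕ} : 0 < cO s ι := by
  unfold cO
  have : (0 : ℝ) < Fintype.card ι := by exact_mod_cast Fintype.card_pos
  positivity

lemma cO_succ {s : ℕ} : cO (s + 1) ι = 2 * (Fintype.card ι : ℝ) * cO s ι := by
  unfold cO; rw [pow_succ]; ring

lemma sum_one_cO {s : ℕ} : (∑ _ω : Fin s → ι × Bool, (1 : ℝ)) = cO s ι := by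
  simp [cO, mul_comm]

lemma card_cO {s : ℕ} : (Fintype.card (Fin s → ι × Bool) : ℝ) = cO s ι := by
  rw [← sum_one_cO]; simp

lemma Rm_two {s : ℕ} (h : ι → ℝ) :
    (∑ ω : Fin s → ι × Bool, Rm h ω ^ 2) / cO s ι = s * ((∑ i, h i ^ 2) / Fintype.card ι) := by
  have hn : (0 : ℝ) < Fintype.card ι := by exact_mod_cast Fintype.card_pos
  induction s with
  | zero => simp [Rm]
  | succ s ih =>
    rw [sum_cons, Finset.sum_comm]
    have : ∀ ω' : Fin s → ι × Bool, ∑ a, Rm h (Fin.cons a ω' : Fin (s + 1) → ι × Bool) ^ 2 =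
        2 * (∑ i, h i ^ 2) + 2 * (Fintype.card ι : ℝ) * Rm h ω' ^ 2 := by
      intro ω'
      rw [sum_pair]
      simp only [Rm_cons, sg_true, sg_false]
      have : ∀ i, (1 * h i + Rm h ω') ^ 2 + (-1 * h i + Rm h ω') ^ 2 =
          2 * h i ^ 2 + 2 * Rm h ω' ^ 2 := fun i => by ring
      simp only [this, Finset.sum_add_distrib, ← Finset.mul_sum, Finset.sum_const,
        Finset.card_univ, nsmul_eq_mul]
      ring
    simp only [this]
    rw [Finset.sum_add_distrib, Finset.sum_const, Finset.card_univ, nsmul_eq_mul, card_cO,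
      ← Finset.mul_sum, cO_succ]
    have hc := cO_pos (ι := ι) (s := s)
    rw [div_eq_iff hc.ne'] at ih
    rw [ih]
    push_cast
    field_simp
    ring

lemma Rm_four {s : ℕ} (h : ι → ℝ) :
    (∑ ω : Fin s → ι × Bool, Rm h ω ^ 4) / cO s ι = s * ((∑ i, h i ^ 4) / Fintype.card ι) +
      3 * s * (s - 1) * ((∑ i, h i ^ 2) / Fintype.card ι) ^ 2 := by
  have hn : (0 : ℝ) < Fintype.card ι := by exact_mod_cast Fintype.card_pos
  induction s with
  | zero => simp [Rm]
  | succ s ih =>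
    rw [sum_cons, Finset.sum_comm]
    have : ∀ ω' : Fin s → ι × Bool, ∑ a, Rm h (Fin.cons a ω' : Fin (s + 1) → ι × Bool) ^ 4 =
        2 * (∑ i, h i ^ 4) + 12 * (∑ i, h i ^ 2) * Rm h ω' ^ 2 +
          2 * (Fintype.card ι : ℝ) * Rm h ω' ^ 4 := by
      intro ω'
      rw [sum_pair]
      simp only [Rm_cons, sg_true, sg_false]
      have : ∀ i, (1 * h i + Rm h ω') ^ 4 + (-1 * h i + Rm h ω') ^ 4 =
          2 * h i ^ 4 + 12 * h i ^ 2 * Rm h ω' ^ 2 + 2 * Rm h ω' ^ 4 := fun i => by ring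
      simp only [this, Finset.sum_add_distrib, ← Finset.mul_sum, Finset.sum_const,
        Finset.card_univ, nsmul_eq_mul, ← Finset.sum_mul]
      ring
    simp only [this]
    rw [Finset.sum_add_distrib, Finset.sum_add_distrib, Finset.sum_const, Finset.card_univ,
      nsmul_eq_mul, card_cO, ← Finset.mul_sum, ← Finset.mul_sum, cO_succ]
    have hc := cO_pos (ι := ι) (s := s)
    have h2 := Rm_two (s := s) h
    rw [div_eq_iff hc.ne'] at ih h2
    rw [ih, h2]
    push_cast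
    field_simp
    ring

lemma Rm_cos {s : ℕ} (h : ι → ℝ) (τ : ℝ) :
    ∑ ω : Fin s → ι × Bool, Real.cos (τ * Rm h ω) = (2 * ∑ i, Real.cos (τ * h i)) ^ s := by
  induction s with
  | zero => simp [Rm]
  | succ s ih =>
    rw [sum_cons, Finset.sum_comm]
    have : ∀ ω' : Fin s → ι × Bool,
        ∑ a, Real.cos (τ * Rm h (Fin.cons a ω' : Fin (s + 1) → ι × Bool)) =
        (2 * ∑ i, Real.cos (τ * h i)) * Real.cos (τ * Rm h ω') := by
      intro ω'
      rw [sum_pair]
      simp only [Rm_cons, sg_true, sg_false]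
      rw [Finset.mul_sum, Finset.sum_mul]
      refine Finset.sum_congr rfl fun i _ => ?_
      rw [mul_add, mul_add, Real.cos_add, Real.cos_add, one_mul, neg_one_mul, mul_neg,
        Real.cos_neg, Real.sin_neg]
      ring
    simp only [this]
    rw [← Finset.mul_sum, ih, pow_succ]
    ring

lemma Rm_abs {s : ℕ} (F : ι → ℝ) :
    (∑ ω : Fin s → ι × Bool, ∑ l, F (ω l).1) / cO s ι = s * ((∑ i, F i) / Fintype.card ι) := by
  have hn : (0 : ℝ) < Fintype.card ι := by exact_mod_cast Fintype.card_pos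
  induction s with
  | zero => simp
  | succ s ih =>
    rw [sum_cons, Finset.sum_comm]
    have : ∀ ω' : Fin s → ι × Bool,
        ∑ a, ∑ l, F ((Fin.cons a ω' : Fin (s + 1) → ι × Bool) l).1 =
        2 * (∑ i, F i) + 2 * (Fintype.card ι : ℝ) * ∑ l, F (ω' l).1 := by
      intro ω'
      rw [sum_pair]
      simp only [Fin.sum_univ_succ, Fin.cons_zero, Fin.cons_succ]
      simp only [Finset.sum_add_distrib, Finset.sum_const, Finset.card_univ, nsmul_eq_mul]
      ring
    simp only [this]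
    rw [Finset.sum_add_distrib, Finset.sum_const, Finset.card_univ, nsmul_eq_mul, card_cO,
      ← Finset.mul_sum, cO_succ]
    have hc := cO_pos (ι := ι) (s := s)
    rw [div_eq_iff hc.ne'] at ih
    rw [ih]
    push_cast
    field_simp
    ring

/-- the `p`-th power of the sparse norm -/
noncomputable def Np (p : ℝ) (s : ℕ) (h : ι → ℝ) : ℝ :=
  (∑ ω : Fin s → ι × Bool, |Rm h ω / √s| ^ p) / cO s ι

lemma Np_nonneg (p : ℝ) (s : ℕ) (h : ι → ℝ) : 0 ≤ Np p s h := by
  unfold Np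
  exact div_nonneg (Finset.sum_nonneg fun _ _ => Real.rpow_nonneg (abs_nonneg _) _) cO_pos.le

lemma Np_le {p : ℝ} (hp1 : 1 ≤ p) {s : ℕ} (hs : 0 < s) (h : ι → ℝ) :
    Np p s h ≤ (s : ℝ) ^ (p / 2) * ((∑ i, |h i| ^ p) / Fintype.card ι) := by
  have hs' : (0 : ℝ) < s := by exact_mod_cast hs
  have hpt : ∀ ω : Fin s → ι × Bool, |Rm h ω / √s| ^ p ≤
      (s : ℝ) ^ (p / 2 - 1) * ∑ l, |h (ω l).1| ^ p := by
    intro ω
    have h1 : |Rm h ω| ≤ ∑ l, |h (ω l).1| := by
      unfold Rm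
      refine (Finset.abs_sum_le_sum_abs _ _).trans (le_of_eq ?_)
      refine Finset.sum_congr rfl fun l _ => ?_
      rw [abs_mul, abs_sg, one_mul]
    have h2 := Real.rpow_sum_le_const_mul_sum_rpow (Finset.univ : Finset (Fin s))
      (fun l => h (ω l).1) hp1
    rw [Finset.card_univ, Fintype.card_fin] at h2
    have h3 : |Rm h ω| ^ p ≤ (s : ℝ) ^ (p - 1) * ∑ l, |h (ω l).1| ^ p :=
      (Real.rpow_le_rpow (abs_nonneg _) h1 (by linarith)).trans h2
    rw [abs_div, Real.div_rpow (abs_nonneg _) (abs_nonneg _), abs_of_nonneg (Real.sqrt_nonneg _),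
      Real.sqrt_eq_rpow, ← Real.rpow_mul hs'.le]
    rw [div_le_iff₀ (by positivity)]
    refine h3.trans (le_of_eq ?_)
    rw [mul_right_comm, ← Real.rpow_add hs']
    congr 2
    ring
  unfold Np
  rw [div_le_iff₀ cO_pos]
  refine (Finset.sum_le_sum fun ω _ => hpt ω).trans ?_
  rw [← Finset.mul_sum]
  have h4 := Rm_abs (s := s) (fun i => |h i| ^ p)
  rw [div_eq_iff cO_pos.ne'] at h4
  rw [h4]
  refine le_of_eq ?_
  have : (s : ℝ) ^ (p / 2) = (s : ℝ) ^ (p / 2 - 1) * s := by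
    rw [← Real.rpow_add_one hs'.ne']; congr 1; ring
  rw [this]; ring

lemma Np_le_two {p : ℝ} (hp1 : 1 ≤ p) (hp2 : p < 2) {s : ℕ} (hs : 0 < s) (h : ι → ℝ) :
    Np p s h ≤ 1 + (∑ i, h i ^ 2) / Fintype.card ι := by
  have hs' : (0 : ℝ) < s := by exact_mod_cast hs
  have hpt : ∀ ω : Fin s → ι × Bool, |Rm h ω / √s| ^ p ≤ 1 + Rm h ω ^ 2 / s := by
    intro ω
    have h0 : Rm h ω ^ 2 / s = |Rm h ω / √s| ^ 2 := by
      rw [sq_abs, div_pow, Real.sq_sqrt hs'.le]
    rw [h0]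
    set y := |Rm h ω / √s|
    have hy : 0 ≤ y := abs_nonneg _
    rcases le_total y 1 with h1 | h1
    · have := Real.rpow_le_one hy h1 (by linarith : 0 ≤ p)
      nlinarith
    · have := Real.rpow_le_rpow_of_exponent_le h1 hp2.le
      rw [Real.rpow_two] at this
      linarith
  unfold Np
  rw [div_le_iff₀ cO_pos]
  refine (Finset.sum_le_sum fun ω _ => hpt ω).trans ?_
  rw [Finset.sum_add_distrib, sum_one_cO, ← Finset.sum_div]
  have h4 := Rm_two (s := s) h
  rw [div_eq_iff cO_pos.ne'] at h4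
  rw [h4]
  refine le_of_eq ?_
  field_simp

lemma Np_ge {p : ℝ} (hp1 : 1 ≤ p) (hp2 : p < 2) {s : ℕ} (hs : 0 < s) (h : ι → ℝ) :
    (12 : ℝ) ^ (p - 2) * ((∑ i, h i ^ 2) / Fintype.card ι -
      3 * ((∑ i, h i ^ 4) / Fintype.card ι) / 144) ≤ Np p s h := by
  have hs' : (0 : ℝ) < s := by exact_mod_cast hs
  have hn : (0 : ℝ) < Fintype.card ι := by exact_mod_cast Fintype.card_pos
  have hpt : ∀ ω : Fin s → ι × Bool, (12 : ℝ) ^ (p - 2) * (Rm h ω ^ 2 / s -
      Rm h ω ^ 4 / s ^ 2 / 144) ≤ |Rm h ω / √s| ^ p := by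
    intro ω
    have h0 : Rm h ω ^ 2 / s = |Rm h ω / √s| ^ 2 := by
      rw [sq_abs, div_pow, Real.sq_sqrt hs'.le]
    have h00 : Rm h ω ^ 4 / s ^ 2 = |Rm h ω / √s| ^ 4 := by
      have : |Rm h ω / √s| ^ 4 = (|Rm h ω / √s| ^ 2) ^ 2 := by ring
      rw [this, ← h0]; ring
    rw [h0, h00]
    set y := |Rm h ω / √s|
    have hy : 0 ≤ y := abs_nonneg _
    rcases hy.eq_or_lt with h1 | h1
    · rw [← h1]
      simp
      exact Real.rpow_nonneg le_rfl _
    · rcases le_total y 12 with h2 | h2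
      · have h3 : (12 : ℝ) ^ (p - 2) ≤ y ^ (p - 2) :=
          Real.rpow_le_rpow_of_nonpos h1 h2 (by linarith)
        have h4 : y ^ p = y ^ (p - 2) * y ^ 2 := by
          rw [← Real.rpow_natCast y 2, ← Real.rpow_add h1]; norm_num
        rw [h4]
        have h5 : y ^ 2 - y ^ 4 / 144 ≤ y ^ 2 := by
          have : 0 ≤ y ^ 4 := by positivity
          linarith
        have h6 : 0 ≤ (12 : ℝ) ^ (p - 2) := by positivity
        calc (12 : ℝ) ^ (p - 2) * (y ^ 2 - y ^ 4 / 144) ≤ (12 : ℝ) ^ (p - 2) * y ^ 2 :=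
              mul_le_mul_of_nonneg_left h5 h6
          _ ≤ _ := mul_le_mul_of_nonneg_right h3 (by positivity)
      · have h5 : y ^ 2 - y ^ 4 / 144 ≤ 0 := by
          have : 144 ≤ y ^ 2 := by nlinarith
          have e : y ^ 4 = y ^ 2 * y ^ 2 := by ring
          rw [e]
          nlinarith [sq_nonneg y]
        have h6 : 0 ≤ (12 : ℝ) ^ (p - 2) := by positivity
        have h7 : 0 ≤ y ^ p := by positivity
        nlinarith
  have h2 := Rm_two (s := s) h
  have h4 := Rm_four (s := s) h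
  have hCS : ((∑ i, h i ^ 2) / Fintype.card ι) ^ 2 ≤ (∑ i, h i ^ 4) / Fintype.card ι := by
    have := sq_sum_le_card_mul_sum_sq (s := (Finset.univ : Finset ι)) (f := fun i => h i ^ 2)
    rw [Finset.card_univ] at this
    have e : ∀ i, (h i ^ 2) ^ 2 = h i ^ 4 := fun i => by ring
    simp only [e] at this
    rw [div_pow, div_le_div_iff₀ (by positivity) hn]
    calc (∑ i, h i ^ 2) ^ 2 * (Fintype.card ι : ℝ) ≤
        ((Fintype.card ι : ℝ) * ∑ i, h i ^ 4) * (Fintype.card ι : ℝ) :=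
          mul_le_mul_of_nonneg_right this hn.le
      _ = _ := by ring
  have h4' : (∑ ω : Fin s → ι × Bool, Rm h ω ^ 4) / cO s ι ≤
      3 * s ^ 2 * ((∑ i, h i ^ 4) / Fintype.card ι) := by
    rw [h4]
    have hs1 : (1 : ℝ) ≤ s := by exact_mod_cast hs
    have k1 : 3 * (s : ℝ) * (s - 1) * ((∑ i, h i ^ 2) / Fintype.card ι) ^ 2 ≤
        3 * (s : ℝ) * (s - 1) * ((∑ i, h i ^ 4) / Fintype.card ι) :=
      mul_le_mul_of_nonneg_left hCS (by
        have : 0 ≤ (s : ℝ) - 1 := by linarith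
        positivity)
    have k2 : 0 ≤ (∑ i, h i ^ 4) / Fintype.card ι := by
      have : 0 ≤ ∑ i, h i ^ 4 := Finset.sum_nonneg fun i _ => by positivity
      positivity
    nlinarith
  have hsum := Finset.sum_le_sum fun ω (_ : ω ∈ (Finset.univ : Finset (Fin s → ι × Bool))) => hpt ω
  rw [← Finset.mul_sum, Finset.sum_sub_distrib] at hsum
  simp only [← Finset.sum_div] at hsum
  have hc0 : (0 : ℝ) ≤ cO s ι := cO_pos.le
  have hdiv := div_le_div_of_nonneg_right hsum hc0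
  unfold Np
  refine le_trans ?_ hdiv
  rw [mul_div_assoc ((12 : ℝ) ^ (p - 2))]
  refine mul_le_mul_of_nonneg_left ?_ (by positivity)
  have e1 : ((∑ ω : Fin s → ι × Bool, Rm h ω ^ 2) / s -
      (∑ ω : Fin s → ι × Bool, Rm h ω ^ 4) / s ^ 2 / 144) / cO s ι =
      ((∑ ω : Fin s → ι × Bool, Rm h ω ^ 2) / cO s ι) / s -
      ((∑ ω : Fin s → ι × Bool, Rm h ω ^ 4) / cO s ι) / (s ^ 2 * 144) := by
    have hcne : cO s ι ≠ 0 := cO_pos.ne'
    field_simp
  rw [e1, h2]
  have e2 : ((∑ ω : Fin s → ι × Bool, Rm h ω ^ 4) / cO s ι) / (s ^ 2 * 144) ≤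
      3 * ((∑ i, h i ^ 4) / Fintype.card ι) / 144 := by
    rw [div_le_iff₀ (by positivity)]
    refine h4'.trans (le_of_eq ?_)
    ring
  have e3 : (s : ℝ) * ((∑ i, h i ^ 2) / Fintype.card ι) / s = (∑ i, h i ^ 2) / Fintype.card ι := by
    field_simp
  rw [e3]
  linarith

lemma abs_pow_sub_le (s : ℕ) {a b : ℝ} (ha : |a| ≤ 1) (hb : |b| ≤ 1) :
    |a ^ s - b ^ s| ≤ s * |a - b| := by
  induction s with
  | zero => simp
  | succ s ih =>
    have e : a ^ (s + 1) - b ^ (s + 1) = a * (a ^ s - b ^ s) + (a - b) * b ^ s := by ring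
    rw [e]
    refine (abs_add_le _ _).trans ?_
    rw [abs_mul, abs_mul]
    have h1 : |b ^ s| ≤ 1 := by rw [abs_pow]; exact pow_le_one₀ (abs_nonneg _) hb
    have h2 := mul_le_mul ha ih (abs_nonneg _) zero_le_one
    have h3 := mul_le_mul_of_nonneg_left h1 (abs_nonneg (a - b))
    push_cast
    linarith

lemma cos_le_quartic (y : ℝ) : Real.cos y ≤ 1 - y ^ 2 / 2 + y ^ 4 / 2 := by
  rcases le_total |y| 1 with h | h
  · have h1 := Real.cos_bound h
    have h2 := (abs_le.1 h1).2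
    have e : |y| ^ 4 = y ^ 4 := by
      rw [← abs_pow, abs_of_nonneg (by positivity)]
    rw [e] at h2
    have : 0 ≤ y ^ 4 := by positivity
    linarith
  · have h1 := Real.cos_le_one y
    have h2 : 1 ≤ y ^ 2 := by
      rw [← sq_abs]; nlinarith
    have h3 : y ^ 2 ≤ y ^ 4 := by nlinarith
    linarith

/-- characteristic function of one term -/
noncomputable def ph (h : ι → ℝ) (y : ℝ) : ℝ := (∑ i, Real.cos (y * h i)) / Fintype.card ι

lemma abs_ph_le (h : ι → ℝ) (y : ℝ) : |ph h y| ≤ 1 :=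
  abs_av_le _ fun _ => Real.abs_cos_le_one _

lemma ph_bounds (h : ι → ℝ) (y : ℝ) : 1 - y ^ 2 / 2 * ((∑ i, h i ^ 2) / Fintype.card ι) ≤ ph h y ∧
    ph h y ≤ 1 - y ^ 2 / 2 * ((∑ i, h i ^ 2) / Fintype.card ι) +
      y ^ 4 / 2 * ((∑ i, h i ^ 4) / Fintype.card ι) := by
  have hn : (0 : ℝ) < Fintype.card ι := by exact_mod_cast Fintype.card_pos
  have e1 : 1 - y ^ 2 / 2 * ((∑ i, h i ^ 2) / Fintype.card ι) =
      (∑ i, (1 - (y * h i) ^ 2 / 2)) / Fintype.card ι := by
    have : ∀ i, 1 - (y * h i) ^ 2 / 2 = 1 - y ^ 2 / 2 * h i ^ 2 := fun i => by ring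
    simp only [this]
    rw [Finset.sum_sub_distrib, ← Finset.mul_sum]
    simp
    field_simp
  have e2 : 1 - y ^ 2 / 2 * ((∑ i, h i ^ 2) / Fintype.card ι) +
      y ^ 4 / 2 * ((∑ i, h i ^ 4) / Fintype.card ι) =
      (∑ i, (1 - (y * h i) ^ 2 / 2 + (y * h i) ^ 4 / 2)) / Fintype.card ι := by
    rw [e1, Finset.sum_add_distrib, add_div]
    congr 1
    have : ∀ i, (y * h i) ^ 4 / 2 = y ^ 4 / 2 * h i ^ 4 := fun i => by ring
    simp only [this]
    rw [← Finset.mul_sum, mul_div_assoc]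
  rw [e2, e1]
  unfold ph
  constructor
  · refine div_le_div_of_nonneg_right (Finset.sum_le_sum fun i _ => ?_) hn.le
    exact Real.one_sub_sq_div_two_le_cos
  · refine div_le_div_of_nonneg_right (Finset.sum_le_sum fun i _ => ?_) hn.le
    exact cos_le_quartic _

lemma ph_sub_le {h h' : ι → ℝ} (hs : ∑ i, h i ^ 2 = ∑ i, h' i ^ 2) {M : ℝ}
    (hM : (∑ i, h i ^ 4) / Fintype.card ι ≤ M) (hM' : (∑ i, h' i ^ 4) / Fintype.card ι ≤ M)
    (y : ℝ) : |ph h y - ph h' y| ≤ M * y ^ 4 / 2 := by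
  have h1 := ph_bounds h y
  have h2 := ph_bounds h' y
  rw [hs] at h1
  have hy : 0 ≤ y ^ 4 / 2 := by positivity
  have h3 := mul_le_mul_of_nonneg_left hM hy
  have h4 := mul_le_mul_of_nonneg_left hM' hy
  rw [abs_le]
  constructor <;> linarith [h1.1, h1.2, h2.1, h2.2]

lemma integrableOn_ph {p : ℝ} (hp1 : 1 ≤ p) (hp2 : p < 2) {s : ℕ} (hs : 0 < s) (h : ι → ℝ) :
    IntegrableOn (fun t : ℝ => (1 - ph h (t / √s) ^ s) * t ^ (-1 - p)) (Ioi 0) ∧
    ∫ t in Ioi (0 : ℝ), (1 - ph h (t / √s) ^ s) * t ^ (-1 - p) = cp p * Np p s h := by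
  have hn : (0 : ℝ) < Fintype.card ι := by exact_mod_cast Fintype.card_pos
  have hc0 : (0 : ℝ) < cO s ι := cO_pos
  have e : (fun t : ℝ => (1 - ph h (t / √s) ^ s) * t ^ (-1 - p)) = fun t : ℝ =>
      (∑ ω : Fin s → ι × Bool, (1 - Real.cos (t * (Rm h ω / √s))) * t ^ (-1 - p)) *
        (cO s ι)⁻¹ := by
    funext t
    rw [← Finset.sum_mul, Finset.sum_sub_distrib, sum_one_cO]
    have e1 : ∀ ω : Fin s → ι × Bool, Real.cos (t * (Rm h ω / √s)) =
        Real.cos (t / √s * Rm h ω) := fun ω => by congr 1; ring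
    simp only [e1]
    rw [Rm_cos]
    have e2 : (2 * ∑ i, Real.cos (t / √s * h i)) ^ s = cO s ι * ph h (t / √s) ^ s := by
      unfold cO ph
      rw [← mul_pow]
      congr 1
      field_simp
    rw [e2]
    field_simp
  rw [e]
  constructor
  · refine Integrable.mul_const ?_ _
    exact integrable_finset_sum _ fun ω _ => integrableOn_cosint (by linarith) hp2 _
  · rw [integral_mul_const, integral_finset_sum]
    · have : ∀ ω : Fin s → ι × Bool,
          ∫ t in Ioi (0 : ℝ), (1 - Real.cos (t * (Rm h ω / √s))) * t ^ (-1 - p) =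
          cp p * |Rm h ω / √s| ^ p := fun ω => cosint_eq (by linarith) _
      simp only [this]
      rw [← Finset.mul_sum]
      unfold Np
      rw [div_eq_mul_inv]
      ring
    · intro ω _
      exact integrableOn_cosint (by linarith) hp2 _

lemma near_iso {p : ℝ} (hp1 : 1 ≤ p) (hp2 : p < 2) {s : ℕ} (hs : 0 < s) {h h' : ι → ℝ}
    (hss : ∑ i, h i ^ 2 = ∑ i, h' i ^ 2) {M : ℝ}
    (hM : (∑ i, h i ^ 4) / Fintype.card ι ≤ M) (hM' : (∑ i, h' i ^ 4) / Fintype.card ι ≤ M)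
    {T : ℝ} (hT : 0 < T) :
    |Np p s h - Np p s h'| ≤ (cp p)⁻¹ * (M / (2 * s) * (T ^ (4 - p) / (4 - p)) +
      2 * (T ^ (-p) / p)) := by
  have hcp := cp_pos (p := p) (by linarith) hp2
  have hs' : (0 : ℝ) < s := by exact_mod_cast hs
  obtain ⟨i1, v1⟩ := integrableOn_ph hp1 hp2 hs h
  obtain ⟨i2, v2⟩ := integrableOn_ph hp1 hp2 hs h'
  have hd : cp p * (Np p s h - Np p s h') =
      ∫ t in Ioi (0 : ℝ), (ph h' (t / √s) ^ s - ph h (t / √s) ^ s) * t ^ (-1 - p) := by
    rw [mul_sub, ← v1, ← v2, ← integral_sub i1 i2]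
    congr 1
    funext t
    ring
  set F : ℝ → ℝ := fun t => (ph h' (t / √s) ^ s - ph h (t / √s) ^ s) * t ^ (-1 - p) with hF
  have hFi : IntegrableOn F (Ioi 0) := by
    have := i1.sub i2
    refine this.congr ?_
    filter_upwards with t
    simp only [hF, Pi.sub_apply]
    ring
  have hmain : |cp p * (Np p s h - Np p s h')| ≤ M / (2 * s) * (T ^ (4 - p) / (4 - p)) +
      2 * (T ^ (-p) / p) := by
    rw [hd]
    refine (norm_integral_le_integral_norm F).trans ?_
    have hsplit : Ioi (0 : ℝ) = Ioc 0 T ∪ Ioi T := (Set.Ioc_union_Ioi_eq_Ioi hT.le).symm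
    have hFn : IntegrableOn (fun t => ‖F t‖) (Ioi 0) := hFi.norm
    have hFn1 : IntegrableOn (fun t => ‖F t‖) (Ioc 0 T) :=
      hFn.mono_set (fun t ht => ht.1)
    have hFn2 : IntegrableOn (fun t => ‖F t‖) (Ioi T) :=
      hFn.mono_set (fun t ht => hT.trans ht)
    rw [hsplit, setIntegral_union (Set.Ioc_disjoint_Ioi le_rfl) measurableSet_Ioi hFn1 hFn2]
    refine add_le_add ?_ ?_
    · have hval := integral_rpow_zero (a := 3 - p) (c := T) (by linarith) hT.le
      have e4 : (3 - p + 1 : ℝ) = 4 - p := by ring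
      rw [e4] at hval
      rw [← hval, ← integral_const_mul]
      refine setIntegral_mono_on hFn1 ((integrableOn_rpow_zero (by linarith) hT.le).const_mul _)
        measurableSet_Ioc ?_
      intro t ht
      have ht0 : 0 < t := ht.1
      rw [Real.norm_eq_abs, hF]
      simp only
      rw [abs_mul, abs_of_nonneg (Real.rpow_nonneg ht0.le _)]
      have k1 := abs_pow_sub_le s (abs_ph_le h' (t / √s)) (abs_ph_le h (t / √s))
      have k2 := ph_sub_le hss.symm hM' hM (t / √s)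
      have k3 : (s : ℝ) * |ph h' (t / √s) - ph h (t / √s)| ≤ M / (2 * s) * t ^ 4 := by
        refine (mul_le_mul_of_nonneg_left k2 hs'.le).trans (le_of_eq ?_)
        have : (√(s : ℝ)) ^ 4 = (s : ℝ) ^ 2 := by
          have : (√(s : ℝ)) ^ 4 = ((√(s : ℝ)) ^ 2) ^ 2 := by ring
          rw [this, Real.sq_sqrt hs'.le]
        rw [div_pow, this]
        field_simp
      have e5 : t ^ (3 - p) = t ^ 4 * t ^ (-1 - p) := by
        rw [← Real.rpow_natCast t 4, ← Real.rpow_add ht0]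
        congr 1
        push_cast
        ring
      rw [e5, ← mul_assoc]
      exact mul_le_mul_of_nonneg_right (k1.trans k3) (Real.rpow_nonneg ht0.le _)
    · have hval := integral_Ioi_rpow_of_lt (a := -1 - p) (by linarith) hT
      have e4 : (-1 - p + 1 : ℝ) = -p := by ring
      rw [e4, neg_div, div_neg, neg_neg] at hval
      rw [← hval, ← integral_const_mul]
      refine setIntegral_mono_on hFn2 ((integrableOn_Ioi_rpow_of_lt (by linarith) hT).const_mul _)
        measurableSet_Ioi ?_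
      intro t ht
      have ht0 : 0 < t := hT.trans ht
      rw [Real.norm_eq_abs, hF]
      simp only
      rw [abs_mul, abs_of_nonneg (Real.rpow_nonneg ht0.le _)]
      refine mul_le_mul_of_nonneg_right ?_ (Real.rpow_nonneg ht0.le _)
      refine (abs_sub _ _).trans ?_
      have k1 : |ph h' (t / √s) ^ s| ≤ 1 := by
        rw [abs_pow]; exact pow_le_one₀ (abs_nonneg _) (abs_ph_le _ _)
      have k2 : |ph h (t / √s) ^ s| ≤ 1 := by
        rw [abs_pow]; exact pow_le_one₀ (abs_nonneg _) (abs_ph_le _ _)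
      linarith
  rw [abs_mul, abs_of_pos hcp] at hmain
  rw [inv_mul_eq_div, le_div_iff₀ hcp]
  linarith

end rm

end Pool.Agent.W533.U
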