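import Pool.Agent.W533.U.CosInt

set_option autoImplicit false
set_option linter.unusedSectionVars false
set_option linter.unusedSimpArgs false

/-!
The pointwise inequality for one slice.
-/

open MeasureTheory Set Finset

namespace Pool.Agent.W533.U

/-- Young's inequality with three terms -/
lemma young3 {p : ℝ} (hp1 : 1 ≤ p) (hp2 : p < 2) {K a b : ℝ} (hK : 0 < K) (ha : 0 ≤ a) (hb : 0 ≤ b) :
    a * b ≤ 1 / 4 * (K ^ (3 : ℕ) * (a ^ p * b ^ (2 - p))) + (4 - p) / 8 * (K⁻¹ * a ^ (2 : ℕ)) +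
      (2 + p) / 8 * (K⁻¹ * b ^ (2 : ℕ)) := by
  rcases ha.eq_or_lt with h | ha'
  · subst h
    have : 0 ≤ K⁻¹ * b ^ 2 := by positivity
    rw [Real.zero_rpow (by linarith)]
    nlinarith
  rcases hb.eq_or_lt with h | hb'
  · subst h
    have : 0 ≤ K⁻¹ * a ^ 2 := by positivity
    rw [Real.zero_rpow (by linarith)]
    nlinarith
  have h := Real.geom_mean_le_arith_mean3_weighted (w₁ := 1 / 4) (w₂ := (4 - p) / 8)
    (w₃ := (2 + p) / 8) (p₁ := K ^ (3 : ℕ) * (a ^ p * b ^ (2 - p))) (p₂ := K⁻¹ * a ^ (2 : ℕ))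
    (p₃ := K⁻¹ * b ^ (2 : ℕ)) (by norm_num) (by linarith) (by linarith) (by positivity)
    (by positivity) (by positivity) (by ring)
  refine le_trans (le_of_eq ?_) h
  have e1 : (K ^ (3 : ℕ) * (a ^ p * b ^ (2 - p))) ^ ((1 : ℝ) / 4) =
      K ^ ((3 : ℝ) / 4) * (a ^ (p / 4) * b ^ ((2 - p) / 4)) := by
    rw [Real.mul_rpow (by positivity) (by positivity), Real.mul_rpow (by positivity) (by positivity),
      ← Real.rpow_natCast K 3, ← Real.rpow_mul hK.le, ← Real.rpow_mul ha, ← Real.rpow_mul hb]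
    congr 1
    · congr 1; push_cast; ring
    · congr 1
      · congr 1; ring
      · congr 1; ring
  have e2 : (K⁻¹ * a ^ (2 : ℕ)) ^ ((4 - p) / 8) = K ^ (-((4 - p) / 8)) * a ^ ((4 - p) / 4) := by
    rw [Real.mul_rpow (by positivity) (by positivity), ← Real.rpow_natCast a 2, ← Real.rpow_mul ha,
      Real.inv_rpow hK.le, ← Real.rpow_neg hK.le]
    congr 2
    push_cast
    ring
  have e3 : (K⁻¹ * b ^ (2 : ℕ)) ^ ((2 + p) / 8) = K ^ (-((2 + p) / 8)) * b ^ ((2 + p) / 4) := by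
    rw [Real.mul_rpow (by positivity) (by positivity), ← Real.rpow_natCast b 2, ← Real.rpow_mul hb,
      Real.inv_rpow hK.le, ← Real.rpow_neg hK.le]
    congr 2
    push_cast
    ring
  rw [e1, e2, e3]
  have f1 : K ^ ((3 : ℝ) / 4) * K ^ (-((4 - p) / 8)) * K ^ (-((2 + p) / 8)) = 1 := by
    rw [← Real.rpow_add hK, ← Real.rpow_add hK]
    have : (3 : ℝ) / 4 + -((4 - p) / 8) + -((2 + p) / 8) = 0 := by ring
    rw [this, Real.rpow_zero]
  have f2 : a ^ (p / 4) * a ^ ((4 - p) / 4) = a := by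
    rw [← Real.rpow_add ha']
    have : p / 4 + (4 - p) / 4 = 1 := by ring
    rw [this, Real.rpow_one]
  have f3 : b ^ ((2 - p) / 4) * b ^ ((2 + p) / 4) = b := by
    rw [← Real.rpow_add hb']
    have : (2 - p) / 4 + (2 + p) / 4 = 1 := by ring
    rw [this, Real.rpow_one]
  calc a * b = (K ^ ((3 : ℝ) / 4) * K ^ (-((4 - p) / 8)) * K ^ (-((2 + p) / 8))) *
        (a ^ (p / 4) * a ^ ((4 - p) / 4)) * (b ^ ((2 - p) / 4) * b ^ ((2 + p) / 4)) := by
        rw [f1, f2, f3, one_mul]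
    _ = _ := by ring

/-- the exponent of `n` -/
noncomputable def gam (p : ℝ) : ℝ := (2 - p) ^ 2 / (8 * p)

lemma gam_pos {p : ℝ} (hp1 : 1 ≤ p) (hp2 : p < 2) : 0 < gam p := by
  unfold gam
  have : 0 < 2 - p := by linarith
  positivity

lemma rpow_le_of_le {x y p : ℝ} (hx : 0 ≤ x) (hy : 0 ≤ y) (hp : 0 < p) (h : x ^ p ≤ y ^ p) : x ≤ y :=
  (Real.rpow_le_rpow_iff hx hy hp).1 h

/-- `ℓ_p` norms dominate `ℓ_2` norms -/
lemma sum_sq_le {ι : Type} [Fintype ι] {p : ℝ} (hp1 : 1 ≤ p) (hp2 : p < 2) (x : ι → ℝ)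
    (hx : ∀ i, 0 ≤ x i) {M : ℝ} (hM : 0 < M) (h : ∑ i, x i ^ p ≤ M ^ p) :
    ∑ i, x i ^ (2 : ℕ) ≤ M ^ (2 : ℕ) := by
  have hxM : ∀ i, x i ≤ M := by
    intro i
    refine rpow_le_of_le (hx i) hM.le (by linarith) (le_trans ?_ h)
    exact Finset.single_le_sum (f := fun i => x i ^ p)
      (fun j _ => Real.rpow_nonneg (hx j) _) (Finset.mem_univ i)
  calc ∑ i, x i ^ (2 : ℕ) ≤ ∑ i, x i ^ p * M ^ (2 - p) := by
        refine Finset.sum_le_sum fun i _ => ?_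
        rcases (hx i).eq_or_lt with h0 | h0
        · rw [← h0, Real.zero_rpow (by linarith)]; simp
        · have : x i ^ (2 : ℕ) = x i ^ p * x i ^ (2 - p) := by
            rw [← Real.rpow_add h0, ← Real.rpow_natCast]
            congr 1
            push_cast; ring
          rw [this]
          refine mul_le_mul_of_nonneg_left ?_ (Real.rpow_nonneg (hx i) _)
          exact Real.rpow_le_rpow (hx i) (hxM i) (by linarith)
    _ = (∑ i, x i ^ p) * M ^ (2 - p) := by rw [Finset.sum_mul]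
    _ ≤ M ^ p * M ^ (2 - p) := mul_le_mul_of_nonneg_right h (Real.rpow_nonneg hM.le _)
    _ = M ^ (2 : ℕ) := by
        rw [← Real.rpow_add hM, ← Real.rpow_natCast]
        congr 1
        push_cast; ring

lemma mixed_le {p x y : ℝ} (hp1 : 1 ≤ p) (hp2 : p < 2) (hx : 0 < x) (hy : 0 ≤ y) :
    x ^ (2 * p - 2) * y ^ (2 - p) ≤ x ^ p + y ^ p := by
  have hxp : 0 ≤ x ^ p := Real.rpow_nonneg hx.le _
  have hyp : 0 ≤ y ^ p := Real.rpow_nonneg hy _
  rcases le_total x y with h | h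
  · have hy' : 0 < y := lt_of_lt_of_le hx h
    calc x ^ (2 * p - 2) * y ^ (2 - p) ≤ y ^ (2 * p - 2) * y ^ (2 - p) := by
          refine mul_le_mul_of_nonneg_right ?_ (Real.rpow_nonneg hy _)
          exact Real.rpow_le_rpow hx.le h (by linarith)
      _ = y ^ p := by rw [← Real.rpow_add hy']; congr 1; ring
      _ ≤ x ^ p + y ^ p := by linarith
  · calc x ^ (2 * p - 2) * y ^ (2 - p) ≤ x ^ (2 * p - 2) * x ^ (2 - p) := by
          refine mul_le_mul_of_nonneg_left ?_ (Real.rpow_nonneg hx.le _)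
          exact Real.rpow_le_rpow hy h (by linarith)
      _ = x ^ p := by rw [← Real.rpow_add hx]; congr 1; ring
      _ ≤ x ^ p + y ^ p := by linarith

/-- the large-frequency bound -/
lemma large_bound {p : ℝ} (hp1 : 1 ≤ p) (hp2 : p < 2) {m : ℕ} {ι : Type} [Fintype ι]
    {n R M B lam : ℝ} (hm : 0 < m) (hn : 0 < n) (hR : 0 < R) (hM : 0 < M) (hB : 0 ≤ B)
    (hlam : 0 < lam) (A : ι → ℝ) (hA0 : ∀ i, 0 ≤ A i)
    (hA : ∑ i, (√m * A i) ^ p ≤ M ^ p)
    (a b : Fin m × ι → ℝ) (ha : ∀ c, |a c| ≤ lam * A c.2) (hb : ∀ c, |b c| ≤ lam * B)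
    (ha2 : ∑ c, a c ^ 2 ≤ R) (hb2 : ∑ c, b c ^ 2 ≤ R) :
    ∑ c, a c * b c ≤ lam ^ ((1 : ℝ) / 2) * R ^ ((3 : ℝ) / 4) * n ^ (-gam p) *
      (1 / 4 * (M ^ (p - 3 / 2) * (√m * n ^ (1 / p - 1 / 2) * B) ^ (2 - p)) +
        3 / 4 * M ^ ((1 : ℝ) / 2)) := by
  have hm' : (0 : ℝ) < m := by exact_mod_cast hm
  have hsm : 0 < √(m : ℝ) := Real.sqrt_pos.2 hm'
  set K : ℝ := n ^ gam p * M ^ (-(1 : ℝ) / 2) * R ^ ((1 : ℝ) / 4) * lam ^ (-(1 : ℝ) / 2) with hK
  have hK0 : 0 < K := by positivity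
  -- the p-sum
  have hS : ∑ c : Fin m × ι, |a c| ^ p * |b c| ^ (2 - p) ≤
      lam ^ (2 : ℕ) * (M ^ p * (√m * B) ^ (2 - p)) := by
    have h1 : ∀ c : Fin m × ι, |a c| ^ p * |b c| ^ (2 - p) ≤
        (lam ^ p * A c.2 ^ p) * (lam ^ (2 - p) * B ^ (2 - p)) := by
      intro c
      have e1 : |a c| ^ p ≤ lam ^ p * A c.2 ^ p := by
        rw [← Real.mul_rpow hlam.le (hA0 _)]
        exact Real.rpow_le_rpow (abs_nonneg _) (ha c) (by linarith)
      have e2 : |b c| ^ (2 - p) ≤ lam ^ (2 - p) * B ^ (2 - p) := by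
        rw [← Real.mul_rpow hlam.le hB]
        exact Real.rpow_le_rpow (abs_nonneg _) (hb c) (by linarith)
      exact mul_le_mul e1 e2 (Real.rpow_nonneg (abs_nonneg _) _)
        (mul_nonneg (Real.rpow_nonneg hlam.le _) (Real.rpow_nonneg (hA0 _) _))
    refine (Finset.sum_le_sum fun c _ => h1 c).trans ?_
    have h2 : ∑ c : Fin m × ι, (lam ^ p * A c.2 ^ p) * (lam ^ (2 - p) * B ^ (2 - p)) =
        (lam ^ p * lam ^ (2 - p)) * B ^ (2 - p) * (m * ∑ i, A i ^ p) := by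
      rw [Fintype.sum_prod_type]
      simp only
      rw [Finset.sum_const, Finset.card_univ, Fintype.card_fin, nsmul_eq_mul]
      rw [Finset.mul_sum, Finset.mul_sum, Finset.mul_sum]
      refine Finset.sum_congr rfl fun i _ => ?_
      ring
    have h3 : lam ^ p * lam ^ (2 - p) = lam ^ (2 : ℕ) := by
      rw [← Real.rpow_add hlam, ← Real.rpow_natCast]; congr 1; push_cast; ring
    have h4 : (m : ℝ) * ∑ i, A i ^ p = √m ^ (2 - p) * ∑ i, (√m * A i) ^ p := by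
      have e : ∀ i, (√(m : ℝ) * A i) ^ p = √(m : ℝ) ^ p * A i ^ p := fun i =>
        Real.mul_rpow hsm.le (hA0 i)
      simp_rw [e]
      rw [← Finset.mul_sum, ← mul_assoc, ← Real.rpow_add hsm]
      have : 2 - p + p = ((2 : ℕ) : ℝ) := by push_cast; ring
      rw [this, Real.rpow_natCast, Real.sq_sqrt hm'.le]
    rw [h2, h3, h4]
    have h5 : (√(m : ℝ) * B) ^ (2 - p) = √(m : ℝ) ^ (2 - p) * B ^ (2 - p) :=
      Real.mul_rpow hsm.le hB
    rw [h5]
    have h6 : 0 ≤ lam ^ (2 : ℕ) * (√(m : ℝ) ^ (2 - p) * B ^ (2 - p)) := by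
      have := Real.rpow_nonneg hB (2 - p)
      positivity
    calc lam ^ (2 : ℕ) * B ^ (2 - p) * (√(m : ℝ) ^ (2 - p) * ∑ i, (√m * A i) ^ p)
        = lam ^ (2 : ℕ) * (√(m : ℝ) ^ (2 - p) * B ^ (2 - p)) * ∑ i, (√m * A i) ^ p := by ring
      _ ≤ lam ^ (2 : ℕ) * (√(m : ℝ) ^ (2 - p) * B ^ (2 - p)) * M ^ p :=
          mul_le_mul_of_nonneg_left hA h6
      _ = lam ^ (2 : ℕ) * (M ^ p * (√(m : ℝ) ^ (2 - p) * B ^ (2 - p))) := by ring
  have hw : ∑ c, a c * b c ≤ 1 / 4 * (K ^ (3 : ℕ) * (lam ^ (2 : ℕ) * (M ^ p * (√m * B) ^ (2 - p)))) +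
      3 / 4 * (K⁻¹ * R) := by
    have h1 : ∀ c : Fin m × ι, a c * b c ≤ 1 / 4 * (K ^ (3 : ℕ) * (|a c| ^ p * |b c| ^ (2 - p))) +
        (4 - p) / 8 * (K⁻¹ * a c ^ (2 : ℕ)) + (2 + p) / 8 * (K⁻¹ * b c ^ (2 : ℕ)) := by
      intro c
      have := young3 hp1 hp2 hK0 (abs_nonneg (a c)) (abs_nonneg (b c))
      rw [sq_abs, sq_abs, ← abs_mul] at this
      exact (le_abs_self _).trans this
    refine (Finset.sum_le_sum fun c _ => h1 c).trans ?_
    rw [Finset.sum_add_distrib, Finset.sum_add_distrib, ← Finset.mul_sum, ← Finset.mul_sum,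
      ← Finset.mul_sum, ← Finset.mul_sum, ← Finset.mul_sum, ← Finset.mul_sum]
    have g1 : 0 ≤ K⁻¹ := by positivity
    have g2 : (4 - p) / 8 * (K⁻¹ * ∑ c, a c ^ 2) ≤ (4 - p) / 8 * (K⁻¹ * R) :=
      mul_le_mul_of_nonneg_left (mul_le_mul_of_nonneg_left ha2 g1) (by linarith)
    have g3 : (2 + p) / 8 * (K⁻¹ * ∑ c, b c ^ 2) ≤ (2 + p) / 8 * (K⁻¹ * R) :=
      mul_le_mul_of_nonneg_left (mul_le_mul_of_nonneg_left hb2 g1) (by linarith)
    have g4 : 1 / 4 * (K ^ (3 : ℕ) * ∑ c : Fin m × ι, |a c| ^ p * |b c| ^ (2 - p)) ≤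
        1 / 4 * (K ^ (3 : ℕ) * (lam ^ (2 : ℕ) * (M ^ p * (√m * B) ^ (2 - p)))) :=
      mul_le_mul_of_nonneg_left (mul_le_mul_of_nonneg_left hS (by positivity)) (by norm_num)
    have g5 : (4 - p) / 8 * (K⁻¹ * R) + (2 + p) / 8 * (K⁻¹ * R) = 3 / 4 * (K⁻¹ * R) := by ring
    linarith
  refine hw.trans (le_of_eq ?_)
  -- evaluate the powers
  have k1 : K⁻¹ * R = lam ^ ((1 : ℝ) / 2) * R ^ ((3 : ℝ) / 4) * n ^ (-gam p) * M ^ ((1 : ℝ) / 2) := by
    rw [hK, mul_inv, mul_inv, mul_inv, ← Real.rpow_neg hn.le, ← Real.rpow_neg hM.le,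
      ← Real.rpow_neg hR.le, ← Real.rpow_neg hlam.le]
    have : R ^ (-((1 : ℝ) / 4)) * R = R ^ ((3 : ℝ) / 4) := by
      nth_rewrite 2 [← Real.rpow_one R]
      rw [← Real.rpow_add hR]; norm_num
    rw [show (-(-(1 : ℝ) / 2)) = 1 / 2 by norm_num]
    calc n ^ (-gam p) * M ^ ((1 : ℝ) / 2) * R ^ (-((1 : ℝ) / 4)) * lam ^ ((1 : ℝ) / 2) * R
        = n ^ (-gam p) * M ^ ((1 : ℝ) / 2) * (R ^ (-((1 : ℝ) / 4)) * R) * lam ^ ((1 : ℝ) / 2) := by ring
      _ = _ := by rw [this]; ring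
  have k2 : K ^ (3 : ℕ) = n ^ (3 * gam p) * M ^ (-(3 : ℝ) / 2) * R ^ ((3 : ℝ) / 4) *
      lam ^ (-(3 : ℝ) / 2) := by
    rw [hK, mul_pow, mul_pow, mul_pow, ← Real.rpow_natCast, ← Real.rpow_natCast,
      ← Real.rpow_natCast, ← Real.rpow_natCast, ← Real.rpow_mul hn.le, ← Real.rpow_mul hM.le,
      ← Real.rpow_mul hR.le, ← Real.rpow_mul hlam.le]
    congr 1
    · congr 1
      · congr 1
        · congr 1; push_cast; ring
        · congr 1; push_cast; ring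
      · congr 1; push_cast; ring
    · congr 1; push_cast; ring
  have k3 : (√(m : ℝ) * n ^ (1 / p - 1 / 2) * B) ^ (2 - p) =
      n ^ (4 * gam p) * (√(m : ℝ) * B) ^ (2 - p) := by
    rw [show √(m : ℝ) * n ^ (1 / p - 1 / 2) * B = n ^ (1 / p - 1 / 2) * (√(m : ℝ) * B) by ring,
      Real.mul_rpow (by positivity) (by positivity), ← Real.rpow_mul hn.le]
    congr 2
    unfold gam
    have : p ≠ 0 := by linarith
    field_simp
    ring
  rw [k1, k2, k3]
  have k4 : n ^ (3 * gam p) = n ^ (-gam p) * n ^ (4 * gam p) := by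
    rw [← Real.rpow_add hn]; congr 1; ring
  have k5 : M ^ (-(3 : ℝ) / 2) * M ^ p = M ^ (p - 3 / 2) := by
    rw [← Real.rpow_add hM]; congr 1; ring
  have k6 : lam ^ (-(3 : ℝ) / 2) * lam ^ (2 : ℕ) = lam ^ ((1 : ℝ) / 2) := by
    rw [← Real.rpow_natCast, ← Real.rpow_add hlam]; norm_num
  rw [k4, ← k5, ← k6]
  ring

/-- **Integrated bound** for one slice. -/
lemma exists_h {p : ℝ} (hp1 : 1 ≤ p) (hp2 : p < 2) {m : ℕ} {ι : Type} [Fintype ι]
    {n R B kap eps : ℝ} (hm : 0 < m) (hn : 0 < n) (hR : 0 < R) (hB : 0 ≤ B) (hkap : 0 < kap)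
    (heps : 0 < eps) (A : ι → ℝ) (hA0 : ∀ i, 0 ≤ A i) :
    ∃ h : ℝ → ℝ, IntegrableOn (fun t => h t * t ^ (-1 - p)) (Ioi 0) ∧
      (∀ lam : ℝ, 0 < lam → ∀ a b : Fin m × ι → ℝ, (∀ c, |a c| ≤ lam * A c.2) →
        (∀ c, |b c| ≤ lam * B) → ∑ c, a c ^ 2 ≤ R → ∑ c, b c ^ 2 ≤ R →
        ∑ c, a c * b c ≤ (2 * kap)⁻¹ * ∑ c, b c ^ 2 + h lam) ∧
      ∫ t in Ioi (0 : ℝ), h t * t ^ (-1 - p) ≤
        kap / 2 * (eps ^ (2 - p) / (2 - p)) * ∑ i, (√m * A i) ^ p +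
        2 * eps ^ (-(p - 1 / 2)) * R ^ ((3 : ℝ) / 4) * n ^ (-gam p) *
          (∑ i, (√m * A i) ^ p + (√m * n ^ (1 / p - 1 / 2) * B) ^ p) := by
  have hm' : (0 : ℝ) < m := by exact_mod_cast hm
  have hsm : 0 < √(m : ℝ) := Real.sqrt_pos.2 hm'
  set U : ℝ := ∑ i, (√m * A i) ^ p with hU
  set M' : ℝ := √m * n ^ (1 / p - 1 / 2) * B with hM'
  have hM'0 : 0 ≤ M' := by positivity
  have hU0 : 0 ≤ U := Finset.sum_nonneg fun i _ =>
    Real.rpow_nonneg (mul_nonneg hsm.le (hA0 i)) _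
  have hV0 : 0 ≤ M' ^ p := Real.rpow_nonneg hM'0 _
  rcases hU0.eq_or_lt with h0 | hUpos
  · refine ⟨fun _ => 0, by simp, ?_, ?_⟩
    · intro lam hlam a b ha hb ha2 hb2
      have hA : ∀ i, A i = 0 := by
        intro i
        have h1 := (Finset.sum_eq_zero_iff_of_nonneg (s := Finset.univ)
          (f := fun i => (√(m : ℝ) * A i) ^ p)
          (fun i _ => Real.rpow_nonneg (mul_nonneg hsm.le (hA0 i)) _)).1 h0.symm i (Finset.mem_univ i)
        have h2 := (Real.rpow_eq_zero (mul_nonneg hsm.le (hA0 i)) (by linarith)).1 h1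
        rcases mul_eq_zero.1 h2 with h3 | h3
        · exact absurd h3 hsm.ne'
        · exact h3
      have ha0 : ∀ c, a c = 0 := by
        intro c
        have := ha c
        rw [hA, mul_zero] at this
        exact abs_nonpos_iff.1 this
      simp_rw [ha0]
      have : 0 ≤ ∑ c, b c ^ 2 := Finset.sum_nonneg fun _ _ => sq_nonneg _
      have h2 : 0 ≤ (2 * kap)⁻¹ * ∑ c, b c ^ 2 := mul_nonneg (by positivity) this
      simpa using h2
    · simp only [zero_mul, integral_zero]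
      have : 0 < 2 - p := by linarith
      positivity
  set M : ℝ := U ^ (1 / p) with hM
  have hM0 : 0 < M := Real.rpow_pos_of_pos hUpos _
  have hp0 : p ≠ 0 := by linarith
  have hMp : M ^ p = U := by
    rw [hM, ← Real.rpow_mul hU0, one_div, inv_mul_cancel₀ hp0, Real.rpow_one]
  set c1 : ℝ := kap / 2 * M ^ (2 : ℕ) with hc1
  set c2 : ℝ := R ^ ((3 : ℝ) / 4) * n ^ (-gam p) *
      (1 / 4 * (M ^ (p - 3 / 2) * M' ^ (2 - p)) + 3 / 4 * M ^ ((1 : ℝ) / 2)) with hc2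
  have hc1' : 0 ≤ c1 := by positivity
  have hc2' : 0 ≤ c2 := by
    have := Real.rpow_nonneg hM'0 (2 - p)
    positivity
  set τ : ℝ := eps / M with hτ
  have hτ0 : 0 < τ := by positivity
  have hsplit : (Ioi (0 : ℝ)) = Ioc 0 τ ∪ Ioi τ := (Ioc_union_Ioi_eq_Ioi hτ0.le).symm
  have hdisj : Disjoint (Ioc (0 : ℝ) τ) (Ioi τ) := by
    rw [Set.disjoint_left]; intro t ht ht'; exact absurd ht.2 (not_le.2 ht')
  let h : ℝ → ℝ := fun t => if t ≤ τ then c1 * t ^ (2 : ℕ) else c2 * t ^ ((1 : ℝ) / 2)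
  have e1 : ∀ t ∈ Ioc (0 : ℝ) τ, h t * t ^ (-1 - p) = c1 * t ^ (1 - p) := by
    intro t ht
    have ht0 : 0 < t := ht.1
    simp only [h, if_pos ht.2]
    rw [mul_assoc, ← Real.rpow_natCast, ← Real.rpow_add ht0]
    congr 2
    push_cast; ring
  have e2 : ∀ t ∈ Ioi τ, h t * t ^ (-1 - p) = c2 * t ^ (-1 / 2 - p) := by
    intro t ht
    have ht0 : 0 < t := lt_trans hτ0 ht
    have hnt : ¬ t ≤ τ := not_le.2 (Set.mem_Ioi.1 ht)
    change (if t ≤ τ then c1 * t ^ (2 : ℕ) else c2 * t ^ ((1 : ℝ) / 2)) * t ^ (-1 - p) = _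
    rw [if_neg hnt, mul_assoc, ← Real.rpow_add ht0]
    congr 2
    ring
  have i1 : IntegrableOn (fun t => h t * t ^ (-1 - p)) (Ioc 0 τ) := by
    have := (integrableOn_rpow_zero (a := 1 - p) (by linarith) hτ0.le).const_mul c1
    exact IntegrableOn.congr_fun this (fun t ht => (e1 t ht).symm) measurableSet_Ioc
  have i2 : IntegrableOn (fun t => h t * t ^ (-1 - p)) (Ioi τ) := by
    have := (integrableOn_Ioi_rpow_of_lt (a := -1 / 2 - p) (by linarith) hτ0).const_mul c2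
    exact IntegrableOn.congr_fun this (fun t ht => (e2 t ht).symm) measurableSet_Ioi
  refine ⟨h, ?_, ?_, ?_⟩
  · rw [hsplit]; exact i1.union i2
  · intro lam hlam a b ha hb ha2 hb2
    have hb0 : 0 ≤ ∑ c, b c ^ 2 := Finset.sum_nonneg fun _ _ => sq_nonneg _
    by_cases hl : lam ≤ τ
    · simp only [h, if_pos hl]
      have hAM : ∑ c, a c ^ 2 ≤ lam ^ 2 * M ^ 2 := by
        calc ∑ c, a c ^ 2 ≤ ∑ c : Fin m × ι, (lam * A c.2) ^ 2 := by
              refine Finset.sum_le_sum fun c _ => ?_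
              rw [← sq_abs]
              exact pow_le_pow_left₀ (abs_nonneg _) (ha c) 2
          _ = lam ^ 2 * ∑ i, (√m * A i) ^ (2 : ℕ) := by
              rw [Fintype.sum_prod_type]
              simp only
              rw [Finset.sum_const, Finset.card_univ, Fintype.card_fin, nsmul_eq_mul, Finset.mul_sum,
                Finset.mul_sum]
              refine Finset.sum_congr rfl fun i _ => ?_
              rw [mul_pow, mul_pow, Real.sq_sqrt hm'.le]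
              ring
          _ ≤ lam ^ 2 * M ^ 2 := by
              refine mul_le_mul_of_nonneg_left ?_ (by positivity)
              exact sum_sq_le hp1 hp2 _ (fun i => mul_nonneg hsm.le (hA0 i)) hM0 hMp.ge
      have hAG : ∀ c, a c * b c ≤ kap / 2 * a c ^ 2 + (2 * kap)⁻¹ * b c ^ 2 := by
        intro c
        have h3 : 0 ≤ (2 * kap)⁻¹ * (kap * a c - b c) ^ 2 := by positivity
        have h4 : (2 * kap)⁻¹ * (kap * a c - b c) ^ 2 =
            kap / 2 * a c ^ 2 + (2 * kap)⁻¹ * b c ^ 2 - a c * b c := by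
          field_simp; ring
        linarith
      calc ∑ c, a c * b c ≤ ∑ c, (kap / 2 * a c ^ 2 + (2 * kap)⁻¹ * b c ^ 2) :=
            Finset.sum_le_sum fun c _ => hAG c
        _ = kap / 2 * ∑ c, a c ^ 2 + (2 * kap)⁻¹ * ∑ c, b c ^ 2 := by
            rw [Finset.sum_add_distrib, Finset.mul_sum, Finset.mul_sum]
        _ ≤ kap / 2 * (lam ^ 2 * M ^ 2) + (2 * kap)⁻¹ * ∑ c, b c ^ 2 := by
            have := mul_le_mul_of_nonneg_left hAM (by positivity : (0 : ℝ) ≤ kap / 2)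
            linarith
        _ = _ := by rw [hc1]; ring
    · simp only [h, if_neg hl]
      have hlb := large_bound hp1 hp2 hm hn hR hM0 hB hlam A hA0 hMp.ge a b ha hb ha2 hb2
      have h5 : 0 ≤ (2 * kap)⁻¹ * ∑ c, b c ^ 2 := mul_nonneg (by positivity) hb0
      have h6 : lam ^ ((1 : ℝ) / 2) * R ^ ((3 : ℝ) / 4) * n ^ (-gam p) *
        (1 / 4 * (M ^ (p - 3 / 2) * (√m * n ^ (1 / p - 1 / 2) * B) ^ (2 - p)) +
          3 / 4 * M ^ ((1 : ℝ) / 2)) = c2 * lam ^ ((1 : ℝ) / 2) := by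
        rw [hc2]; ring
      rw [h6] at hlb
      linarith
  · rw [hsplit, setIntegral_union hdisj measurableSet_Ioi i1 i2,
      setIntegral_congr_fun measurableSet_Ioc e1, setIntegral_congr_fun measurableSet_Ioi e2,
      integral_const_mul, integral_const_mul, integral_rpow_zero (by linarith) hτ0.le,
      integral_Ioi_rpow_of_lt (by linarith) hτ0]
    have f1 : c1 * (τ ^ (1 - p + 1) / (1 - p + 1)) = kap / 2 * (eps ^ (2 - p) / (2 - p)) * U := by
      have g1 : 1 - p + 1 = 2 - p := by ring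
      have g2 : τ ^ (2 - p) = eps ^ (2 - p) / M ^ (2 - p) := Real.div_rpow heps.le hM0.le _
      have g3 : M ^ (2 : ℕ) / M ^ (2 - p) = U := by
        rw [← Real.rpow_natCast, ← Real.rpow_sub hM0, ← hMp]
        congr 1; push_cast; ring
      rw [g1, g2, hc1]
      calc kap / 2 * M ^ (2 : ℕ) * (eps ^ (2 - p) / M ^ (2 - p) / (2 - p))
          = kap / 2 * (eps ^ (2 - p) / (2 - p)) * (M ^ (2 : ℕ) / M ^ (2 - p)) := by
            field_simp
        _ = _ := by rw [g3]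
    have f2 : c2 * (-τ ^ (-1 / 2 - p + 1) / (-1 / 2 - p + 1)) ≤
        2 * eps ^ (-(p - 1 / 2)) * R ^ ((3 : ℝ) / 4) * n ^ (-gam p) * (U + M' ^ p) := by
      have g1 : -1 / 2 - p + 1 = -(p - 1 / 2) := by ring
      have g2 : τ ^ (-(p - 1 / 2)) = eps ^ (-(p - 1 / 2)) * M ^ (p - 1 / 2) := by
        rw [hτ, Real.div_rpow heps.le hM0.le, Real.rpow_neg hM0.le, div_inv_eq_mul]
      have hp12 : 0 < p - 1 / 2 := by linarith
      rw [g1, neg_div_neg_eq, g2]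
      have g3 : M ^ (p - 3 / 2) * M ^ (p - 1 / 2) = M ^ (2 * p - 2) := by
        rw [← Real.rpow_add hM0]; congr 1; ring
      have g4 : M ^ ((1 : ℝ) / 2) * M ^ (p - 1 / 2) = M ^ p := by
        rw [← Real.rpow_add hM0]; congr 1; ring
      have g5 : c2 * M ^ (p - 1 / 2) ≤ R ^ ((3 : ℝ) / 4) * n ^ (-gam p) * (U + M' ^ p) := by
        have g6 : c2 * M ^ (p - 1 / 2) = R ^ ((3 : ℝ) / 4) * n ^ (-gam p) *
            (1 / 4 * (M ^ (2 * p - 2) * M' ^ (2 - p)) + 3 / 4 * M ^ p) := by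
          rw [hc2, ← g3, ← g4]; ring
        rw [g6]
        refine mul_le_mul_of_nonneg_left ?_ (by positivity)
        have g7 := mixed_le hp1 hp2 hM0 hM'0
        rw [hMp] at g7 ⊢
        linarith
      have g8 : (p - 1 / 2)⁻¹ ≤ 2 := by
        rw [inv_le_comm₀ hp12 (by norm_num)]; linarith
      have g9 : 0 ≤ R ^ ((3 : ℝ) / 4) * n ^ (-gam p) * (U + M' ^ p) := by positivity
      calc c2 * (eps ^ (-(p - 1 / 2)) * M ^ (p - 1 / 2) / (p - 1 / 2))
          = eps ^ (-(p - 1 / 2)) * (p - 1 / 2)⁻¹ * (c2 * M ^ (p - 1 / 2)) := by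
            rw [div_eq_mul_inv]; ring
        _ ≤ eps ^ (-(p - 1 / 2)) * (p - 1 / 2)⁻¹ *
            (R ^ ((3 : ℝ) / 4) * n ^ (-gam p) * (U + M' ^ p)) :=
            mul_le_mul_of_nonneg_left g5 (by positivity)
        _ ≤ eps ^ (-(p - 1 / 2)) * 2 * (R ^ ((3 : ℝ) / 4) * n ^ (-gam p) * (U + M' ^ p)) := by
            refine mul_le_mul_of_nonneg_right ?_ g9
            exact mul_le_mul_of_nonneg_left g8 (by positivity)
        _ = _ := by ring
    rw [f1]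
    linarith

end Pool.Agent.W533.U
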