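import Pool.Agent.W533.U.Cube
import Pool.Agent.W533.U.Slice

set_option autoImplicit false
set_option linter.unusedSectionVars false
set_option linter.unusedSimpArgs false

/-!
The Poincare type inequality for two real functions on the cube.
-/

open MeasureTheory Set Finset

namespace Pool.Agent.W533.U

section general

variable {β : Type} [Fintype β] [DecidableEq β]
variable {H₁ H₂ : Type} [Fintype H₁] [Nonempty H₁] [Fintype H₂] [Nonempty H₂]

/-- averaged cosine -/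
noncomputable def Cf {H : Type} [Fintype H] (φ : (β → Bool) → H → ℝ) (t : ℝ) (x : β → Bool) : ℝ :=
  (∑ η, Real.cos (t * φ x η)) / Fintype.card H

/-- averaged sine -/
noncomputable def Sf {H : Type} [Fintype H] (φ : (β → Bool) → H → ℝ) (t : ℝ) (x : β → Bool) : ℝ :=
  (∑ η, Real.sin (t * φ x η)) / Fintype.card H

/-- averaged power distance -/
noncomputable def Wf (p : ℝ) (φ : (β → Bool) → H₁ → ℝ) (ψ : (β → Bool) → H₂ → ℝ)
    (x y : β → Bool) : ℝ :=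
  (∑ η₁, ∑ η₂, |φ x η₁ - ψ y η₂| ^ p) / ((Fintype.card H₁ : ℝ) * Fintype.card H₂)

lemma abs_av_le {H : Type} [Fintype H] [Nonempty H] (F : H → ℝ) (hF : ∀ η, |F η| ≤ 1) :
    |(∑ η, F η) / Fintype.card H| ≤ 1 := by
  have hc : (0 : ℝ) < Fintype.card H := by exact_mod_cast Fintype.card_pos
  rw [abs_div, abs_of_pos hc, div_le_one hc]
  refine (Finset.abs_sum_le_sum_abs _ _).trans ?_
  refine (Finset.sum_le_sum fun η _ => hF η).trans ?_
  simp

lemma abs_Cf_le {H : Type} [Fintype H] [Nonempty H] (φ : (β → Bool) → H → ℝ) (t : ℝ)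
    (x : β → Bool) : |Cf φ t x| ≤ 1 :=
  abs_av_le _ fun _ => Real.abs_cos_le_one _

lemma abs_Sf_le {H : Type} [Fintype H] [Nonempty H] (φ : (β → Bool) → H → ℝ) (t : ℝ)
    (x : β → Bool) : |Sf φ t x| ≤ 1 :=
  abs_av_le _ fun _ => Real.abs_sin_le_one _

/-- the slice kernel -/
noncomputable def kf (φ : (β → Bool) → H₁ → ℝ) (ψ : (β → Bool) → H₂ → ℝ) (x y : β → Bool) (t : ℝ) : ℝ :=
  1 - (Cf φ t x * Cf ψ t y + Sf φ t x * Sf ψ t y)

lemma kf_eq (φ : (β → Bool) → H₁ → ℝ) (ψ : (β → Bool) → H₂ → ℝ) (x y : β → Bool) (t : ℝ) :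
    kf φ ψ x y t = (∑ η₁, ∑ η₂, (1 - Real.cos (t * (φ x η₁ - ψ y η₂)))) /
      ((Fintype.card H₁ : ℝ) * Fintype.card H₂) := by
  have h1 : (Fintype.card H₁ : ℝ) ≠ 0 := by exact_mod_cast Fintype.card_ne_zero
  have h2 : (Fintype.card H₂ : ℝ) ≠ 0 := by exact_mod_cast Fintype.card_ne_zero
  have e : ∀ η₁ η₂, 1 - Real.cos (t * (φ x η₁ - ψ y η₂)) =
      1 - (Real.cos (t * φ x η₁) * Real.cos (t * ψ y η₂) +
        Real.sin (t * φ x η₁) * Real.sin (t * ψ y η₂)) := by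
    intro η₁ η₂
    rw [mul_sub, Real.cos_sub]
  simp_rw [e, Finset.sum_sub_distrib, Finset.sum_add_distrib]
  rw [← Finset.sum_mul_sum, ← Finset.sum_mul_sum]
  unfold kf Cf Sf
  simp only [Finset.sum_const, Finset.card_univ, nsmul_eq_mul, mul_one]
  field_simp

lemma integrableOn_kf {p : ℝ} (hp1 : 1 ≤ p) (hp2 : p < 2) (φ : (β → Bool) → H₁ → ℝ)
    (ψ : (β → Bool) → H₂ → ℝ) (x y : β → Bool) :
    IntegrableOn (fun t : ℝ => kf φ ψ x y t * t ^ (-1 - p)) (Ioi 0) := by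
  have e : (fun t : ℝ => kf φ ψ x y t * t ^ (-1 - p)) = fun t : ℝ =>
      (∑ η₁, ∑ η₂, (1 - Real.cos (t * (φ x η₁ - ψ y η₂))) * t ^ (-1 - p)) *
        ((Fintype.card H₁ : ℝ) * Fintype.card H₂)⁻¹ := by
    funext t
    rw [kf_eq, div_eq_mul_inv]
    simp_rw [← Finset.sum_mul]
    ring
  rw [e]
  refine Integrable.mul_const ?_ _
  refine integrable_finset_sum _ fun η₁ _ => integrable_finset_sum _ fun η₂ _ => ?_
  exact integrableOn_cosint (by linarith) hp2 _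

lemma integral_kf {p : ℝ} (hp1 : 1 ≤ p) (hp2 : p < 2) (φ : (β → Bool) → H₁ → ℝ)
    (ψ : (β → Bool) → H₂ → ℝ) (x y : β → Bool) :
    ∫ t in Ioi (0 : ℝ), kf φ ψ x y t * t ^ (-1 - p) = cp p * Wf p φ ψ x y := by
  have e : (fun t : ℝ => kf φ ψ x y t * t ^ (-1 - p)) = fun t : ℝ =>
      (∑ η₁, ∑ η₂, (1 - Real.cos (t * (φ x η₁ - ψ y η₂))) * t ^ (-1 - p)) *
        ((Fintype.card H₁ : ℝ) * Fintype.card H₂)⁻¹ := by
    funext t
    rw [kf_eq, div_eq_mul_inv]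
    simp_rw [← Finset.sum_mul]
    ring
  rw [e, integral_mul_const, integral_finset_sum]
  · have : ∀ η₁, ∫ t in Ioi (0 : ℝ), ∑ η₂, (1 - Real.cos (t * (φ x η₁ - ψ y η₂))) * t ^ (-1 - p) =
        ∑ η₂, cp p * |φ x η₁ - ψ y η₂| ^ p := by
      intro η₁
      rw [integral_finset_sum]
      · exact Finset.sum_congr rfl fun η₂ _ => cosint_eq (by linarith) _
      · intro η₂ _
        exact integrableOn_cosint (by linarith) hp2 _
    simp_rw [this, ← Finset.mul_sum]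
    unfold Wf
    rw [div_eq_mul_inv]
    ring
  · intro η₁ _
    refine integrable_finset_sum _ fun η₂ _ => ?_
    exact integrableOn_cosint (by linarith) hp2 _

/-- the quadratic functional -/
noncomputable def Qf (p : ℝ) (φ : (β → Bool) → H₁ → ℝ) (ψ : (β → Bool) → H₂ → ℝ) (ρ : ℝ) : ℝ :=
  -(1 / 2) * ((∑ x, ∑ y, Ker ρ x y * Wf p φ ψ x y) / (cN β * cN β))

lemma hasDerivAt_Qf (p : ℝ) (φ : (β → Bool) → H₁ → ℝ) (ψ : (β → Bool) → H₂ → ℝ) (ρ : ℝ) :
    HasDerivAt (Qf p φ ψ)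
      (-(1 / 2) * ((∑ x, ∑ y, dKer ρ x y * Wf p φ ψ x y) / (cN β * cN β))) ρ := by
  unfold Qf
  refine HasDerivAt.const_mul _ (HasDerivAt.div_const ?_ _)
  refine HasDerivAt.fun_sum fun x _ => HasDerivAt.fun_sum fun y _ => ?_
  exact (hasDerivAt_Ker ρ x y).mul_const _

/-- slice derivative -/
noncomputable def Gam (r : ℝ) (φ : (β → Bool) → H₁ → ℝ) (ψ : (β → Bool) → H₂ → ℝ) (t : ℝ) : ℝ :=
  (∑ X, ∑ b, (Tn r (Dd b (Cf φ t)) X * Tn r (Dd b (Cf ψ t)) X +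
    Tn r (Dd b (Sf φ t)) X * Tn r (Dd b (Sf ψ t)) X)) / cN β

lemma Dd_const (b : β) (c : ℝ) : Dd b (fun _ : β → Bool => c) = fun _ => 0 := by
  funext x; unfold Dd; ring

lemma sum_dKer (r : ℝ) : (∑ x : β → Bool, ∑ y, dKer (r * r) x y) / (cN β * cN β) = 0 := by
  have h := deriv_formula r (fun _ : β → Bool => (1 : ℝ)) (fun _ => 1)
  simp only [one_mul, Dd_const, Tn_const, mul_zero, Finset.sum_const_zero, zero_div] at h
  exact h

lemma sum_dKer_kf (r : ℝ) (φ : (β → Bool) → H₁ → ℝ) (ψ : (β → Bool) → H₂ → ℝ) (t : ℝ) :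
    (∑ x, ∑ y, dKer (r * r) x y * kf φ ψ x y t) / (cN β * cN β) = - Gam r φ ψ t := by
  have h1 := deriv_formula r (Cf φ t) (Cf ψ t)
  have h2 := deriv_formula r (Sf φ t) (Sf ψ t)
  have h3 := sum_dKer (β := β) r
  have e : ∑ x, ∑ y, dKer (r * r) x y * kf φ ψ x y t =
      ∑ x : β → Bool, ∑ y, dKer (r * r) x y - (∑ x, ∑ y, Cf φ t x * Cf ψ t y * dKer (r * r) x y +
        ∑ x, ∑ y, Sf φ t x * Sf ψ t y * dKer (r * r) x y) := by
    rw [← Finset.sum_add_distrib, ← Finset.sum_sub_distrib]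
    refine Finset.sum_congr rfl fun x _ => ?_
    rw [← Finset.sum_add_distrib, ← Finset.sum_sub_distrib]
    refine Finset.sum_congr rfl fun y _ => ?_
    unfold kf
    ring
  rw [e, sub_div, h3, add_div, h1, h2, zero_sub]
  unfold Gam
  rw [← add_div, ← Finset.sum_add_distrib]
  simp_rw [← Finset.sum_add_distrib]

lemma integrableOn_Gam {p : ℝ} (hp1 : 1 ≤ p) (hp2 : p < 2) (r : ℝ) (φ : (β → Bool) → H₁ → ℝ)
    (ψ : (β → Bool) → H₂ → ℝ) :
    IntegrableOn (fun t : ℝ => Gam r φ ψ t * t ^ (-1 - p)) (Ioi 0) := by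
  have e : (fun t : ℝ => Gam r φ ψ t * t ^ (-1 - p)) = fun t : ℝ =>
      (∑ x, ∑ y, dKer (r * r) x y * (kf φ ψ x y t * t ^ (-1 - p))) * (-(cN β * cN β)⁻¹) := by
    funext t
    have := sum_dKer_kf r φ ψ t
    rw [show Gam r φ ψ t = - ((∑ x, ∑ y, dKer (r * r) x y * kf φ ψ x y t) / (cN β * cN β)) by
      rw [this]; ring]
    rw [div_eq_mul_inv]
    simp_rw [← mul_assoc, ← Finset.sum_mul]
    ring
  rw [e]
  refine Integrable.mul_const ?_ _
  refine integrable_finset_sum _ fun x _ => integrable_finset_sum _ fun y _ => ?_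
  exact (integrableOn_kf hp1 hp2 φ ψ x y).const_mul _

lemma deriv_Qf_eq {p : ℝ} (hp1 : 1 ≤ p) (hp2 : p < 2) (r : ℝ) (φ : (β → Bool) → H₁ → ℝ)
    (ψ : (β → Bool) → H₂ → ℝ) :
    -(1 / 2) * ((∑ x, ∑ y, dKer (r * r) x y * Wf p φ ψ x y) / (cN β * cN β)) =
      (2 * cp p)⁻¹ * ∫ t in Ioi (0 : ℝ), Gam r φ ψ t * t ^ (-1 - p) := by
  have hcp := cp_pos (p := p) (by linarith) hp2
  have e : (fun t : ℝ => Gam r φ ψ t * t ^ (-1 - p)) = fun t : ℝ =>
      (∑ x, ∑ y, dKer (r * r) x y * (kf φ ψ x y t * t ^ (-1 - p))) * (-(cN β * cN β)⁻¹) := by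
    funext t
    have := sum_dKer_kf r φ ψ t
    rw [show Gam r φ ψ t = - ((∑ x, ∑ y, dKer (r * r) x y * kf φ ψ x y t) / (cN β * cN β)) by
      rw [this]; ring]
    rw [div_eq_mul_inv]
    simp_rw [← mul_assoc, ← Finset.sum_mul]
    ring
  rw [e, integral_mul_const, integral_finset_sum]
  · have : ∀ x, ∫ t in Ioi (0 : ℝ), ∑ y, dKer (r * r) x y * (kf φ ψ x y t * t ^ (-1 - p)) =
        ∑ y, dKer (r * r) x y * (cp p * Wf p φ ψ x y) := by
      intro x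
      rw [integral_finset_sum]
      · refine Finset.sum_congr rfl fun y _ => ?_
        rw [integral_const_mul, integral_kf hp1 hp2]
      · intro y _
        exact (integrableOn_kf hp1 hp2 φ ψ x y).const_mul _
    simp_rw [this]
    have e2 : ∑ x, ∑ y, dKer (r * r) x y * (cp p * Wf p φ ψ x y) =
        cp p * ∑ x, ∑ y, dKer (r * r) x y * Wf p φ ψ x y := by
      rw [Finset.mul_sum]
      refine Finset.sum_congr rfl fun x _ => ?_
      rw [Finset.mul_sum]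
      refine Finset.sum_congr rfl fun y _ => ?_
      ring
    rw [e2]
    field_simp
  · intro x _
    refine integrable_finset_sum _ fun y _ => ?_
    exact (integrableOn_kf hp1 hp2 φ ψ x y).const_mul _

lemma Wf_nonneg (p : ℝ) (φ : (β → Bool) → H₁ → ℝ) (ψ : (β → Bool) → H₂ → ℝ) (x y : β → Bool) :
    0 ≤ Wf p φ ψ x y := by
  unfold Wf
  refine div_nonneg ?_ (by positivity)
  exact Finset.sum_nonneg fun _ _ => Finset.sum_nonneg fun _ _ => Real.rpow_nonneg (abs_nonneg _) _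

lemma Qf_zero (p : ℝ) (φ : (β → Bool) → H₁ → ℝ) (ψ : (β → Bool) → H₂ → ℝ) :
    Qf p φ ψ 0 = -(1 / 2) * ((∑ x, ∑ y, Wf p φ ψ x y) / (cN β * cN β)) := by
  unfold Qf
  simp_rw [Ker_zero, one_mul]

lemma Qf_one (p : ℝ) (φ : (β → Bool) → H₁ → ℝ) (ψ : (β → Bool) → H₂ → ℝ) :
    Qf p φ ψ 1 = -(1 / 2) * ((∑ x, Wf p φ ψ x x) / cN β) := by
  unfold Qf
  have : ∀ x : β → Bool, ∑ y, Ker 1 x y * Wf p φ ψ x y = cN β * Wf p φ ψ x x := by
    intro x
    rw [Finset.sum_eq_single x]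
    · rw [Ker_one_self]
    · intro y _ hy
      rw [Ker_one_ne (Ne.symm hy), zero_mul]
    · intro h; exact absurd (Finset.mem_univ x) h
  simp_rw [this, ← Finset.mul_sum]
  have := (cN_pos (β := β)).ne'
  field_simp

end general

section main

variable {m : ℕ} {ι : Type} [Fintype ι] [DecidableEq ι] {H : Type} [Fintype H] [Nonempty H]

lemma Dd_lip {β : Type} [Fintype β] [DecidableEq β] (c : β) (u : (β → Bool) → ℝ) {e : ℝ}
    (x : β → Bool) (h : |u x - u (fl c x)| ≤ 2 * e) : |Dd c u x| ≤ e := by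
  unfold Dd
  rw [abs_div, abs_mul, abs_sg, one_mul, abs_two]
  linarith

set_option maxHeartbeats 4000000 in
/-- derivative inequality -/
lemma deriv_ineq {p : ℝ} (hp1 : 1 ≤ p) (hp2 : p < 2) (hm : 0 < m) {n kap eps : ℝ} (hn : 0 < n)
    (hkap : 0 < kap) (heps : 0 < eps)
    (f : (Fin m × ι → Bool) → ℝ) (g : (Fin m × ι → Bool) → H → ℝ)
    (d : ι → (Fin m × ι → Bool) → ℝ) (Bm : (Fin m × ι → Bool) → ℝ)
    (hd0 : ∀ i x, 0 ≤ d i x) (hB0 : ∀ x, 0 ≤ Bm x)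
    (hf : ∀ c x, |f x - f (fl c x)| ≤ 2 * d c.2 x)
    (hg : ∀ (v : ℝ → ℝ) (L : ℝ), (∀ a b, |v a - v b| ≤ L * |a - b|) → ∀ c x,
      |Dd c (fun x => (∑ η, v (g x η)) / Fintype.card H) x| ≤ L * Bm x)
    {r : ℝ} (hr0 : 0 ≤ r) (hr1 : r < 1) :
    -(1 / 2) * ((∑ x, ∑ y, dKer (r * r) x y * Wf p (fun x (_ : Unit) => f x) g x y) /
        (cN (Fin m × ι) * cN (Fin m × ι))) ≤
      (2 * kap)⁻¹ * (-(1 / 2) * ((∑ x, ∑ y, dKer (r * r) x y * Wf p g g x y) /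
        (cN (Fin m × ι) * cN (Fin m × ι)))) +
      (cp p)⁻¹ * (kap / 2 * (eps ^ (2 - p) / (2 - p)) *
          ((∑ x, ∑ i, (√m * d i x) ^ p) / cN (Fin m × ι)) +
        2 * eps ^ (-(p - 1 / 2)) * ((1 - r * r)⁻¹) ^ ((3 : ℝ) / 4) * n ^ (-gam p) *
          ((∑ x, ∑ i, (√m * d i x) ^ p) / cN (Fin m × ι) +
            (∑ x, (√m * n ^ (1 / p - 1 / 2) * Bm x) ^ p) / cN (Fin m × ι))) := by
  have hcp := cp_pos (p := p) (by linarith) hp2
  have hR : 0 < (1 - r * r)⁻¹ := by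
    apply inv_pos.2; nlinarith
  have hcN : 0 < cN (Fin m × ι) := cN_pos
  rw [deriv_Qf_eq hp1 hp2, deriv_Qf_eq hp1 hp2]
  -- the slice bounds
  have hA0 : ∀ X i, 0 ≤ Tn r (d i) X := by
    intro X i
    have := Tn_mono hr0 hr1.le (φ := fun _ => (0 : ℝ)) (ψ := d i) (hd0 i) X
    rwa [Tn_const] at this
  have hBX0 : ∀ X, 0 ≤ Tn r Bm X := by
    intro X
    have := Tn_mono hr0 hr1.le (φ := fun _ => (0 : ℝ)) (ψ := Bm) hB0 X
    rwa [Tn_const] at this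
  choose h hint hbd hle using fun X : (Fin m × ι) → Bool =>
    exists_h hp1 hp2 (m := m) (ι := ι) (n := n) (R := (1 - r * r)⁻¹) (B := Tn r Bm X)
      (kap := kap) (eps := eps) hm hn hR (hBX0 X) hkap heps (fun i => Tn r (d i) X) (hA0 X)
  have hslice : ∀ t : ℝ, 0 < t → Gam r (fun x (_ : Unit) => f x) g t ≤
      (2 * kap)⁻¹ * Gam r g g t + (∑ X, 2 * h X t) / cN (Fin m × ι) := by
    intro t ht
    unfold Gam
    rw [← mul_div_assoc, ← add_div]
    refine div_le_div_of_nonneg_right ?_ hcN.le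
    rw [Finset.mul_sum, ← Finset.sum_add_distrib]
    refine Finset.sum_le_sum fun X _ => ?_
    have hcosl : ∀ a b : ℝ, |Real.cos (t * a) - Real.cos (t * b)| ≤ t * |a - b| := by
      intro a b
      have h1 := Real.abs_cos_sub_cos_le (t * a) (t * b)
      rw [← mul_sub, abs_mul, abs_of_pos ht] at h1
      exact h1
    have hsinl : ∀ a b : ℝ, |Real.sin (t * a) - Real.sin (t * b)| ≤ t * |a - b| := by
      intro a b
      have h1 := Real.abs_sin_sub_sin_le (t * a) (t * b)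
      rw [← mul_sub, abs_mul, abs_of_pos ht] at h1
      exact h1
    have hCf : ∀ x : (Fin m × ι) → Bool, Cf (fun x (_ : Unit) => f x) t x = Real.cos (t * f x) := by
      intro x; simp [Cf]
    have hSf : ∀ x : (Fin m × ι) → Bool, Sf (fun x (_ : Unit) => f x) t x = Real.sin (t * f x) := by
      intro x; simp [Sf]
    have a1 : ∀ c, |Tn r (Dd c (Cf (fun x (_ : Unit) => f x) t)) X| ≤ t * Tn r (d c.2) X := by
      intro c
      rw [← Tn_smul]
      refine abs_Tn_le hr0 hr1.le (fun x => ?_) X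
      refine Dd_lip c _ x ?_
      rw [hCf, hCf]
      refine (hcosl _ _).trans ?_
      have := mul_le_mul_of_nonneg_left (hf c x) ht.le
      linarith
    have a2 : ∀ c, |Tn r (Dd c (Sf (fun x (_ : Unit) => f x) t)) X| ≤ t * Tn r (d c.2) X := by
      intro c
      rw [← Tn_smul]
      refine abs_Tn_le hr0 hr1.le (fun x => ?_) X
      refine Dd_lip c _ x ?_
      rw [hSf, hSf]
      refine (hsinl _ _).trans ?_
      have := mul_le_mul_of_nonneg_left (hf c x) ht.le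
      linarith
    have b1 : ∀ c, |Tn r (Dd c (Cf g t)) X| ≤ t * Tn r Bm X := by
      intro c
      rw [← Tn_smul]
      exact abs_Tn_le hr0 hr1.le (fun x => hg (fun a => Real.cos (t * a)) t hcosl c x) X
    have b2 : ∀ c, |Tn r (Dd c (Sf g t)) X| ≤ t * Tn r Bm X := by
      intro c
      rw [← Tn_smul]
      exact abs_Tn_le hr0 hr1.le (fun x => hg (fun a => Real.sin (t * a)) t hsinl c x) X
    have k1 := hbd X t ht (fun c => Tn r (Dd c (Cf (fun x (_ : Unit) => f x) t)) X)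
      (fun c => Tn r (Dd c (Cf g t)) X) a1 b1 (bessel hr0 hr1 (abs_Cf_le _ t) X)
      (bessel hr0 hr1 (abs_Cf_le _ t) X)
    have k2 := hbd X t ht (fun c => Tn r (Dd c (Sf (fun x (_ : Unit) => f x) t)) X)
      (fun c => Tn r (Dd c (Sf g t)) X) a2 b2 (bessel hr0 hr1 (abs_Sf_le _ t) X)
      (bessel hr0 hr1 (abs_Sf_le _ t) X)
    rw [Finset.sum_add_distrib, Finset.sum_add_distrib]
    simp_rw [← sq]
    linarith
  have hI : ∫ t in Ioi (0 : ℝ), Gam r (fun x (_ : Unit) => f x) g t * t ^ (-1 - p) ≤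
      (2 * kap)⁻¹ * (∫ t in Ioi (0 : ℝ), Gam r g g t * t ^ (-1 - p)) +
        (∑ X, 2 * ∫ t in Ioi (0 : ℝ), h X t * t ^ (-1 - p)) / cN (Fin m × ι) := by
    have i1 := (integrableOn_Gam hp1 hp2 r g g).const_mul (2 * kap)⁻¹
    have i2 : IntegrableOn (fun t : ℝ => (∑ X, 2 * (h X t * t ^ (-1 - p))) / cN (Fin m × ι)) (Ioi 0) := by
      refine Integrable.div_const ?_ _
      exact integrable_finset_sum _ fun X _ => (hint X).const_mul 2
    have e1 : (2 * kap)⁻¹ * (∫ t in Ioi (0 : ℝ), Gam r g g t * t ^ (-1 - p)) +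
        (∑ X, 2 * ∫ t in Ioi (0 : ℝ), h X t * t ^ (-1 - p)) / cN (Fin m × ι) =
        ∫ t in Ioi (0 : ℝ), ((2 * kap)⁻¹ * (Gam r g g t * t ^ (-1 - p)) +
          (∑ X, 2 * (h X t * t ^ (-1 - p))) / cN (Fin m × ι)) := by
      rw [integral_add i1 i2, integral_const_mul, integral_div, integral_finset_sum]
      · simp_rw [integral_const_mul]
      · intro X _
        exact (hint X).const_mul 2
    rw [e1]
    refine setIntegral_mono_on (integrableOn_Gam hp1 hp2 r _ g) (i1.add i2) measurableSet_Ioi ?_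
    intro t ht
    have ht' : 0 < t := ht
    have h1 := mul_le_mul_of_nonneg_right (hslice t ht') (Real.rpow_nonneg ht'.le (-1 - p))
    refine h1.trans (le_of_eq ?_)
    simp_rw [← mul_assoc, ← Finset.sum_mul]
    ring
  have hS : (∑ X, 2 * ∫ t in Ioi (0 : ℝ), h X t * t ^ (-1 - p)) / cN (Fin m × ι) ≤
      2 * (kap / 2 * (eps ^ (2 - p) / (2 - p)) *
          ((∑ x, ∑ i, (√m * d i x) ^ p) / cN (Fin m × ι)) +
        2 * eps ^ (-(p - 1 / 2)) * ((1 - r * r)⁻¹) ^ ((3 : ℝ) / 4) * n ^ (-gam p) *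
          ((∑ x, ∑ i, (√m * d i x) ^ p) / cN (Fin m × ι) +
            (∑ x, (√m * n ^ (1 / p - 1 / 2) * Bm x) ^ p) / cN (Fin m × ι))) := by
    have hU : ∑ X, ∑ i, (√m * Tn r (d i) X) ^ p ≤ ∑ x, ∑ i, (√m * d i x) ^ p := by
      have s1 : ∑ X : (Fin m × ι) → Bool, ∑ i, (√m * Tn r (d i) X) ^ p =
          ∑ i, ∑ X : (Fin m × ι) → Bool, (√m * Tn r (d i) X) ^ p := Finset.sum_comm
      have s2 : ∑ x : (Fin m × ι) → Bool, ∑ i, (√m * d i x) ^ p =
          ∑ i, ∑ x : (Fin m × ι) → Bool, (√m * d i x) ^ p := Finset.sum_comm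
      rw [s1, s2]
      refine Finset.sum_le_sum fun i _ => ?_
      rw [← sum_Tn r (fun x => (√m * d i x) ^ p)]
      refine Finset.sum_le_sum fun X _ => ?_
      rw [← Tn_smul]
      exact Tn_rpow hr0 hr1.le hp1 (fun x => mul_nonneg (Real.sqrt_nonneg _) (hd0 i x)) X
    have hV : ∑ X, (√m * n ^ (1 / p - 1 / 2) * Tn r Bm X) ^ p ≤
        ∑ x, (√m * n ^ (1 / p - 1 / 2) * Bm x) ^ p := by
      rw [← sum_Tn r (fun x => (√m * n ^ (1 / p - 1 / 2) * Bm x) ^ p)]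
      refine Finset.sum_le_sum fun X _ => ?_
      rw [← Tn_smul]
      exact Tn_rpow hr0 hr1.le hp1 (fun x => mul_nonneg (by positivity) (hB0 x)) X
    have c1 : 0 ≤ kap / 2 * (eps ^ (2 - p) / (2 - p)) := by
      have : 0 < 2 - p := by linarith
      positivity
    have c2 : 0 ≤ 2 * eps ^ (-(p - 1 / 2)) * ((1 - r * r)⁻¹) ^ ((3 : ℝ) / 4) * n ^ (-gam p) := by
      positivity
    rw [div_le_iff₀ hcN, ← Finset.mul_sum]
    have : ∑ X, ∫ t in Ioi (0 : ℝ), h X t * t ^ (-1 - p) ≤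
        kap / 2 * (eps ^ (2 - p) / (2 - p)) * ∑ X, ∑ i, (√m * Tn r (d i) X) ^ p +
        2 * eps ^ (-(p - 1 / 2)) * ((1 - r * r)⁻¹) ^ ((3 : ℝ) / 4) * n ^ (-gam p) *
          (∑ X, ∑ i, (√m * Tn r (d i) X) ^ p +
            ∑ X, (√m * n ^ (1 / p - 1 / 2) * Tn r Bm X) ^ p) := by
      refine (Finset.sum_le_sum fun X _ => hle X).trans (le_of_eq ?_)
      rw [Finset.sum_add_distrib, ← Finset.mul_sum, ← Finset.mul_sum, Finset.sum_add_distrib]
    have h2 := mul_le_mul_of_nonneg_left hU c1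
    have h3 := mul_le_mul_of_nonneg_left (add_le_add hU hV) c2
    have h4 : 2 * (kap / 2 * (eps ^ (2 - p) / (2 - p)) *
          ((∑ x, ∑ i, (√m * d i x) ^ p) / cN (Fin m × ι)) +
        2 * eps ^ (-(p - 1 / 2)) * ((1 - r * r)⁻¹) ^ ((3 : ℝ) / 4) * n ^ (-gam p) *
          ((∑ x, ∑ i, (√m * d i x) ^ p) / cN (Fin m × ι) +
            (∑ x, (√m * n ^ (1 / p - 1 / 2) * Bm x) ^ p) / cN (Fin m × ι))) * cN (Fin m × ι) =
        2 * (kap / 2 * (eps ^ (2 - p) / (2 - p)) * (∑ x, ∑ i, (√m * d i x) ^ p) +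
        2 * eps ^ (-(p - 1 / 2)) * ((1 - r * r)⁻¹) ^ ((3 : ℝ) / 4) * n ^ (-gam p) *
          ((∑ x, ∑ i, (√m * d i x) ^ p) +
            (∑ x, (√m * n ^ (1 / p - 1 / 2) * Bm x) ^ p))) := by
      field_simp
    rw [h4]
    linarith
  have hinv : 0 ≤ (2 * cp p)⁻¹ := by positivity
  have hfin := mul_le_mul_of_nonneg_left (hI.trans (add_le_add_right hS _)) hinv
  refine hfin.trans (le_of_eq ?_)
  have : (2 * cp p)⁻¹ * 2 = (cp p)⁻¹ := by field_simp
  rw [mul_add, ← mul_assoc (2 * cp p)⁻¹ 2, this]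
  ring

/-- the cube inequality -/
theorem star {p : ℝ} (hp1 : 1 ≤ p) (hp2 : p < 2) (hm : 0 < m) {n kap eps : ℝ} (hn : 0 < n)
    (hkap : 0 < kap) (heps : 0 < eps)
    (f : (Fin m × ι → Bool) → ℝ) (g : (Fin m × ι → Bool) → H → ℝ)
    (d : ι → (Fin m × ι → Bool) → ℝ) (Bm : (Fin m × ι → Bool) → ℝ)
    (hd0 : ∀ i x, 0 ≤ d i x) (hB0 : ∀ x, 0 ≤ Bm x)
    (hf : ∀ c x, |f x - f (fl c x)| ≤ 2 * d c.2 x)
    (hg : ∀ (v : ℝ → ℝ) (L : ℝ), (∀ a b, |v a - v b| ≤ L * |a - b|) → ∀ c x,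
      |Dd c (fun x => (∑ η, v (g x η)) / Fintype.card H) x| ≤ L * Bm x) :
    1 / 2 * ((∑ x, ∑ y, Wf p (fun x (_ : Unit) => f x) g x y) /
        (cN (Fin m × ι) * cN (Fin m × ι))) ≤
      1 / 2 * ((∑ x, Wf p (fun x (_ : Unit) => f x) g x x) / cN (Fin m × ι)) +
      (4 * kap)⁻¹ * ((∑ x, ∑ y, Wf p g g x y) / (cN (Fin m × ι) * cN (Fin m × ι))) +
      (cp p)⁻¹ * (kap / 2 * (eps ^ (2 - p) / (2 - p)) *
          ((∑ x, ∑ i, (√m * d i x) ^ p) / cN (Fin m × ι)) +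
        8 * eps ^ (-(p - 1 / 2)) * n ^ (-gam p) *
          ((∑ x, ∑ i, (√m * d i x) ^ p) / cN (Fin m × ι) +
            (∑ x, (√m * n ^ (1 / p - 1 / 2) * Bm x) ^ p) / cN (Fin m × ι))) := by
  have hcp := cp_pos (p := p) (by linarith) hp2
  have hcN : 0 < cN (Fin m × ι) := cN_pos
  set U : ℝ := (∑ x, ∑ i, (√m * d i x) ^ p) / cN (Fin m × ι) with hU
  set V : ℝ := (∑ x, (√m * n ^ (1 / p - 1 / 2) * Bm x) ^ p) / cN (Fin m × ι) with hV
  set C1 : ℝ := kap / 2 * (eps ^ (2 - p) / (2 - p)) with hC1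
  set C2 : ℝ := 2 * eps ^ (-(p - 1 / 2)) * n ^ (-gam p) with hC2
  set F : ℝ → ℝ := fun ρ => Qf p (fun x (_ : Unit) => f x) g ρ - (2 * kap)⁻¹ * Qf p g g ρ -
    (cp p)⁻¹ * (C1 * U) * ρ + (cp p)⁻¹ * (4 * (C2 * (U + V))) * (1 - ρ) ^ ((1 : ℝ) / 4) with hF
  have hder : ∀ ρ ∈ Ioo (0 : ℝ) 1, HasDerivAt F
      (-(1 / 2) * ((∑ x, ∑ y, dKer ρ x y * Wf p (fun x (_ : Unit) => f x) g x y) /
        (cN (Fin m × ι) * cN (Fin m × ι))) -
      (2 * kap)⁻¹ * (-(1 / 2) * ((∑ x, ∑ y, dKer ρ x y * Wf p g g x y) /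
        (cN (Fin m × ι) * cN (Fin m × ι)))) - (cp p)⁻¹ * (C1 * U) * 1 +
        (cp p)⁻¹ * (4 * (C2 * (U + V))) *
          ((0 - 1) * ((1 : ℝ) / 4) * (1 - ρ) ^ ((1 : ℝ) / 4 - 1))) ρ := by
    intro ρ hρ
    have h1 := hasDerivAt_Qf p (fun x (_ : Unit) => f x) g ρ
    have h2 := (hasDerivAt_Qf p g g ρ).const_mul (2 * kap)⁻¹
    have h3 := (hasDerivAt_id ρ).const_mul ((cp p)⁻¹ * (C1 * U))
    have h4 : HasDerivAt (fun ρ : ℝ => (1 - ρ) ^ ((1 : ℝ) / 4))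
        ((0 - 1) * ((1 : ℝ) / 4) * (1 - ρ) ^ ((1 : ℝ) / 4 - 1)) ρ := by
      refine HasDerivAt.rpow_const ?_ ?_
      · exact (hasDerivAt_const ρ (1 : ℝ)).sub (hasDerivAt_id ρ)
      · left
        have := hρ.2
        exact (sub_pos.2 this).ne'
    have h5 := h4.const_mul ((cp p)⁻¹ * (4 * (C2 * (U + V))))
    exact ((h1.sub h2).sub h3).add h5
  have hcont : ContinuousOn F (Icc 0 1) := by
    have a1 : Continuous (Qf p (fun x (_ : Unit) => f x) g) :=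
      continuous_iff_continuousAt.2 fun ρ => (hasDerivAt_Qf p _ g ρ).continuousAt
    have a2 : Continuous (Qf p g g) :=
      continuous_iff_continuousAt.2 fun ρ => (hasDerivAt_Qf p g g ρ).continuousAt
    have a3 : Continuous fun ρ : ℝ => (1 - ρ) ^ ((1 : ℝ) / 4) := by
      refine Continuous.rpow_const (by fun_prop) fun ρ => Or.inr (by norm_num)
    exact (((a1.sub (a2.const_mul _)).sub (continuous_const.mul continuous_id)).add
      (a3.const_mul _)).continuousOn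
  have hanti : AntitoneOn F (Icc 0 1) := by
    refine antitoneOn_of_deriv_nonpos (convex_Icc 0 1) hcont ?_ ?_
    · rw [interior_Icc]
      intro ρ hρ
      exact (hder ρ hρ).differentiableAt.differentiableWithinAt
    · rw [interior_Icc]
      intro ρ hρ
      rw [(hder ρ hρ).deriv]
      have hr0 : 0 ≤ √ρ := Real.sqrt_nonneg _
      have hr1 : √ρ < 1 := by
        rw [Real.sqrt_lt' one_pos]
        simpa using hρ.2
      have key := deriv_ineq hp1 hp2 hm hn hkap heps f g d Bm hd0 hB0 hf hg hr0 hr1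
      rw [Real.mul_self_sqrt hρ.1.le] at key
      have e1 : ((1 - ρ)⁻¹) ^ ((3 : ℝ) / 4) = (1 - ρ) ^ ((1 : ℝ) / 4 - 1) := by
        have : 0 < 1 - ρ := by linarith [hρ.2]
        rw [← Real.rpow_neg_one, ← Real.rpow_mul this.le]
        norm_num
      rw [e1, ← hU, ← hV, ← hC1] at key
      have e2 : (cp p)⁻¹ * (C1 * U + 2 * eps ^ (-(p - 1 / 2)) * (1 - ρ) ^ ((1 : ℝ) / 4 - 1) *
          n ^ (-gam p) * (U + V)) = (cp p)⁻¹ * (C1 * U) +
          (cp p)⁻¹ * (C2 * (U + V)) * (1 - ρ) ^ ((1 : ℝ) / 4 - 1) := by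
        rw [hC2]; ring
      rw [e2] at key
      linarith
  have hfin := hanti (left_mem_Icc.2 zero_le_one) (right_mem_Icc.2 zero_le_one) zero_le_one
  simp only [hF, Qf_zero, Qf_one, sub_self, sub_zero, mul_zero, mul_one, Real.one_rpow] at hfin
  rw [Real.zero_rpow (by norm_num), mul_zero, add_zero] at hfin
  have hWgg : 0 ≤ (∑ x, Wf p g g x x) / cN (Fin m × ι) :=
    div_nonneg (Finset.sum_nonneg fun _ _ => Wf_nonneg _ _ _ _ _) hcN.le
  have hk : 0 < (2 * kap)⁻¹ := by positivity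
  have hk2 : (4 * kap)⁻¹ = (2 * kap)⁻¹ * (1 / 2) := by
    rw [mul_inv, mul_inv]; ring
  have hx : 0 ≤ (2 * kap)⁻¹ * (1 / 2) * ((∑ x, Wf p g g x x) / cN (Fin m × ι)) := by positivity
  rw [hk2]
  have e3 : 8 * eps ^ (-(p - 1 / 2)) * n ^ (-gam p) * (U + V) = 4 * (C2 * (U + V)) := by
    rw [hC2]; ring
  rw [e3]
  linarith

end main

end Pool.Agent.W533.U
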